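import Pool.Agent.Helper8.Kak.Close

/-!
# Linear forms attached to lines: definitions
-/

set_option autoImplicit false

namespace Pool.Agent.Helper8.Kak

/-- conditional entropy of `r` given `s` -/
noncomputable def CE {Ω : Type} [Fintype Ω] (p : Ω → ℝ) (r s : Setoid Ω) : ℝ :=
  Ent p (r ⊓ s) - Ent p s

/-- expectation -/
noncomputable def Ex {Ω : Type} [Fintype Ω] (p : Ω → ℝ) (f : Ω → ℝ) : ℝ := ∑ ω, p ω * f ω

/-- the form `(point of l at height t) + (c / M) q` -/
noncomputable def frm {m M : ℕ} {L : Type} (x v : L → Fin m → ℝ) (l : L) (t : Fin M) (c : ℤ)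
    (q : Fin m → ℝ) : Fin m → ℝ := fun i => pnt x v l t i + (c : ℝ) / M * q i

/-- log-size of the parameter `c / M` -/
noncomputable def up (M : ℕ) (c : ℤ) : ℝ := Real.log (1 + |(c : ℝ)| / M)

/-- log-size of the inverse of the parameter `c / M` -/
noncomputable def dn (M : ℕ) (c : ℤ) : ℝ := Real.log (1 + M / max |(c : ℝ)| 1)

/-- logarithm of the inverse distance of two heights -/
noncomputable def ld {M : ℕ} (t t' : Fin M) : ℝ := Real.log (1 / dst t t')

/-- parameter change along a line -/
noncomputable def mv {M : ℕ} (c : ℤ) (s t t' : Fin M) : ℤ := ⌊(c : ℝ) * ((ht s - ht t') / (ht s - ht t))⌋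

/-- parameter change to the direction at infinity -/
noncomputable def mvInf {M : ℕ} (c : ℤ) (s t : Fin M) : ℤ := ⌊(c : ℝ) * (-1 / (ht s - ht t))⌋

end Pool.Agent.Helper8.Kak
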