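import Pool.Agent.Helper8.Kak.L1Base
import Pool.Agent.Helper89.KakGeo

/-!
# The costs of level 1
-/

set_option autoImplicit false

namespace Pool.Agent.Helper8.Kak

open Pool.Agent.Helper89.KakGeo

section gen

variable {Ω : Type} [Fintype Ω] {p : Ω → ℝ}

theorem Ex_add (f g : Ω → ℝ) : Ex p (fun ω => f ω + g ω) = Ex p f + Ex p g := by
  unfold Ex
  rw [← Finset.sum_add_distrib]
  exact Finset.sum_congr rfl fun ω _ => by ring

theorem Ex_smul (c : ℝ) (f : Ω → ℝ) : Ex p (fun ω => c * f ω) = c * Ex p f := by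
  unfold Ex
  rw [Finset.mul_sum]
  exact Finset.sum_congr rfl fun ω _ => by ring

theorem Ex_const (hp : IsProb p) (c : ℝ) : Ex p (fun _ => c) = c := by
  unfold Ex
  rw [← Finset.sum_mul, hp.2, one_mul]

theorem Ex_mono (hp : IsProb p) {f g : Ω → ℝ} (h : ∀ ω, f ω ≤ g ω) : Ex p f ≤ Ex p g :=
  Finset.sum_le_sum fun ω _ => mul_le_mul_of_nonneg_left (h ω) (hp.1 ω)

variable {ι : Type} [DecidableEq ι] {V : ι → Setoid Ω}

theorem cost_eq (A A' : Finset ι) (i : ι) (h : A' = insert i A) :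
    HH p V A' - HH p V A = CE p (V i) (A.inf V) := by
  unfold HH CE
  rw [h, Finset.inf_insert]

theorem ld_le (hp : IsProb p) {M : ℕ} {A A' : Finset ι} {i j : ι} (T' T : Ω → Fin M)
    (hi : V i = Setoid.ker T') (hj : ∀ ω ω', V j ω ω' → T ω = T ω') (hjA : j ∈ A)
    (hA' : A' = insert i A) {d : ℝ} (hd : d ≤ HH p V A' - HH p V A) :
    Ex p (fun y => ld (T' y) (T y)) ≤ 2 * (Real.log M + Real.log 5 - d) := by
  have h := close hp (A.inf V) T T' (fun ω ω' _ _ h => hj ω ω' ((inf_rel V A ω ω').1 h j hjA))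
  rw [cost_eq A A' i hA', hi] at hd
  unfold CE at hd
  unfold Ex ld
  linarith

theorem cost_le (V : ι → Setoid Ω) (A A' : Finset ι) (i : ι) (h : A' = insert i A) (k : ℝ)
    (hk : ∀ r : Setoid Ω, (∀ ω ω', r ω ω' → ∀ j ∈ A, V j ω ω') → CE p (V i) r ≤ k) :
    HH p V A' - HH p V A ≤ k := by
  rw [cost_eq A A' i h]
  exact hk _ fun ω ω' h1 => (inf_rel V A ω ω').1 h1

theorem CE_mono (hp : IsProb p) {r r' s : Setoid Ω}
    (h : ∀ ω ω', 0 < p ω → 0 < p ω' → r' ω ω' → s ω ω' → r ω ω') : CE p r s ≤ CE p r' s := by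
  unfold CE
  have : Ent p (r ⊓ s) ≤ Ent p (r' ⊓ s) := by
    refine Ent_mono' hp fun ω ω' h1 h2 h3 => ⟨h ω ω' h1 h2 h3.1 h3.2, h3.2⟩
  linarith

end gen

theorem log3_le : Real.log 3 ≤ 1.4 := by
  have h1 : Real.log 3 ≤ Real.log 4 := Real.log_le_log (by norm_num) (by norm_num)
  have h2 : Real.log 4 = 2 * Real.log 2 := by
    rw [show (4 : ℝ) = 2 ^ 2 by norm_num, Real.log_pow]; norm_num
  have := Real.log_two_lt_d9
  linarith

theorem log4_le : Real.log 4 ≤ 1.4 := by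
  have h2 : Real.log 4 = 2 * Real.log 2 := by
    rw [show (4 : ℝ) = 2 ^ 2 by norm_num, Real.log_pow]; norm_num
  have := Real.log_two_lt_d9
  linarith

theorem log8_le : Real.log 8 ≤ 2.1 := by
  have h2 : Real.log 8 = 3 * Real.log 2 := by
    rw [show (8 : ℝ) = 2 ^ 3 by norm_num, Real.log_pow]; norm_num
  have := Real.log_two_lt_d9
  linarith

theorem log5_le : Real.log 5 ≤ 2.1 :=
  (Real.log_le_log (by norm_num) (by norm_num)).trans log8_le

theorem log7_le : Real.log 7 ≤ 2.1 :=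
  (Real.log_le_log (by norm_num) (by norm_num)).trans log8_le

theorem log11_le : Real.log 11 ≤ 3 := by
  have h1 : Real.log 11 ≤ Real.log 16 := Real.log_le_log (by norm_num) (by norm_num)
  have h2 : Real.log 16 = 4 * Real.log 2 := by
    rw [show (16 : ℝ) = 2 ^ 4 by norm_num, Real.log_pow]; norm_num
  have := Real.log_two_lt_d9
  linarith

theorem log2_le : Real.log 2 ≤ 0.7 := by
  have := Real.log_two_lt_d9
  linarith

section

variable {m M : ℕ} {G : Geo m M} (S : Sys G)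

theorem Sys.κ_nonneg : 0 ≤ S.κ := by
  have h := Ent_height_le S.hp (S.K ⊓ Setoid.ker S.l) S.T
  have e : Ent S.p (Setoid.ker S.T ⊓ (S.K ⊓ Setoid.ker S.l)) = S.eB := by
    unfold Sys.eB
    rw [inf_comm]
  rw [e] at h
  unfold Sys.κ Sys.eL
  linarith

theorem Sys.eTM : S.eT - S.eK ≤ Real.log M := by
  have h := Ent_height_le S.hp S.K S.T
  have e : Ent S.p (Setoid.ker S.T ⊓ S.K) = S.eT := by
    unfold Sys.eT
    rw [inf_comm]
  rw [e] at h
  exact h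

theorem Sys.base : L1.Base S.pY S.V S.eK S.eL S.eB S.eT S.eP (Real.log M) S.Lam :=
  Pool.Agent.Helper8.Kak.base S S.eTM

theorem Sys.deficit : 2 * (Real.log M + Real.log 5 - (S.eB - S.eL)) ≤ 5 * (S.κ + 1) := by
  have h := S.κ_nonneg
  have h5 := log5_le
  unfold Sys.κ at *
  linarith

theorem Sys.ld_aux (A A' : Finset V1) (i j : V1) (T' T : Y S.Ω → Fin M)
    (hi : S.V i = Setoid.ker T') (hj : ∀ y y', S.V j y y' → T y = T y') (hjA : j ∈ A)
    (hA' : A' = insert i A) (hd : S.eB - S.eL ≤ HH S.pY S.V A' - HH S.pY S.V A) :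
    Ex S.pY (fun y => ld (T' y) (T y)) ≤ 5 * (S.κ + 1) :=
  (ld_le S.hpY T' T hi hj hjA hA' hd).trans S.deficit

theorem Sys.ldS0 : Ex S.pY (fun y => ld (S.T (cS y)) (S.T (c0 y))) ≤ 5 * (S.κ + 1) := by
  have h1 : S.V V1.S = Setoid.ker (fun y => S.T (cS y)) := rfl
  have h2 : ∀ y y', S.V V1.T0 y y' → (fun y => S.T (c0 y)) y = (fun y => S.T (c0 y)) y' :=
    fun _ _ h => h
  have h3 : V1.T0 ∈ ({.K, .l0, .l1, .l2, .T0, .T1, .R, .b, .b'} : Finset V1) := by decide +kernel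
  have h4 : ({.K, .l0, .l1, .l2, .T0, .T1, .R, .b, .b', .S} : Finset V1) = insert V1.S {.K, .l0, .l1, .l2, .T0, .T1, .R, .b, .b'} := by decide +kernel
  exact S.ld_aux _ _ _ _ _ _ h1 h2 h3 h4 S.base.htS

theorem Sys.ldS1 : Ex S.pY (fun y => ld (S.T (cS y)) (S.T (cT y))) ≤ 5 * (S.κ + 1) := by
  have h1 : S.V V1.S = Setoid.ker (fun y => S.T (cS y)) := rfl
  have h2 : ∀ y y', S.V V1.T1 y y' → (fun y => S.T (cT y)) y = (fun y => S.T (cT y)) y' :=
    fun _ _ h => h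
  have h3 : V1.T1 ∈ ({.K, .l0, .l1, .l2, .T0, .T1, .R, .b, .b'} : Finset V1) := by decide +kernel
  have h4 : ({.K, .l0, .l1, .l2, .T0, .T1, .R, .b, .b', .S} : Finset V1) = insert V1.S {.K, .l0, .l1, .l2, .T0, .T1, .R, .b, .b'} := by decide +kernel
  exact S.ld_aux _ _ _ _ _ _ h1 h2 h3 h4 S.base.htS

theorem Sys.ldR0 : Ex S.pY (fun y => ld (S.T (cR y)) (S.T (c0 y))) ≤ 5 * (S.κ + 1) := by
  have h1 : S.V V1.R = Setoid.ker (fun y => S.T (cR y)) := rfl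
  have h2 : ∀ y y', S.V V1.T0 y y' → (fun y => S.T (c0 y)) y = (fun y => S.T (c0 y)) y' :=
    fun _ _ h => h
  have h3 : V1.T0 ∈ ({.K, .l0, .l1, .l2, .T0, .T1, .S, .b, .b'} : Finset V1) := by decide +kernel
  have h4 : ({.K, .l0, .l1, .l2, .T0, .T1, .S, .b, .b', .R} : Finset V1) = insert V1.R {.K, .l0, .l1, .l2, .T0, .T1, .S, .b, .b'} := by decide +kernel
  exact S.ld_aux _ _ _ _ _ _ h1 h2 h3 h4 S.base.htR

theorem Sys.ldb1 : Ex S.pY (fun y => ld (S.T (cb' y)) (S.T (cT y))) ≤ 5 * (S.κ + 1) := by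
  have h1 : S.V V1.b' = Setoid.ker (fun y => S.T (cb' y)) := rfl
  have h2 : ∀ y y', S.V V1.T1 y y' → (fun y => S.T (cT y)) y = (fun y => S.T (cT y)) y' :=
    fun _ _ h => h
  have h3 : V1.T1 ∈ ({.K, .l0, .l1, .l2, .T0, .T1, .S, .R, .b} : Finset V1) := by decide +kernel
  have h4 : ({.K, .l0, .l1, .l2, .T0, .T1, .S, .R, .b, .b'} : Finset V1) = insert V1.b' {.K, .l0, .l1, .l2, .T0, .T1, .S, .R, .b} := by decide +kernel
  exact S.ld_aux _ _ _ _ _ _ h1 h2 h3 h4 S.base.htb'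

theorem Sys.ldbb : Ex S.pY (fun y => ld (S.T (cb' y)) (S.T (cb y))) ≤ 5 * (S.κ + 1) := by
  have h1 : S.V V1.b' = Setoid.ker (fun y => S.T (cb' y)) := rfl
  have h2 : ∀ y y', S.V V1.b y y' → (fun y => S.T (cb y)) y = (fun y => S.T (cb y)) y' :=
    fun _ _ h => h
  have h3 : V1.b ∈ ({.K, .l0, .l1, .l2, .T0, .T1, .S, .R, .b} : Finset V1) := by decide +kernel
  have h4 : ({.K, .l0, .l1, .l2, .T0, .T1, .S, .R, .b, .b'} : Finset V1) = insert V1.b' {.K, .l0, .l1, .l2, .T0, .T1, .S, .R, .b} := by decide +kernel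
  exact S.ld_aux _ _ _ _ _ _ h1 h2 h3 h4 S.base.htb'

theorem Sys.ld10 : Ex S.pY (fun y => ld (S.T (cT y)) (S.T (c0 y))) ≤ 5 * (S.κ + 1) := by
  have h1 : S.V V1.T1 = Setoid.ker (fun y => S.T (cT y)) := rfl
  have h2 : ∀ y y', S.V V1.T0 y y' → (fun y => S.T (c0 y)) y = (fun y => S.T (c0 y)) y' :=
    fun _ _ h => h
  have h3 : V1.T0 ∈ ({.K, .l0, .T0} : Finset V1) := by decide +kernel
  have h4 : ({.K, .l0, .T0, .T1} : Finset V1) = insert V1.T1 {.K, .l0, .T0} := by decide +kernel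
  exact S.ld_aux _ _ _ _ _ _ h1 h2 h3 h4 S.base.htT1

theorem Sys.upB : Ex S.pY (fun y => up M (vB S y)) ≤ 8 * (S.κ + 1) := by
  have h := S.κ_nonneg
  have h2 := log2_le
  have h4 := log4_le
  have e : Ex S.pY (fun y => up M (vB S y)) ≤
      Ex S.pY (fun y => ld (S.T (cS y)) (S.T (c0 y)) + (Real.log 2 + Real.log 4)) := by
    refine Ex_mono S.hpY fun y => ?_
    have h5 := up_mv (((S.T (cR y) : ℕ) : ℤ) - ((S.T (c0 y) : ℕ) : ℤ)) (S.T (cS y)) (S.T (c0 y))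
      (S.T (cT y))
    have h6 := up_sub (S.T (cR y)) (S.T (c0 y))
    unfold vB
    linarith
  rw [Ex_add, Ex_const S.hpY] at e
  linarith [S.ldS0]

theorem Sys.dnB : Ex S.pY (fun y => dn M (vB S y)) ≤ 18 * (S.κ + 1) := by
  have h := S.κ_nonneg
  have h2 := log2_le
  have h8 := log8_le
  have e : Ex S.pY (fun y => dn M (vB S y)) ≤
      Ex S.pY (fun y => ld (S.T (cR y)) (S.T (c0 y)) + (ld (S.T (cS y)) (S.T (c0 y)) +
        (ld (S.T (cS y)) (S.T (cT y)) + (Real.log 2 + Real.log 8)))) := by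
    refine Ex_mono S.hpY fun y => ?_
    have h5 := dn_mv (((S.T (cR y) : ℕ) : ℤ) - ((S.T (c0 y) : ℕ) : ℤ)) (S.T (cS y)) (S.T (c0 y))
      (S.T (cT y))
    have h6 := dn_sub (S.T (cR y)) (S.T (c0 y))
    unfold vB
    linarith
  rw [Ex_add, Ex_add, Ex_add, Ex_const S.hpY] at e
  linarith [S.ldS0, S.ldS1, S.ldR0]

theorem Sys.upc : Ex S.pY (fun y => up M (vc S y)) ≤ 15 * (S.κ + 1) := by
  have h := S.κ_nonneg
  have h4 := log4_le
  have e : Ex S.pY (fun y => up M (vc S y)) ≤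
      Ex S.pY (fun y => up M (vB S y) + (ld (S.T (cb' y)) (S.T (cT y)) + Real.log 4)) := by
    refine Ex_mono S.hpY fun y => ?_
    have h5 := up_mv (vB S y) (S.T (cb' y)) (S.T (cT y)) (S.T (cb y))
    unfold vc
    linarith
  rw [Ex_add, Ex_add, Ex_const S.hpY] at e
  linarith [S.upB, S.ldb1]

theorem Sys.dnc : Ex S.pY (fun y => dn M (vc S y)) ≤ 31 * (S.κ + 1) := by
  have h := S.κ_nonneg
  have h8 := log8_le
  have e : Ex S.pY (fun y => dn M (vc S y)) ≤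
      Ex S.pY (fun y => dn M (vB S y) + (ld (S.T (cb' y)) (S.T (cT y)) +
        (ld (S.T (cb' y)) (S.T (cb y)) + Real.log 8))) := by
    refine Ex_mono S.hpY fun y => ?_
    have h5 := dn_mv (vB S y) (S.T (cb' y)) (S.T (cT y)) (S.T (cb y))
    unfold vc
    linarith
  rw [Ex_add, Ex_add, Ex_add, Ex_const S.hpY] at e
  linarith [S.dnB, S.ldb1, S.ldbb]

/-- common bound for the costs -/
noncomputable def kk (m : ℕ) (κ : ℝ) : ℝ := 34 * (m + 1) * (κ + 1)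

theorem le_kk {m : ℕ} {κ x : ℝ} (h : 0 ≤ κ) (hx : x ≤ 34 * (κ + 1)) : x ≤ kk m κ := by
  unfold kk
  have : (0 : ℝ) ≤ (m : ℝ) := Nat.cast_nonneg _
  nlinarith [mul_nonneg this (by linarith : (0 : ℝ) ≤ κ + 1)]

theorem mul_le_kk {m : ℕ} {κ x : ℝ} (h : 0 ≤ κ) (hx : x ≤ 34 * (κ + 1)) : m * x ≤ kk m κ := by
  unfold kk
  have : (0 : ℝ) ≤ (m : ℝ) := Nat.cast_nonneg _
  nlinarith [mul_le_mul_of_nonneg_left hx this]

theorem M_pos (G : Geo m M) : 1 ≤ M := by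
  by_contra h
  have h0 : M = 0 := by omega
  subst h0
  have h1 := G.hM
  norm_num at h1

theorem Sys.cost_c1 : HH S.pY S.V {.B, .S, .T0, .T1, .R} - HH S.pY S.V {.B, .S, .T0, .T1}
    ≤ kk m S.κ := by
  have hκ := S.κ_nonneg
  refine cost_le S.V _ _ V1.R (by decide +kernel) _ fun r hr => ?_
  simp only [Finset.mem_insert, Finset.mem_singleton, forall_eq_or_imp, forall_eq, V_B, V_S,
    V_T0, V_T1] at hr
  have h0 : CE S.pY (S.V V1.R) r ≤ CE S.pY
      (Setoid.ker (fun y => ((S.T (cR y) : ℕ) : ℤ) - ((S.T (c0 y) : ℕ) : ℤ))) r := by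
    refine CE_mono S.hpY fun y y' _ _ g1 g2 => ?_
    rw [Setoid.ker_def] at g1
    rw [V_R]
    have g3 : ((S.T (cR y) : ℕ) : ℤ) = ((S.T (cR y') : ℕ) : ℤ) := by
      rw [(hr y y' g2).2.2.1] at g1
      linarith
    exact Fin.ext (by exact_mod_cast g3)
  have h1 := CE_unmv S.hpY r
    (fun y => ((S.T (cR y) : ℕ) : ℤ) - ((S.T (c0 y) : ℕ) : ℤ)) (fun y => S.T (cS y))
    (fun y => S.T (c0 y)) (fun y => S.T (cT y))
    (fun y y' _ _ g => ⟨(hr y y' g).2.1, (hr y y' g).2.2.1, (hr y y' g).2.2.2, (hr y y' g).1⟩)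
  have e : Ex S.pY (fun y => 2 * up M (((S.T (cR y) : ℕ) : ℤ) - ((S.T (c0 y) : ℕ) : ℤ)) +
      ld (S.T (cS y)) (S.T (c0 y)) + ld (S.T (cS y)) (S.T (cT y))) ≤
      Ex S.pY (fun y => ld (S.T (cS y)) (S.T (c0 y)) + (ld (S.T (cS y)) (S.T (cT y))
        + 2 * Real.log 2)) := by
    refine Ex_mono S.hpY fun y => ?_
    have h6 := up_sub (S.T (cR y)) (S.T (c0 y))
    linarith
  have e2 : Ex S.pY (fun y => ld (S.T (cS y)) (S.T (c0 y)) + (ld (S.T (cS y)) (S.T (cT y))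
        + 2 * Real.log 2)) = Ex S.pY (fun y => ld (S.T (cS y)) (S.T (c0 y)))
        + (Ex S.pY (fun y => ld (S.T (cS y)) (S.T (cT y))) + 2 * Real.log 2) := by
    rw [Ex_add, Ex_add, Ex_const S.hpY]
  have h2 : CE S.pY (S.V V1.R) r ≤ 34 * (S.κ + 1) := by
    linarith [S.ldS0, S.ldS1, log2_le, log5_le]
  exact le_kk hκ h2

theorem Sys.cost_cB : HH S.pY S.V {.K, .B} - HH S.pY S.V {.K} ≤ Real.log M + kk m S.κ := by
  have hκ := S.κ_nonneg
  refine cost_le S.V _ _ V1.B (by decide +kernel) _ fun r _ => ?_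
  have h1 := CE_param S.hpY r (vB S) (M_pos G)
  have h2 : 2 * Ex S.pY (fun ω => up M (vB S ω)) + Real.log 3 ≤ kk m S.κ := by
    apply le_kk hκ
    linarith [S.upB, log3_le]
  have h3 : CE S.pY (S.V V1.B) r = CE S.pY (Setoid.ker (vB S)) r := rfl
  rw [h3]
  linarith

theorem Sys.cost_c3 : HH S.pY S.V {.l0, .T1, .w, .B, .l1} - HH S.pY S.V {.l0, .T1, .w, .B}
    ≤ kk m S.κ := by
  have hκ := S.κ_nonneg
  refine cost_le S.V _ _ V1.l1 (by decide +kernel) _ fun r hr => ?_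
  simp only [Finset.mem_insert, Finset.mem_singleton, forall_eq_or_imp, forall_eq, V_l0, V_T1,
    V_w, V_B] at hr
  have h2 := CE_clos S.hpY G.hδ G.hδ1 G.hM G.hv G.hinj r
      (fun y => S.l (c0 y)) (fun y => S.l (c1 y)) (vB S) (fun y => S.T (cT y))
      (fun y y' _ _ g => ⟨(hr y y' g).2.2.2, by
        simp only [(hr y y' g).1, (hr y y' g).2.1], (hr y y' g).2.2.1⟩)
  refine h2.trans (mul_le_kk hκ ?_)
  linarith [S.dnB, log7_le]

theorem Sys.cost_c4 : HH S.pY S.V {.PS, .PR, .T0, .T1, .S, .R, .B, .w}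
      - HH S.pY S.V {.PS, .PR, .T0, .T1, .S, .R, .B} ≤ kk m S.κ := by
  have hκ := S.κ_nonneg
  refine cost_le S.V _ _ V1.w (by decide +kernel) _ fun r hr => ?_
  simp only [Finset.mem_insert, Finset.mem_singleton, forall_eq_or_imp, forall_eq, V_PS, V_PR,
    V_T0, V_T1, V_S, V_R, V_B] at hr
  have h2 := CE_move S.hpY G.hδ G.hδ1 G.hM G.hx G.hv r
    (fun y => S.l (c0 y)) (fun y => S.l (c1 y)) (fun y => S.l (c1 y))
    (fun y => ((S.T (cR y) : ℕ) : ℤ) - ((S.T (c0 y) : ℕ) : ℤ)) (fun y => S.T (cS y))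
    (fun y => S.T (c0 y)) (fun y => S.T (cT y)) (fun y hy => (S.lk hy hy).p0.symm)
    (fun y y' _ _ g => by
      obtain ⟨g1, g2, g3, g4, g5, g6, g7⟩ := hr y y' g
      refine ⟨g5, g3, g4, by rw [g6, g3], g1, ?_⟩
      have e : ∀ y : Y S.Ω, frm G.x G.v (S.l (c1 y)) (S.T (c0 y))
          (((S.T (cR y) : ℕ) : ℤ) - ((S.T (c0 y) : ℕ) : ℤ)) (G.v (S.l (c1 y)))
          = pnt G.x G.v (S.l (c1 y)) (S.T (cR y)) := by
        intro y
        funext i
        unfold frm pnt ht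
        push_cast
        ring
      rw [e, e]
      exact g2)
  refine h2.trans (mul_le_kk hκ ?_)
  linarith [S.ldS0, log11_le]

theorem Sys.cost_cc : HH S.pY S.V {.K, .c} - HH S.pY S.V {.K} ≤ Real.log M + kk m S.κ := by
  have hκ := S.κ_nonneg
  refine cost_le S.V _ _ V1.c (by decide +kernel) _ fun r _ => ?_
  have h1 := CE_param S.hpY r (vc S) (M_pos G)
  have h2 : 2 * Ex S.pY (fun ω => up M (vc S ω)) + Real.log 3 ≤ kk m S.κ := by
    apply le_kk hκ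
    linarith [S.upc, log3_le]
  have h3 : CE S.pY (S.V V1.c) r = CE S.pY (Setoid.ker (vc S)) r := rfl
  rw [h3]
  linarith

theorem Sys.cost_cU : HH S.pY S.V {.b', .b, .T1, .c, .B} - HH S.pY S.V {.b', .b, .T1, .c}
    ≤ kk m S.κ := by
  have hκ := S.κ_nonneg
  refine cost_le S.V _ _ V1.B (by decide +kernel) _ fun r hr => ?_
  simp only [Finset.mem_insert, Finset.mem_singleton, forall_eq_or_imp, forall_eq, V_b', V_b,
    V_T1, V_c] at hr
  have h2 := CE_unmv S.hpY r (vB S)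
      (fun y => S.T (cb' y)) (fun y => S.T (cT y)) (fun y => S.T (cb y))
      (fun y y' _ _ g => ⟨(hr y y' g).1, (hr y y' g).2.2.1, (hr y y' g).2.1, (hr y y' g).2.2.2⟩)
  rw [Ex_add, Ex_add, Ex_smul] at h2
  refine h2.trans (le_kk hκ ?_)
  linarith [S.upB, S.ldb1, S.ldbb, log5_le]

theorem Sys.cost_c7 : HH S.pY S.V {.z, .Pb, .b, .c, .l1} - HH S.pY S.V {.z, .Pb, .b, .c}
    ≤ kk m S.κ := by
  have hκ := S.κ_nonneg
  refine cost_le S.V _ _ V1.l1 (by decide +kernel) _ fun r hr => ?_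
  simp only [Finset.mem_insert, Finset.mem_singleton, forall_eq_or_imp, forall_eq, V_z, V_Pb,
    V_b, V_c] at hr
  have h2 := CE_clos S.hpY G.hδ G.hδ1 G.hM G.hv G.hinj r
      (fun y => S.l (c2 y)) (fun y => S.l (c1 y)) (vc S) (fun y => S.T (cb y))
      (fun y y' _ _ g => ⟨(hr y y' g).2.2.2, (hr y y' g).2.1, (hr y y' g).1⟩)
  refine h2.trans (mul_le_kk hκ ?_)
  linarith [S.dnc, log7_le]

theorem Sys.cost_c8 : HH S.pY S.V {.l1, .l2, .T0, .T1, .l0} - HH S.pY S.V {.l1, .l2, .T0, .T1}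
    ≤ kk m S.κ := by
  have hκ := S.κ_nonneg
  refine cost_le S.V _ _ V1.l0 (by decide +kernel) _ fun r hr => ?_
  simp only [Finset.mem_insert, Finset.mem_singleton, forall_eq_or_imp, forall_eq, V_l1, V_l2,
    V_T0, V_T1] at hr
  have h4 := CE_join S.hpY G.hδ G.hδ1 G.hM G.hv G.hinj r
    (fun y => S.l (c0 y)) (fun y => S.l (c2 y)) (fun y => S.l (c1 y)) (fun y => S.T (cT y))
    (fun y => S.T (c0 y)) (fun y hy => (S.lk hy hy).p1.symm) (fun y hy => (S.lk hy hy).p0.symm)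
    (fun y y' _ _ g => ⟨(hr y y' g).2.1, (hr y y' g).1, (hr y y' g).2.2.2, (hr y y' g).2.2.1⟩)
  refine h4.trans (mul_le_kk hκ ?_)
  linarith [S.ld10, log7_le]

theorem Sys.cost_c10 : HH S.pY S.V {.Pb', .w, .b', .T1, .b, .B, .c, .z}
      - HH S.pY S.V {.Pb', .w, .b', .T1, .b, .B, .c} ≤ kk m S.κ := by
  have hκ := S.κ_nonneg
  refine cost_le S.V _ _ V1.z (by decide +kernel) _ fun r hr => ?_
  simp only [Finset.mem_insert, Finset.mem_singleton, forall_eq_or_imp, forall_eq, V_Pb', V_w,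
    V_b', V_T1, V_b, V_B, V_c] at hr
  have h3 := CE_move S.hpY G.hδ G.hδ1 G.hM G.hx G.hv r
    (fun y => S.l (c2 y)) (fun y => S.l (c0 y)) (fun y => S.l (c1 y))
    (vB S) (fun y => S.T (cb' y)) (fun y => S.T (cT y)) (fun y => S.T (cb y))
    (fun y hy => (S.lk hy hy).p1)
    (fun y y' _ _ g => by
      obtain ⟨g1, g2, g3, g4, g5, g6, g7⟩ := hr y y' g
      exact ⟨g3, g4, g5, g6, g1, g2⟩)
  refine h3.trans (mul_le_kk hκ ?_)
  linarith [S.ldb1, log11_le]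

theorem Sys.hyp : L1.Hyp S.pY S.V S.eK S.eL S.eB S.eT S.eP (Real.log M) S.Lam
    (kk m S.κ) (kk m S.κ) (kk m S.κ) (kk m S.κ) (kk m S.κ) (kk m S.κ) (kk m S.κ) (kk m S.κ)
    (kk m S.κ) where
  toBase := S.base
  c1 := S.cost_c1
  cB := S.cost_cB
  c3 := S.cost_c3
  c4 := S.cost_c4
  cc := S.cost_cc
  cU := S.cost_cU
  c7 := S.cost_c7
  c8 := S.cost_c8
  c10 := S.cost_c10

end

end Pool.Agent.Helper8.Kak
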