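import Pool.Agent.Helper8.Kak.Amb
import Pool.Agent.Helper8.Kak.Forms

/-!
# Determination of forms: moves (no bound on the position of the lines)
-/

set_option autoImplicit false

namespace Pool.Agent.Helper8.Kak

theorem floor_near {δ u : ℝ} (hδ : 0 < δ) : 0 ≤ u - δ * ⌊u / δ⌋ ∧ u - δ * ⌊u / δ⌋ ≤ δ := by
  have h1 := Int.floor_le (u / δ)
  have h2 := (Int.lt_floor_add_one (u / δ)).le
  have e : u = δ * (u / δ) := by field_simp
  constructor
  · have := mul_le_mul_of_nonneg_left h1 hδ.le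
    linarith
  · have := mul_le_mul_of_nonneg_left h2 hδ.le
    linarith

theorem abs_floor_near {δ u : ℝ} (hδ : 0 < δ) : |u - δ * ⌊u / δ⌋| ≤ δ := by
  obtain ⟨h1, h2⟩ := floor_near (u := u) hδ
  rw [abs_le]
  constructor <;> linarith

theorem floor_eq_near {δ u u' : ℝ} (hδ : 0 < δ) (h : ⌊u / δ⌋ = ⌊u' / δ⌋) : |u - u'| ≤ δ := by
  obtain ⟨h1, h2⟩ := floor_near (u := u) hδ
  obtain ⟨h3, h4⟩ := floor_near (u := u') hδ
  rw [h] at h1 h2
  rw [abs_le]
  constructor <;> linarith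

variable {M : ℕ}

theorem ht_diff (s t : Fin M) : |ht s - ht t| ≤ 1 := by
  have h1 := ht_nonneg s
  have h2 := ht_nonneg t
  have h3 := (ht_lt_one s).le
  have h4 := (ht_lt_one t).le
  rw [abs_le]
  constructor <;> linarith

/-- rounding error of the parameter -/
theorem round_near {δ : ℝ} (hM : 1 ≤ δ * M) (q : ℝ) : |(⌊q⌋ : ℝ) / M - q / M| ≤ δ := by
  have hM0 : (0 : ℝ) < M := by
    rcases Nat.eq_zero_or_pos M with h | h
    · rw [h] at hM; norm_num at hM
    · exact_mod_cast h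
  rw [← sub_div, abs_div, abs_of_pos hM0, div_le_iff₀ hM0]
  refine le_trans ?_ hM
  rw [abs_le]
  constructor
  · linarith [Int.lt_floor_add_one q]
  · linarith [Int.floor_le q]

open scoped Classical in
theorem move_real {δ : ℝ} (hδ : 0 < δ) (hδ1 : δ ≤ 1) (hM : 1 ≤ δ * M) (s t t' : Fin M)
    (c : ℤ) {X V X2 V2 W : ℝ} (hV : |V| ≤ 1) (hW : |W| ≤ 1)
    (hl : ⌊(X + ht t * V) / δ⌋ = ⌊(X2 + ht t * V2) / δ⌋) :
    |(X + ht t' * V + ((mv c s t t' : ℤ) : ℝ) / M * W)
      - (if s = t then δ * (⌊(X + ht s * V) / δ⌋ : ℝ) else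
        ((ht s - ht t') / (ht s - ht t) * (δ * ⌊(X2 + ht t * V2 + (c : ℝ) / M * W) / δ⌋)
        + (ht t' - ht t) / (ht s - ht t) * (δ * ⌊(X + ht s * V) / δ⌋)))| ≤ 4 / dst s t * δ := by
  have hM0 : (0 : ℝ) < M := by
    rcases Nat.eq_zero_or_pos M with h | h
    · rw [h] at hM; norm_num at hM
    · exact_mod_cast h
  by_cases hst : s = t
  · subst hst
    rw [if_pos rfl, dst_self]
    have e : mv c s s t' = 0 := by
      unfold mv
      rw [sub_self, div_zero, mul_zero, Int.floor_zero]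
    rw [e, Int.cast_zero, zero_div, zero_mul, add_zero]
    have h0 : |(X + ht s * V) - δ * (⌊(X + ht s * V) / δ⌋ : ℝ)| ≤ δ := abs_floor_near hδ
    have h1 : |(ht t' - ht s) * V| ≤ 1 := by
      rw [abs_mul]
      exact mul_le_one₀ (ht_diff t' s) (abs_nonneg _) hV
    have h2 : X + ht t' * V - δ * (⌊(X + ht s * V) / δ⌋ : ℝ)
      = (ht t' - ht s) * V + ((X + ht s * V) - δ * (⌊(X + ht s * V) / δ⌋ : ℝ)) := by ring
    rw [h2]
    refine (abs_add_le _ _).trans ?_
    rw [div_div_eq_mul_div, div_one]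
    nlinarith
  · rw [if_neg hst]
    have hne : ht s - ht t ≠ 0 := sub_ne_zero.2 (ht_ne_of_ne hst)
    have hd : dst s t = |ht s - ht t| := dst_eq_of_ne hst
    have hd0 : 0 < |ht s - ht t| := abs_pos.2 hne
    set D := ht s - ht t with hD
    set b := ⌊(X2 + ht t * V2 + (c : ℝ) / M * W) / δ⌋ with hb
    set a := ⌊(X + ht s * V) / δ⌋ with ha
    -- errors
    have e1 : |(X + ht t * V + (c : ℝ) / M * W) - δ * b| ≤ 2 * δ := by
      have h1 := floor_eq_near hδ hl
      have h2 := abs_floor_near (u := X2 + ht t * V2 + (c : ℝ) / M * W) hδ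
      rw [← hb] at h2
      have h3 : (X + ht t * V + (c : ℝ) / M * W) - δ * b =
        (X + ht t * V - (X2 + ht t * V2)) + (X2 + ht t * V2 + (c : ℝ) / M * W - δ * b) := by ring
      rw [h3]
      exact (abs_add_le _ _).trans (by linarith)
    have e2 : |(X + ht s * V) - δ * a| ≤ δ := abs_floor_near hδ
    have e3 : |(((mv c s t t' : ℤ) : ℝ) / M - (c : ℝ) * ((ht s - ht t') / D) / M) * W| ≤ δ := by
      rw [abs_mul]
      have h1 := round_near hM ((c : ℝ) * ((ht s - ht t') / D))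
      have h2 : ((mv c s t t' : ℤ) : ℝ) = (⌊(c : ℝ) * ((ht s - ht t') / D)⌋ : ℝ) := rfl
      rw [h2]
      calc _ ≤ δ * 1 := mul_le_mul h1 hW (abs_nonneg _) hδ.le
        _ = δ := mul_one _
    have key : (X + ht t' * V + ((mv c s t t' : ℤ) : ℝ) / M * W)
      - ((ht s - ht t') / D * (δ * b) + (ht t' - ht t) / D * (δ * a))
      = (ht s - ht t') / D * ((X + ht t * V + (c : ℝ) / M * W) - δ * b)
        + (ht t' - ht t) / D * ((X + ht s * V) - δ * a)
        + (((mv c s t t' : ℤ) : ℝ) / M - (c : ℝ) * ((ht s - ht t') / D) / M) * W := by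
      have h4 : (ht s - ht t') / D * (X + ht t * V) + (ht t' - ht t) / D * (X + ht s * V)
          = X + ht t' * V := by
        rw [div_mul_eq_mul_div, div_mul_eq_mul_div, ← add_div, div_eq_iff hne, hD]
        ring
      linear_combination (-1 : ℝ) * h4
    rw [key]
    have f1 : |(ht s - ht t') / D * ((X + ht t * V + (c : ℝ) / M * W) - δ * b)| ≤ 2 * δ / |D| := by
      rw [abs_mul, abs_div, div_mul_eq_mul_div]
      apply div_le_div_of_nonneg_right _ hd0.le
      calc _ ≤ 1 * (2 * δ) := mul_le_mul (ht_diff s t') e1 (abs_nonneg _) zero_le_one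
        _ = 2 * δ := one_mul _
    have f2 : |(ht t' - ht t) / D * ((X + ht s * V) - δ * a)| ≤ δ / |D| := by
      rw [abs_mul, abs_div, div_mul_eq_mul_div]
      apply div_le_div_of_nonneg_right _ hd0.le
      calc _ ≤ 1 * δ := mul_le_mul (ht_diff t' t) e2 (abs_nonneg _) zero_le_one
        _ = δ := one_mul _
    have f3 : δ ≤ δ / |D| := by
      rw [le_div_iff₀ hd0]
      have := ht_diff s t
      nlinarith
    rw [hd]
    calc _ ≤ 2 * δ / |D| + δ / |D| + δ := by
          refine (abs_add_le _ _).trans (add_le_add ((abs_add_le _ _).trans (add_le_add f1 f2)) e3)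
      _ ≤ 2 * δ / |D| + δ / |D| + δ / |D| := by linarith
      _ = 4 / |D| * δ := by ring

section ent

variable {Ω : Type} [Fintype Ω] {p : Ω → ℝ} {m : ℕ} {L : Type} {x v : L → Fin m → ℝ} {δ : ℝ}

theorem log_move {M : ℕ} (s t : Fin M) : Real.log (2 * (4 / dst s t) + 3) ≤ ld s t + Real.log 11 := by
  have h0 := dst_pos s t
  have h1 := dst_le_one s t
  unfold ld
  rw [← Real.log_mul (by positivity) (by norm_num)]
  apply Real.log_le_log (by positivity)
  rw [mul_div_assoc', div_add' _ _ _ h0.ne', one_div, inv_mul_eq_div]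
  exact div_le_div_of_nonneg_right (by linarith) h0.le

open scoped Classical in
theorem CE_move' (hp : IsProb p) (hδ : 0 < δ) (hδ1 : δ ≤ 1) (hM : 1 ≤ δ * M)
    (hv : ∀ l i, |v l i| ≤ 1)
    (r : Setoid Ω) (l l2 l' : Ω → L) (c : Ω → ℤ) (s t t' : Ω → Fin M)
    (hlink : ∀ ω, 0 < p ω → cell δ (pnt x v (l ω) (t ω)) = cell δ (pnt x v (l2 ω) (t ω)))
    (hm : ∀ ω ω', 0 < p ω → 0 < p ω' → r ω ω' → s ω = s ω' ∧ t ω = t ω' ∧ t' ω = t' ω' ∧
      c ω = c ω' ∧ cell δ (pnt x v (l ω) (s ω)) = cell δ (pnt x v (l ω') (s ω')) ∧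
      cell δ (frm x v (l2 ω) (t ω) (c ω) (v (l' ω)))
        = cell δ (frm x v (l2 ω') (t ω') (c ω') (v (l' ω')))) :
    CE p (Setoid.ker (fun ω => cell δ (frm x v (l ω) (t' ω)
      (mv (c ω) (s ω) (t ω) (t' ω)) (v (l' ω))))) r
      ≤ m * (Ex p (fun ω => ld (s ω) (t ω)) + Real.log 11) := by
  have h := amb_cell hδ hp r
    (fun ω => frm x v (l ω) (t' ω) (mv (c ω) (s ω) (t ω) (t' ω)) (v (l' ω)))
    (fun ω i => if s ω = t ω then δ * ((cell δ (pnt x v (l ω) (s ω)) i : ℤ) : ℝ) else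
      ((ht (s ω) - ht (t' ω)) / (ht (s ω) - ht (t ω))
        * (δ * cell δ (frm x v (l2 ω) (t ω) (c ω) (v (l' ω))) i)
      + (ht (t' ω) - ht (t ω)) / (ht (s ω) - ht (t ω))
        * (δ * cell δ (pnt x v (l ω) (s ω)) i)))
    (fun ω => 4 / dst (s ω) (t ω)) (fun ω => by have := dst_pos (s ω) (t ω); positivity) ?_ ?_
  · refine h.trans ?_
    apply mul_le_mul_of_nonneg_left _ (Nat.cast_nonneg _)
    have e : ∑ ω, p ω * Real.log (2 * (4 / dst (s ω) (t ω)) + 3)
        ≤ ∑ ω, (p ω * ld (s ω) (t ω) + p ω * Real.log 11) := by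
      refine Finset.sum_le_sum fun ω _ => ?_
      rw [← mul_add]
      exact mul_le_mul_of_nonneg_left (log_move _ _) (hp.1 ω)
    rw [Finset.sum_add_distrib, ← Finset.sum_mul, hp.2, one_mul] at e
    exact e
  · intro ω ω' h1 h2 h3
    obtain ⟨g1, g2, g3, g4, g5, g6⟩ := hm ω ω' h1 h2 h3
    constructor
    · funext i
      rw [g5, g6, g1, g2, g3]
    · simp only [g1, g2]
  · intro ω h0 i
    have hl := congrFun (hlink ω h0) i
    exact move_real hδ hδ1 hM (s ω) (t ω) (t' ω) (c ω) (hv _ i) (hv _ i) hl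

end ent

end Pool.Agent.Helper8.Kak
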