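import Pool.Agent.Helper8.Kak.Glue

set_option autoImplicit false

namespace Pool.Agent.Helper8.Kak

open Finset

theorem Ent_congr' {Ω : Type} [Fintype Ω] {p : Ω → ℝ} (hp : IsProb p) {r s : Setoid Ω}
    (h : ∀ ω ω', 0 < p ω → 0 < p ω' → (r ω ω' ↔ s ω ω')) : Ent p r = Ent p s :=
  le_antisymm (Ent_mono' hp fun ω ω' h1 h2 h3 => (h ω ω' h1 h2).2 h3)
    (Ent_mono' hp fun ω ω' h1 h2 h3 => (h ω ω' h1 h2).1 h3)

theorem MP_id {A : Type} [Fintype A] (p : A → ℝ) : MP p p id := by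
  classical
  intro b
  unfold law
  rw [Finset.sum_eq_single b]
  · exact if_pos rfl
  · intro b' _ h
    exact if_neg h
  · intro h
    exact absurd (mem_univ b) h

section

variable {Ω L G D : Type} [Fintype Ω]

/-- link over `(K, line)` -/
def fL (K : Setoid Ω) (l : Ω → L) : Ω → Quotient K × L := fun ω => (Quotient.mk K ω, l ω)

/-- link over `(K, height, point)` -/
def fP (K : Setoid Ω) (l : Ω → L) (T : Ω → G) (P : L → G → D) : Ω → Quotient K × G × D :=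
  fun ω => (Quotient.mk K ω, T ω, P (l ω) (T ω))

omit [Fintype Ω] in
theorem fL_eq {K : Setoid Ω} {l : Ω → L} {ω ω' : Ω} :
    fL K l ω = fL K l ω' ↔ K ω ω' ∧ l ω = l ω' := by
  unfold fL
  rw [Prod.mk.injEq]
  exact and_congr_left fun _ => Quotient.eq

omit [Fintype Ω] in
theorem fP_eq {K : Setoid Ω} {l : Ω → L} {T : Ω → G} {P : L → G → D} {ω ω' : Ω} :
    fP K l T P ω = fP K l T P ω' ↔ K ω ω' ∧ T ω = T ω' ∧ P (l ω) (T ω) = P (l ω') (T ω') := by
  unfold fP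
  rw [Prod.mk.injEq, Prod.mk.injEq]
  exact and_congr_left fun _ => Quotient.eq

variable (p : Ω → ℝ) (K : Setoid Ω) (l : Ω → L) (T : Ω → G) (P : L → G → D)

/-- one line, two heights -/
noncomputable def pA1 : Ω × Ω → ℝ := glue p p (fL K l) (fL K l)

/-- two lines with a common point, one more height on each -/
noncomputable def pY1 : (Ω × Ω) × (Ω × Ω) → ℝ :=
  glue (pA1 p K l) (pA1 p K l) (fP K l T P ∘ Prod.fst) (fP K l T P ∘ Prod.fst)

/-- a third height on the first line -/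
noncomputable def pY2 : Ω × ((Ω × Ω) × (Ω × Ω)) → ℝ :=
  glue p (pY1 p K l T P) (fL K l) (fL K l ∘ (Prod.fst ∘ Prod.fst))

/-- a third line through the point of the first line at the third height, with a further height -/
noncomputable def pY3 : (Ω × ((Ω × Ω) × (Ω × Ω))) × (Ω × Ω) → ℝ :=
  glue (pY2 p K l T P) (pA1 p K l) (fP K l T P ∘ Prod.fst) (fP K l T P ∘ Prod.fst)

/-- a further height on the third line -/
noncomputable def pY4 : ((Ω × ((Ω × Ω) × (Ω × Ω))) × (Ω × Ω)) × Ω → ℝ :=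
  glue (pY3 p K l T P) p (fL K l ∘ (Prod.fst ∘ Prod.snd)) (fL K l)

variable {p}

theorem A1_prob (hp : IsProb p) : IsProb (pA1 p K l) := glue_isProb hp hp fun _ => rfl

theorem A1_fst (hp : IsProb p) : MP (pA1 p K l) p Prod.fst := glue_fst hp.1 fun _ => rfl

theorem A1_snd (hp : IsProb p) : MP (pA1 p K l) p Prod.snd := glue_snd hp.1 fun _ => rfl

theorem Y1_prob (hp : IsProb p) : IsProb (pY1 p K l T P) :=
  glue_isProb (A1_prob K l hp) (A1_prob K l hp) fun _ => rfl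

theorem Y1_fst (hp : IsProb p) : MP (pY1 p K l T P) (pA1 p K l) Prod.fst :=
  glue_fst (A1_prob K l hp).1 fun _ => rfl

theorem Y1_snd (hp : IsProb p) : MP (pY1 p K l T P) (pA1 p K l) Prod.snd :=
  glue_snd (A1_prob K l hp).1 fun _ => rfl

theorem Y2_law (hp : IsProb p) (c : Quotient K × L) :
    law p (fL K l) c = law (pY1 p K l T P) (fL K l ∘ (Prod.fst ∘ Prod.fst)) c :=
  (((Y1_fst K l T P hp).comp (A1_fst K l hp)).law_eq (fL K l) c).symm

theorem Y2_prob (hp : IsProb p) : IsProb (pY2 p K l T P) :=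
  glue_isProb hp (Y1_prob K l T P hp) (Y2_law K l T P hp)

theorem Y2_fst (hp : IsProb p) : MP (pY2 p K l T P) p Prod.fst :=
  glue_fst hp.1 (Y2_law K l T P hp)

theorem Y2_snd (hp : IsProb p) : MP (pY2 p K l T P) (pY1 p K l T P) Prod.snd :=
  glue_snd (Y1_prob K l T P hp).1 (Y2_law K l T P hp)

theorem Y3_law (hp : IsProb p) (c : Quotient K × G × D) :
    law (pY2 p K l T P) (fP K l T P ∘ Prod.fst) c = law (pA1 p K l) (fP K l T P ∘ Prod.fst) c := by
  rw [(Y2_fst K l T P hp).law_eq, (A1_fst K l hp).law_eq]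

theorem Y3_prob (hp : IsProb p) : IsProb (pY3 p K l T P) :=
  glue_isProb (Y2_prob K l T P hp) (A1_prob K l hp) (Y3_law K l T P hp)

theorem Y3_fst (hp : IsProb p) : MP (pY3 p K l T P) (pY2 p K l T P) Prod.fst :=
  glue_fst (Y2_prob K l T P hp).1 (Y3_law K l T P hp)

theorem Y3_snd (hp : IsProb p) : MP (pY3 p K l T P) (pA1 p K l) Prod.snd :=
  glue_snd (A1_prob K l hp).1 (Y3_law K l T P hp)

theorem Y4_law (hp : IsProb p) (c : Quotient K × L) :
    law (pY3 p K l T P) (fL K l ∘ (Prod.fst ∘ Prod.snd)) c = law p (fL K l) c :=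
  ((Y3_snd K l T P hp).comp (A1_fst K l hp)).law_eq (fL K l) c

theorem Y4_prob (hp : IsProb p) : IsProb (pY4 p K l T P) :=
  glue_isProb (Y3_prob K l T P hp) hp (Y4_law K l T P hp)

theorem Y4_fst (hp : IsProb p) : MP (pY4 p K l T P) (pY3 p K l T P) Prod.fst :=
  glue_fst (Y3_prob K l T P hp).1 (Y4_law K l T P hp)

theorem Y4_snd (hp : IsProb p) : MP (pY4 p K l T P) p Prod.snd :=
  glue_snd hp.1 (Y4_law K l T P hp)

end

/-- the sample space -/
abbrev Y (Ω : Type) : Type := ((Ω × ((Ω × Ω) × (Ω × Ω))) × (Ω × Ω)) × Ω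

section

variable {Ω L G D : Type} [Fintype Ω]

/-- the eight coordinates -/
def c0 (y : Y Ω) : Ω := y.1.1.2.1.1
/-- height `S` -/
def cS (y : Y Ω) : Ω := y.1.1.2.1.2
/-- line 1 -/
def c1 (y : Y Ω) : Ω := y.1.1.2.2.1
/-- height `R` -/
def cR (y : Y Ω) : Ω := y.1.1.2.2.2
/-- height `T1` -/
def cT (y : Y Ω) : Ω := y.1.1.1
/-- line 2 -/
def c2 (y : Y Ω) : Ω := y.1.2.1
/-- height `b` -/
def cb (y : Y Ω) : Ω := y.1.2.2
/-- height `b'` -/
def cb' (y : Y Ω) : Ω := y.2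

variable {p : Ω → ℝ} (K : Setoid Ω) (l : Ω → L) (T : Ω → G) (P : L → G → D)

theorem MP_Y1 (hp : IsProb p) : MP (pY4 p K l T P) (pY1 p K l T P) (fun y => y.1.1.2) :=
  ((Y4_fst K l T P hp).comp ((Y3_fst K l T P hp))).comp (Y2_snd K l T P hp)

theorem MP_c0 (hp : IsProb p) : MP (pY4 p K l T P) p c0 :=
  (MP_Y1 K l T P hp).comp ((Y1_fst K l T P hp).comp (A1_fst K l hp))

theorem MP_cS (hp : IsProb p) : MP (pY4 p K l T P) p cS :=
  (MP_Y1 K l T P hp).comp ((Y1_fst K l T P hp).comp (A1_snd K l hp))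

theorem MP_c1 (hp : IsProb p) : MP (pY4 p K l T P) p c1 :=
  (MP_Y1 K l T P hp).comp ((Y1_snd K l T P hp).comp (A1_fst K l hp))

theorem MP_cR (hp : IsProb p) : MP (pY4 p K l T P) p cR :=
  (MP_Y1 K l T P hp).comp ((Y1_snd K l T P hp).comp (A1_snd K l hp))

theorem MP_cT (hp : IsProb p) : MP (pY4 p K l T P) p cT :=
  ((Y4_fst K l T P hp).comp ((Y3_fst K l T P hp))).comp (Y2_fst K l T P hp)

theorem MP_c2 (hp : IsProb p) : MP (pY4 p K l T P) p c2 :=
  ((Y4_fst K l T P hp).comp ((Y3_snd K l T P hp))).comp (A1_fst K l hp)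

theorem MP_cb (hp : IsProb p) : MP (pY4 p K l T P) p cb :=
  ((Y4_fst K l T P hp).comp ((Y3_snd K l T P hp))).comp (A1_snd K l hp)

theorem MP_cb' (hp : IsProb p) : MP (pY4 p K l T P) p cb' := Y4_snd K l T P hp

/-- the relations that hold on the support -/
theorem links (hp : IsProb p) {y : Y Ω} (hy : 0 < pY4 p K l T P y) :
    (K (c0 y) (cS y) ∧ l (c0 y) = l (cS y)) ∧ (K (c1 y) (cR y) ∧ l (c1 y) = l (cR y)) ∧
    (K (c0 y) (c1 y) ∧ T (c0 y) = T (c1 y) ∧ P (l (c0 y)) (T (c0 y)) = P (l (c1 y)) (T (c1 y))) ∧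
    (K (cT y) (c0 y) ∧ l (cT y) = l (c0 y)) ∧
    (K (cT y) (c2 y) ∧ T (cT y) = T (c2 y) ∧ P (l (cT y)) (T (cT y)) = P (l (c2 y)) (T (c2 y))) ∧
    (K (c2 y) (cb y) ∧ l (c2 y) = l (cb y)) ∧ (K (c2 y) (cb' y) ∧ l (c2 y) = l (cb' y)) := by
  have h4 := (Y4_prob K l T P hp).1
  have h3 := (Y3_prob K l T P hp).1
  have h2 := (Y2_prob K l T P hp).1
  have h1 := (Y1_prob K l T P hp).1
  have hy3 : 0 < pY3 p K l T P y.1 := (Y4_fst K l T P hp).pos h4 hy
  have hy2 : 0 < pY2 p K l T P y.1.1 := (Y3_fst K l T P hp).pos h3 hy3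
  have hyA : 0 < pA1 p K l y.1.2 := (Y3_snd K l T P hp).pos h3 hy3
  have hy1 : 0 < pY1 p K l T P y.1.1.2 := (Y2_snd K l T P hp).pos h2 hy2
  have hyA1 : 0 < pA1 p K l y.1.1.2.1 := (Y1_fst K l T P hp).pos h1 hy1
  have hyA2 : 0 < pA1 p K l y.1.1.2.2 := (Y1_snd K l T P hp).pos h1 hy1
  refine ⟨fL_eq.1 (glue_link hyA1), fL_eq.1 (glue_link hyA2), fP_eq.1 (glue_link hy1),
    fL_eq.1 (glue_link hy2), fP_eq.1 (glue_link hy3), fL_eq.1 (glue_link hyA),
    fL_eq.1 (glue_link hy)⟩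

/-- the symmetric projection -/
theorem MP_sym (hp : IsProb p) : MP (pY4 p K l T P) (pY1 p K l T P)
    (fun y => ((cT y, c0 y), (c2 y, cb y))) := by
  have hfun : MP (pY2 p K l T P) (pA1 p K l) (Prod.map id (Prod.fst ∘ Prod.fst)) :=
    glue_map (f' := fL K l) (g' := fL K l) (MP_id p) ((Y1_fst K l T P hp).comp (A1_fst K l hp)) rfl rfl
  have hfun2 : MP (pY3 p K l T P) (pY1 p K l T P)
      (Prod.map (Prod.map id (Prod.fst ∘ Prod.fst)) id) :=
    glue_map (f' := fP K l T P ∘ Prod.fst) (g' := fP K l T P ∘ Prod.fst) hfun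
      (MP_id (pA1 p K l)) rfl rfl
  exact (Y4_fst K l T P hp).comp hfun2

end

end Pool.Agent.Helper8.Kak
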