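import Pool.Agent.Helper8.Kak.Move
import Pool.Agent.Helper8.Kak.Space

/-!
# Removing the bound on the positions of the lines
-/

set_option autoImplicit false

namespace Pool.Agent.Helper8.Kak

/-- sums-differences inequality with exponent `α`, with no bound on the positions of the lines -/
def SDu (m : ℕ) (α : ℝ) : Prop :=
  ∃ C : ℝ, 0 ≤ C ∧ ∀ (δ : ℝ) (M : ℕ), 0 < δ → δ ≤ 1 → 1 ≤ δ * M →
    ∀ (L : Type) (x v : L → Fin m → ℝ), (∀ l i, |v l i| ≤ 1) →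
      Function.Injective (fun l => cell δ (v l)) →
    ∀ (Ω : Type) [Fintype Ω] (p : Ω → ℝ), IsProb p →
    ∀ (K : Setoid Ω) (l : Ω → L) (T : Ω → Fin M),
      Ent p (K ⊓ Setoid.ker l) - Ent p K ≤
        α * (Ent p (K ⊓ Setoid.ker T ⊓ Setoid.ker (fun ω => cell δ (pnt x v (l ω) (T ω))))
              - Ent p (K ⊓ Setoid.ker T))
        + C * (Real.log M - (Ent p (K ⊓ Setoid.ker l ⊓ Setoid.ker T) - Ent p (K ⊓ Setoid.ker l))
              + 1)

theorem ht_mul_le {M : ℕ} (t : Fin M) {V : ℝ} (hV : |V| ≤ 1) : |ht t * V| ≤ 1 := by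
  have h1 : 0 ≤ ht t := by unfold ht; positivity
  have h2 : ht t ≤ 1 := by
    unfold ht
    have : (0 : ℝ) < M := by
      have := t.pos
      exact_mod_cast this
    rw [div_le_one this]
    exact_mod_cast t.2.le
  rw [abs_mul, abs_of_nonneg h1]
  nlinarith [abs_nonneg V]

/-- the bound on the positions can be removed -/
theorem SD_unbounded {m : ℕ} {α : ℝ} (hα : 1 ≤ α) (h : SD m α) : SDu m α := by
  obtain ⟨C, hC, H⟩ := h
  have l5 : 0 ≤ Real.log 5 := Real.log_nonneg (by norm_num)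
  have l7 : 0 ≤ Real.log 7 := Real.log_nonneg (by norm_num)
  refine ⟨C + α * (1 + m * (Real.log 5 + Real.log 7)), by positivity, ?_⟩
  intro δ M hδ hδ1 hM L x v hv hinj Ω _ p hp K l T
  set n : L → Fin m → ℤ := fun l i => ⌊x l i⌋ with hn
  set x' : L → Fin m → ℝ := fun l i => x l i - n l i with hx'
  have hx1 : ∀ l i, |x' l i| ≤ 1 := by
    intro l i
    have a1 := Int.floor_le (x l i)
    have a2 := Int.lt_floor_add_one (x l i)
    have e : x' l i = x l i - ⌊x l i⌋ := rfl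
    rw [e, abs_le]
    constructor <;> linarith
  set N : Setoid Ω := Setoid.ker (fun ω => n (l ω)) with hN
  set P : Setoid Ω := Setoid.ker (fun ω => cell δ (pnt x v (l ω) (T ω))) with hP
  set P' : Setoid Ω := Setoid.ker (fun ω => cell δ (pnt x' v (l ω) (T ω))) with hP'
  have i0 := H δ M hδ hδ1 hM L x' v hx1 hv hinj Ω p hp (K ⊓ N) l T
  rw [← hP'] at i0
  have e1 : Ent p (K ⊓ N ⊓ Setoid.ker l) = Ent p (K ⊓ Setoid.ker l) := by
    refine Ent_congr' hp fun ω ω' _ _ => ?_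
    exact ⟨fun h => ⟨h.1.1, h.2⟩, fun h => ⟨⟨h.1, congrArg n h.2⟩, h.2⟩⟩
  have e2 : Ent p (K ⊓ N ⊓ Setoid.ker l ⊓ Setoid.ker T) = Ent p (K ⊓ Setoid.ker l ⊓ Setoid.ker T) := by
    refine Ent_congr' hp fun ω ω' _ _ => ?_
    exact ⟨fun h => ⟨⟨h.1.1.1, h.1.2⟩, h.2⟩, fun h => ⟨⟨⟨h.1.1, congrArg n h.1.2⟩, h.1.2⟩, h.2⟩⟩
  rw [e1, e2] at i0
  -- given the integer part, the two cells determine each other
  have c1 := amb_cell hδ hp (K ⊓ N ⊓ Setoid.ker T ⊓ P) (fun ω => pnt x' v (l ω) (T ω))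
    (fun ω i => δ * ((cell δ (pnt x v (l ω) (T ω)) i : ℤ) : ℝ) - n (l ω) i) (fun _ => 1)
    (fun _ => zero_le_one) ?_ ?_
  rotate_left
  · intro ω ω' _ _ h
    refine ⟨?_, rfl⟩
    have g1 : n (l ω) = n (l ω') := h.1.1.2
    have g2 : cell δ (pnt x v (l ω) (T ω)) = cell δ (pnt x v (l ω') (T ω')) := h.2
    funext i
    rw [g1, g2]
  · intro ω _ i
    have g := abs_floor_near (u := pnt x v (l ω) (T ω) i) hδ
    have e : pnt x' v (l ω) (T ω) i - (δ * ((cell δ (pnt x v (l ω) (T ω)) i : ℤ) : ℝ) - n (l ω) i)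
        = pnt x v (l ω) (T ω) i - δ * (⌊pnt x v (l ω) (T ω) i / δ⌋ : ℝ) := by
      simp only [pnt, hx', cell]
      ring
    rw [e, one_mul]
    exact g
  -- the integer part is known from the point
  have c2 := amb_cell (δ := 1) one_pos hp (K ⊓ Setoid.ker T ⊓ P) (fun ω => x (l ω))
    (fun ω i => δ * ((cell δ (pnt x v (l ω) (T ω)) i : ℤ) : ℝ)) (fun _ => 2)
    (fun _ => zero_le_two) ?_ ?_
  rotate_left
  · intro ω ω' _ _ h
    refine ⟨?_, rfl⟩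
    have g2 : cell δ (pnt x v (l ω) (T ω)) = cell δ (pnt x v (l ω') (T ω')) := h.2
    funext i
    rw [g2]
  · intro ω _ i
    have g := abs_floor_near (u := pnt x v (l ω) (T ω) i) hδ
    have g2 := ht_mul_le (T ω) (hv (l ω) i)
    have e : x (l ω) i - δ * ((cell δ (pnt x v (l ω) (T ω)) i : ℤ) : ℝ)
        = (pnt x v (l ω) (T ω) i - δ * (⌊pnt x v (l ω) (T ω) i / δ⌋ : ℝ)) - ht (T ω) * v (l ω) i := by
      simp only [pnt, cell]
      ring
    rw [e, mul_one]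
    exact (abs_sub _ _).trans (by linarith)
  have e3 : Ent p (Setoid.ker (fun ω => cell δ (pnt x' v (l ω) (T ω))) ⊓ (K ⊓ N ⊓ Setoid.ker T ⊓ P))
      ≥ Ent p (K ⊓ N ⊓ Setoid.ker T ⊓ P') := by
    refine Ent_mono' hp fun ω ω' _ _ h => ?_
    exact ⟨h.2.1, h.1⟩
  have e4 : Ent p (Setoid.ker (fun ω => cell 1 (x (l ω))) ⊓ (K ⊓ Setoid.ker T ⊓ P))
      = Ent p (K ⊓ N ⊓ Setoid.ker T ⊓ P) := by
    refine Ent_congr' hp fun ω ω' _ _ => ?_
    have g0 : ∀ l, cell 1 (x l) = n l := by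
      intro l
      funext i
      simp only [hn]
      unfold cell
      rw [div_one]
    have g : cell 1 (x (l ω)) = cell 1 (x (l ω')) ↔ n (l ω) = n (l ω') := by
      rw [g0, g0]
    constructor
    · intro h
      exact ⟨⟨⟨h.2.1.1, g.1 h.1⟩, h.2.1.2⟩, h.2.2⟩
    · intro h
      exact ⟨g.2 h.1.1.2, ⟨h.1.1.1, h.1.2⟩, h.2⟩
  have s1 : ∑ ω, p ω * Real.log (2 * (1 : ℝ) + 3) = Real.log 5 := by
    rw [← Finset.sum_mul, hp.2, one_mul]; norm_num
  have s2 : ∑ ω, p ω * Real.log (2 * (2 : ℝ) + 3) = Real.log 7 := by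
    rw [← Finset.sum_mul, hp.2, one_mul]; norm_num
  rw [s1] at c1
  rw [e4, s2] at c2
  -- heights
  have t1 := submod hp (Setoid.ker T) (Setoid.ker l) (K ⊓ N)
  have t1a : Ent p (Setoid.ker T ⊓ (Setoid.ker l ⊓ (K ⊓ N)))
      = Ent p (K ⊓ Setoid.ker l ⊓ Setoid.ker T) := by
    rw [← e2]
    refine Ent_congr' hp fun ω ω' _ _ => ?_
    exact ⟨fun h => ⟨⟨h.2.2, h.2.1⟩, h.1⟩, fun h => ⟨h.2, h.1.2, h.1.1⟩⟩
  have t1b : Ent p (Setoid.ker l ⊓ (K ⊓ N)) = Ent p (K ⊓ Setoid.ker l) := by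
    rw [← e1, inf_comm]
  have t1c : Ent p (Setoid.ker T ⊓ (K ⊓ N)) = Ent p (K ⊓ N ⊓ Setoid.ker T) := by
    rw [inf_comm]
  rw [t1a, t1b, t1c] at t1
  have t2 := Ent_height_le hp K T
  rw [inf_comm] at t2
  have t3 := Ent_height_le hp (K ⊓ Setoid.ker l) T
  rw [inf_comm] at t3
  have t4 : Ent p K ≤ Ent p (K ⊓ N) := Ent_mono hp inf_le_left
  set a1 := Ent p (K ⊓ Setoid.ker l)
  set a2 := Ent p (K ⊓ Setoid.ker l ⊓ Setoid.ker T)
  set k0 := Ent p K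
  set k1 := Ent p (K ⊓ N)
  set b0 := Ent p (K ⊓ Setoid.ker T)
  set b1 := Ent p (K ⊓ N ⊓ Setoid.ker T)
  set q0 := Ent p (K ⊓ Setoid.ker T ⊓ P)
  set q1 := Ent p (K ⊓ N ⊓ Setoid.ker T ⊓ P)
  set q2 := Ent p (K ⊓ N ⊓ Setoid.ker T ⊓ P')
  set D := Real.log M - (a2 - a1) with hD
  have hD0 : 0 ≤ D := by rw [hD]; linarith
  have hm0 : (0 : ℝ) ≤ m := Nat.cast_nonneg m
  have f1 : (q2 - b1) + (k1 - k0) ≤ (q0 - b0) + D + m * (Real.log 5 + Real.log 7) := by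
    rw [hD]; linarith
  have f2 := mul_le_mul_of_nonneg_left f1 (by linarith : (0 : ℝ) ≤ α)
  have f3 : k1 - k0 ≤ α * (k1 - k0) := le_mul_of_one_le_left (by linarith) hα
  have f4 : α * (D + m * (Real.log 5 + Real.log 7))
      ≤ α * (1 + m * (Real.log 5 + Real.log 7)) * (D + 1) := by
    rw [mul_assoc]
    refine mul_le_mul_of_nonneg_left ?_ (by linarith)
    have : 0 ≤ (m : ℝ) * (Real.log 5 + Real.log 7) := by positivity
    nlinarith
  rw [add_mul]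
  linarith

end Pool.Agent.Helper8.Kak
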