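import Pool.Agent.Helper8.Kak.Poly

/-!
# Level 1: the inequalities for three lines in a chain, from entropy bookkeeping
-/

set_option autoImplicit false

namespace Pool.Agent.Helper8.Kak

/-- the random variables of level 1 -/
inductive V1 | K | l0 | l1 | l2 | T0 | T1 | S | R | b | b' | P0 | P1 | PS | PR | Pb | Pb' | B | c
  | w | z
deriving DecidableEq

namespace L1

open V1

/-- functional dependencies -/
def rules : List (V1 × List (Finset V1)) :=
  [(P0, [{l0, T0}, {l1, T0}]), (P1, [{l0, T1}, {l2, T1}]), (PS, [{l0, S}]), (PR, [{l1, R}]),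
   (Pb, [{l2, b}]), (Pb', [{l2, b'}]), (B, [{T0, T1, S, R}]), (c, [{B, b', T1, b}]),
   (w, [{l0, l1, T1, B}]), (z, [{l2, l1, b, c}])]

/-- the hypotheses on the entropies -/
structure Base {Ω : Type} [Fintype Ω] (p : Ω → ℝ) (V : V1 → Setoid Ω)
    (eK eL eB eT eP lM Lam : ℝ) : Prop where
  hp : IsProb p
  hr : Valid p V rules
  hK : HH p V {K} = eK
  hL0 : HH p V {K, l0} = eL
  hL1 : HH p V {K, l1} = eL
  hL2 : HH p V {K, l2} = eL
  h00 : HH p V {K, l0, T0} = eB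
  h01 : HH p V {K, l0, T1} = eB
  h0S : HH p V {K, l0, S} = eB
  h10 : HH p V {K, l1, T0} = eB
  h1R : HH p V {K, l1, R} = eB
  h21 : HH p V {K, l2, T1} = eB
  h2b : HH p V {K, l2, b} = eB
  h2b' : HH p V {K, l2, b'} = eB
  hT0 : HH p V {K, T0} = eT
  hT1 : HH p V {K, T1} = eT
  hTS : HH p V {K, S} = eT
  hTR : HH p V {K, R} = eT
  hTb : HH p V {K, b} = eT
  hTb' : HH p V {K, b'} = eT
  hP0 : HH p V {K, T0, P0} = eP
  hP1 : HH p V {K, T1, P1} = eP
  hPS : HH p V {K, S, PS} = eP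
  hPR : HH p V {K, R, PR} = eP
  hPb : HH p V {K, b, Pb} = eP
  hPb' : HH p V {K, b', Pb'} = eP
  tot : 8 * eB - 5 * eL - 2 * eP ≤ HH p V {K, l0, l1, l2, T0, T1, S, R, b, b'}
  lam1 : HH p V {K, T0, S, R, PS, PR} - HH p V {K, T0, S, R} = Lam
  lam2 : HH p V {K, T1, T0, b, P0, Pb} - HH p V {K, T1, T0, b} = Lam
  eTM : eT - eK ≤ lM

/-- the costs -/
structure Hyp {Ω : Type} [Fintype Ω] (p : Ω → ℝ) (V : V1 → Setoid Ω)
    (eK eL eB eT eP lM Lam : ℝ) (k1 kB k3 k4 kc kU k7 k8 k10 : ℝ) : Prop extends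
    Base p V eK eL eB eT eP lM Lam where
  c1 : HH p V {B, S, T0, T1, R} - HH p V {B, S, T0, T1} ≤ k1
  cB : HH p V {K, B} - HH p V {K} ≤ lM + kB
  c3 : HH p V {l0, T1, w, B, l1} - HH p V {l0, T1, w, B} ≤ k3
  c4 : HH p V {PS, PR, T0, T1, S, R, B, w} - HH p V {PS, PR, T0, T1, S, R, B} ≤ k4
  cc : HH p V {K, c} - HH p V {K} ≤ lM + kc
  cU : HH p V {b', b, T1, c, B} - HH p V {b', b, T1, c} ≤ kU
  c7 : HH p V {z, Pb, b, c, l1} - HH p V {z, Pb, b, c} ≤ k7
  c8 : HH p V {l1, l2, T0, T1, l0} - HH p V {l1, l2, T0, T1} ≤ k8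
  c10 : HH p V {Pb', w, b', T1, b, B, c, z} - HH p V {Pb', w, b', T1, b, B, c} ≤ k10

variable {Ω : Type} [Fintype Ω] {p : Ω → ℝ} {V : V1 → Setoid Ω}
  {eK eL eB eT eP lM Lam : ℝ} {k1 kB k3 k4 kc kU k7 k8 k10 : ℝ}

theorem Base.inc (h : Base p V eK eL eB eT eP lM Lam)
    (A A' B B' : Finset V1) (hB' : B' ⊆ cl rules (A' ∪ B))
    (hA : A ⊆ cl rules A' ∩ cl rules B) : HH p V B' - HH p V B ≤ HH p V A' - HH p V A :=
  HH_INC h.hp h.hr A A' B B' hB' hA

theorem Base.mn (h : Base p V eK eL eB eT eP lM Lam)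
    (A B : Finset V1) (hA : A ⊆ cl rules B) : HH p V A ≤ HH p V B :=
  HH_MN h.hp h.hr A B hA

/-- (A) -/
theorem Base.factA (h : Base p V eK eL eB eT eP lM Lam) : Lam ≤ 2 * (eP - eT) := by
  have i1 := h.inc {K, S} {K, S, PS} {K, T0, S, R} {K, T0, S, R, PS}
    (by decide +kernel) (by decide +kernel)
  have i2 := h.inc {K, R} {K, R, PR} {K, T0, S, R, PS} {K, T0, S, R, PS, PR}
    (by decide +kernel) (by decide +kernel)
  linarith [h.lam1, h.hPS, h.hPR, h.hTS, h.hTR]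

/-! ### entropies of the heights -/

/-- the increment of a height over a line is at most `eB - eL` -/
theorem Base.remS (h : Base p V eK eL eB eT eP lM Lam) :
    HH p V {K, l0, l1, l2, T0, T1, R, b, b'} ≤ 7 * eB - 4 * eL - 2 * eP := by
  have i1 := h.inc {K, T0, P0} {K, l1, T0} {K, l0, T0} {K, l0, T0, l1}
    (by decide +kernel) (by decide +kernel)
  have i2 := h.inc {K, l1} {K, l1, R} {K, l0, T0, l1} {K, l0, T0, l1, R}
    (by decide +kernel) (by decide +kernel)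
  have i3 := h.inc {K, l0} {K, l0, T1} {K, l0, T0, l1, R} {K, l0, T0, l1, R, T1}
    (by decide +kernel) (by decide +kernel)
  have i4 := h.inc {K, T1, P1} {K, l2, T1} {K, l0, T0, l1, R, T1} {K, l0, T0, l1, R, T1, l2}
    (by decide +kernel) (by decide +kernel)
  have i5 := h.inc {K, l2} {K, l2, b} {K, l0, T0, l1, R, T1, l2} {K, l0, T0, l1, R, T1, l2, b}
    (by decide +kernel) (by decide +kernel)
  have i6 := h.inc {K, l2} {K, l2, b'} {K, l0, T0, l1, R, T1, l2, b}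
    {K, l0, l1, l2, T0, T1, R, b, b'} (by decide +kernel) (by decide +kernel)
  linarith [h.h00, h.h10, h.hP0, h.h1R, h.hL1, h.h01, h.hL0, h.h21, h.hP1, h.h2b, h.hL2, h.h2b']

theorem Base.htS (h : Base p V eK eL eB eT eP lM Lam) :
    eB - eL ≤ HH p V {K, l0, l1, l2, T0, T1, R, b, b', S}
      - HH p V {K, l0, l1, l2, T0, T1, R, b, b'} := by
  have i1 := h.mn {K, l0, l1, l2, T0, T1, S, R, b, b'} {K, l0, l1, l2, T0, T1, R, b, b', S}
    (by decide +kernel)
  linarith [h.remS, h.tot]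

theorem Base.remR (h : Base p V eK eL eB eT eP lM Lam) :
    HH p V {K, l0, l1, l2, T0, T1, S, b, b'} ≤ 7 * eB - 4 * eL - 2 * eP := by
  have i1 := h.inc {K, T0, P0} {K, l1, T0} {K, l0, T0} {K, l0, T0, l1}
    (by decide +kernel) (by decide +kernel)
  have i2 := h.inc {K, l0} {K, l0, S} {K, l0, T0, l1} {K, l0, T0, l1, S}
    (by decide +kernel) (by decide +kernel)
  have i3 := h.inc {K, l0} {K, l0, T1} {K, l0, T0, l1, S} {K, l0, T0, l1, S, T1}
    (by decide +kernel) (by decide +kernel)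
  have i4 := h.inc {K, T1, P1} {K, l2, T1} {K, l0, T0, l1, S, T1} {K, l0, T0, l1, S, T1, l2}
    (by decide +kernel) (by decide +kernel)
  have i5 := h.inc {K, l2} {K, l2, b} {K, l0, T0, l1, S, T1, l2} {K, l0, T0, l1, S, T1, l2, b}
    (by decide +kernel) (by decide +kernel)
  have i6 := h.inc {K, l2} {K, l2, b'} {K, l0, T0, l1, S, T1, l2, b}
    {K, l0, l1, l2, T0, T1, S, b, b'} (by decide +kernel) (by decide +kernel)
  linarith [h.h00, h.h10, h.hP0, h.h0S, h.hL1, h.h01, h.hL0, h.h21, h.hP1, h.h2b, h.hL2, h.h2b']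

theorem Base.htR (h : Base p V eK eL eB eT eP lM Lam) :
    eB - eL ≤ HH p V {K, l0, l1, l2, T0, T1, S, b, b', R}
      - HH p V {K, l0, l1, l2, T0, T1, S, b, b'} := by
  have i1 := h.mn {K, l0, l1, l2, T0, T1, S, R, b, b'} {K, l0, l1, l2, T0, T1, S, b, b', R}
    (by decide +kernel)
  linarith [h.remR, h.tot]

theorem Base.remb' (h : Base p V eK eL eB eT eP lM Lam) :
    HH p V {K, l0, l1, l2, T0, T1, S, R, b} ≤ 7 * eB - 4 * eL - 2 * eP := by
  have i1 := h.inc {K, T0, P0} {K, l1, T0} {K, l0, T0} {K, l0, T0, l1}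
    (by decide +kernel) (by decide +kernel)
  have i2 := h.inc {K, l0} {K, l0, S} {K, l0, T0, l1} {K, l0, T0, l1, S}
    (by decide +kernel) (by decide +kernel)
  have i2' := h.inc {K, l1} {K, l1, R} {K, l0, T0, l1, S} {K, l0, T0, l1, S, R}
    (by decide +kernel) (by decide +kernel)
  have i3 := h.inc {K, l0} {K, l0, T1} {K, l0, T0, l1, S, R} {K, l0, T0, l1, S, R, T1}
    (by decide +kernel) (by decide +kernel)
  have i4 := h.inc {K, T1, P1} {K, l2, T1} {K, l0, T0, l1, S, R, T1} {K, l0, T0, l1, S, R, T1, l2}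
    (by decide +kernel) (by decide +kernel)
  have i5 := h.inc {K, l2} {K, l2, b} {K, l0, T0, l1, S, R, T1, l2}
    {K, l0, l1, l2, T0, T1, S, R, b} (by decide +kernel) (by decide +kernel)
  linarith [h.h00, h.h10, h.hP0, h.h0S, h.hL1, h.h1R, h.h01, h.hL0, h.h21, h.hP1, h.h2b, h.hL2]

theorem Base.htb' (h : Base p V eK eL eB eT eP lM Lam) :
    eB - eL ≤ HH p V {K, l0, l1, l2, T0, T1, S, R, b, b'}
      - HH p V {K, l0, l1, l2, T0, T1, S, R, b} := by
  linarith [h.remb', h.tot]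

/-- lower bound for the entropy of two lines with all heights -/
theorem Base.N1 (h : Base p V eK eL eB eT eP lM Lam) :
    5 * eB - 3 * eL - eP ≤ HH p V {K, l0, l1, T0, T1, S, R} := by
  have i1 := h.inc {K, T1, P1} {K, l2, T1} {K, l0, l1, T0, T1, S, R}
    {K, l0, l1, T0, T1, S, R, l2} (by decide +kernel) (by decide +kernel)
  have i2 := h.inc {K, l2} {K, l2, b} {K, l0, l1, T0, T1, S, R, l2}
    {K, l0, l1, T0, T1, S, R, l2, b} (by decide +kernel) (by decide +kernel)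
  have i3 := h.inc {K, l2} {K, l2, b'} {K, l0, l1, T0, T1, S, R, l2, b}
    {K, l0, l1, l2, T0, T1, S, R, b, b'} (by decide +kernel) (by decide +kernel)
  linarith [h.tot, h.h21, h.hP1, h.hL2, h.h2b, h.h2b']

/-- the height `T1` over the line `l0` and the height `T0` -/
theorem Base.htT1 (h : Base p V eK eL eB eT eP lM Lam) :
    eB - eL ≤ HH p V {K, l0, T0, T1} - HH p V {K, l0, T0} := by
  have i1 := h.inc {K, T0, P0} {K, l1, T0} {K, l0, T0, T1} {K, l0, T0, T1, l1}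
    (by decide +kernel) (by decide +kernel)
  have i2 := h.inc {K, l0} {K, l0, S} {K, l0, T0, T1, l1} {K, l0, T0, T1, l1, S}
    (by decide +kernel) (by decide +kernel)
  have i3 := h.inc {K, l1} {K, l1, R} {K, l0, T0, T1, l1, S} {K, l0, l1, T0, T1, S, R}
    (by decide +kernel) (by decide +kernel)
  linarith [h.N1, h.h10, h.hP0, h.h0S, h.hL0, h.h1R, h.hL1, h.h00]

/-- upper bounds -/
theorem Base.U1 (h : Base p V eK eL eB eT eP lM Lam) :
    HH p V {K, l0, l1, T0, T1} ≤ 3 * eB - eL - eP := by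
  have i1 := h.inc {K, T0, P0} {K, l1, T0} {K, l0, T0, T1}
    {K, l0, l1, T0, T1} (by decide +kernel) (by decide +kernel)
  have i2 := h.inc {K, l0} {K, l0, T1} {K, l0, T0} {K, l0, T0, T1}
    (by decide +kernel) (by decide +kernel)
  linarith [h.h10, h.hP0, h.hL0, h.h00, h.h01]

theorem Base.U2 (h : Base p V eK eL eB eT eP lM Lam) :
    HH p V {K, l0, l1, l2, T0, T1} ≤ 4 * eB - eL - 2 * eP := by
  have i1 := h.inc {K, T1, P1} {K, l2, T1} {K, l0, l1, T0, T1}
    {K, l0, l1, l2, T0, T1} (by decide +kernel) (by decide +kernel)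
  linarith [h.U1, h.h21, h.hP1]

/-- deficit of the height `S` given `l0`, `w` -/
theorem Hyp.kw (h : Hyp p V eK eL eB eT eP lM Lam k1 kB k3 k4 kc kU k7 k8 k10) :
    2 * (eB - eL) - lM - k1 - kB ≤
      HH p V {K, w, T0, T1, B, l0, S} - HH p V {K, w, T0, T1, B, l0} := by
  have i1 := h.inc {K, w, T0, T1, B, l0} {K, w, T0, T1, B, l0, S}
    {K, l0, l1, T0, T1, B} {K, l0, l1, T0, T1, B, S}
    (by decide +kernel) (by decide +kernel)
  have i2 := h.inc {B, S, T0, T1} {B, S, T0, T1, R}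
    {K, l0, l1, T0, T1, B, S} {K, l0, l1, T0, T1, S, R}
    (by decide +kernel) (by decide +kernel)
  have i3 := h.inc {K} {K, B} {K, l0, l1, T0, T1} {K, l0, l1, T0, T1, B}
    (by decide +kernel) (by decide +kernel)
  linarith [h.N1, h.U1, h.c1, h.cB]

/-- (B) -/
theorem Hyp.factB (h : Hyp p V eK eL eB eT eP lM Lam k1 kB k3 k4 kc kU k7 k8 k10) {β C : ℝ}
    (hβ : 0 ≤ β) (hC : 0 ≤ C)
    (ih : HH p V {K, w, T0, T1, B, l0} - HH p V {K, w, T0, T1, B} ≤
      β * (HH p V {K, w, T0, T1, B, S, PS} - HH p V {K, w, T0, T1, B, S})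
      + C * (lM - (HH p V {K, w, T0, T1, B, l0, S} - HH p V {K, w, T0, T1, B, l0}) + 1)) :
    2 * (eL - eK) - (eP - eT) - (HH p V {K, w, T0, T1, B} - HH p V {K, T0, T1, B})
      ≤ β * (Lam - (HH p V {K, w, T0, T1, B} - HH p V {K, T0, T1, B})
          + k1 + k4 + (2 * (lM - (eB - eL)) + k1 + kB))
        + C * (2 * (lM - (eB - eL)) + k1 + kB + 1) + (4 * (lM - (eB - eL)) + kB + k1 + k3) := by
  have hkw := h.kw
  -- left side
  have i1 := h.inc {l0, T1, w, B} {l0, T1, w, B, l1} {K, w, T0, T1, B, l0}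
    {K, l0, l1, T0, T1, B} (by decide +kernel) (by decide +kernel)
  have i2 := h.inc {K, l0} {K, l0, S} {K, l0, l1, T0, T1, B}
    {K, l0, l1, T0, T1, B, S} (by decide +kernel) (by decide +kernel)
  have i3 := h.inc {B, S, T0, T1} {B, S, T0, T1, R}
    {K, l0, l1, T0, T1, B, S} {K, l0, l1, T0, T1, S, R}
    (by decide +kernel) (by decide +kernel)
  have i4 := h.inc {K} {K, T1} {K, T0} {K, T0, T1} (by decide +kernel)
    (by decide +kernel)
  have i5 := h.inc {K} {K, B} {K, T0, T1} {K, T0, T1, B} (by decide +kernel)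
    (by decide +kernel)
  -- right side
  have j1 := h.inc {K, w, T0, T1, B} {K, w, T0, T1, B, S}
    {K, w, T0, T1, B, l0} {K, w, T0, T1, B, l0, S} (by decide +kernel)
    (by decide +kernel)
  have j2 := h.inc {K, T0, S, R} {K, T0, S, R, PS, PR} {K, T0, T1, B, S, R}
    {K, T0, T1, B, S, R, PS, PR} (by decide +kernel) (by decide +kernel)
  have j3 := h.inc {PS, PR, T0, T1, S, R, B} {PS, PR, T0, T1, S, R, B, w}
    {K, T0, T1, B, S, R, PS, PR} {K, T0, T1, B, S, R, PS, PR, w}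
    (by decide +kernel) (by decide +kernel)
  have j4 := h.mn {K, w, T0, T1, B, S, PS} {K, T0, T1, B, S, R, PS, PR, w}
    (by decide +kernel)
  have j5 := h.inc {B, S, T0, T1} {B, S, T0, T1, R} {K, T0, T1, B, S}
    {K, T0, T1, B, S, R} (by decide +kernel) (by decide +kernel)
  have j6 := h.inc {K} {K, S} {K, T0, T1, B} {K, T0, T1, B, S} (by decide +kernel)
    (by decide +kernel)
  have hR : HH p V {K, w, T0, T1, B, S, PS} - HH p V {K, w, T0, T1, B, S} ≤
      Lam - (HH p V {K, w, T0, T1, B} - HH p V {K, T0, T1, B})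
          + k1 + k4 + (2 * (lM - (eB - eL)) + k1 + kB) := by
    linarith [h.lam1, h.c4, h.c1, h.hTS, h.hK, h.eTM]
  have hD : lM - (HH p V {K, w, T0, T1, B, l0, S} - HH p V {K, w, T0, T1, B, l0}) + 1
      ≤ 2 * (lM - (eB - eL)) + k1 + kB + 1 := by linarith
  have m1 := mul_le_mul_of_nonneg_left hR hβ
  have m2 := mul_le_mul_of_nonneg_left hD hC
  linarith [h.N1, h.c1, h.c3, h.cB, h.hK, h.hL0, h.h0S, h.hT0, h.hT1, h.eTM]

/-- lower bound for the entropy of the three lines and the parameters -/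
theorem Hyp.N2 (h : Hyp p V eK eL eB eT eP lM Lam k1 kB k3 k4 kc kU k7 k8 k10) :
    7 * eB - 4 * eL - 2 * eP - kU - k1 ≤ HH p V {K, T0, T1, b, c, l0, l1, l2, b'} := by
  have i1 := h.inc {b', b, T1, c} {b', b, T1, c, B}
    {K, T0, T1, b, c, l0, l1, l2, b'} {K, T0, T1, b, c, l0, l1, l2, b', B}
    (by decide +kernel) (by decide +kernel)
  have i2 := h.inc {K, l0} {K, l0, S} {K, T0, T1, b, c, l0, l1, l2, b', B}
    {K, T0, T1, b, c, l0, l1, l2, b', B, S} (by decide +kernel) (by decide +kernel)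
  have i3 := h.inc {B, S, T0, T1} {B, S, T0, T1, R}
    {K, T0, T1, b, c, l0, l1, l2, b', B, S} {K, l0, l1, l2, T0, T1, S, R, b, b'}
    (by decide +kernel) (by decide +kernel)
  linarith [h.tot, h.cU, h.hL0, h.h0S, h.c1]

theorem Hyp.N3 (h : Hyp p V eK eL eB eT eP lM Lam k1 kB k3 k4 kc kU k7 k8 k10) :
    6 * eB - 3 * eL - 2 * eP - kU - k1 ≤ HH p V {K, T0, T1, b, c, l0, l1, l2} := by
  have i1 := h.inc {K, l2} {K, l2, b'} {K, T0, T1, b, c, l0, l1, l2}
    {K, T0, T1, b, c, l0, l1, l2, b'} (by decide +kernel) (by decide +kernel)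
  linarith [h.N2, h.hL2, h.h2b']

/-- (G): entropy of the parameter `c` given the lines -/
theorem Hyp.factG (h : Hyp p V eK eL eB eT eP lM Lam k1 kB k3 k4 kc kU k7 k8 k10) :
    eB - eL - kU - k1 ≤ HH p V {K, T0, T1, b, c, l0, l1, l2}
      - HH p V {K, T0, T1, b, l0, l1, l2} := by
  have i1 := h.inc {K, l2} {K, l2, b} {K, l0, l1, l2, T0, T1}
    {K, T0, T1, b, l0, l1, l2} (by decide +kernel) (by decide +kernel)
  linarith [h.N3, h.U2, h.hL2, h.h2b]

/-- upper bound for the entropy of the parameters -/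
theorem Hyp.U3 (h : Hyp p V eK eL eB eT eP lM Lam k1 kB k3 k4 kc kU k7 k8 k10) :
    HH p V {K, T0, T1, b, c} - HH p V {K, T1, T0, b} ≤ lM + kc := by
  have i1 := h.inc {K} {K, c} {K, T1, T0, b} {K, T0, T1, b, c} (by decide +kernel)
    (by decide +kernel)
  linarith [h.cc]

theorem Base.U4 (h : Base p V eK eL eB eT eP lM Lam) :
    HH p V {K, T1, T0, b} ≤ eK + 3 * (eT - eK) := by
  have i1 := h.inc {K} {K, T1} {K, T0} {K, T1, T0} (by decide +kernel)
    (by decide +kernel)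
  have i2 := h.inc {K} {K, b} {K, T1, T0} {K, T1, T0, b} (by decide +kernel)
    (by decide +kernel)
  linarith [h.hK, h.hT0, h.hT1, h.hTb]

/-- (C): the line `l1` together with the point of `l2` at height `b` -/
theorem Hyp.factC0 (h : Hyp p V eK eL eB eT eP lM Lam k1 kB k3 k4 kc kU k7 k8 k10) :
    (eL - eK) - (eP - eT) + Lam ≤
      HH p V {K, T0, T1, b, c, l1, Pb} - HH p V {K, T0, T1, b, c}
      + (3 * (lM - (eB - eL)) + 2 * kU + 2 * k1 + 2 * kc) := by
  have i1 := HH_SM h.hp h.hr {K, T0, T1, b, c, l1, Pb} {K, T0, T1, b, c, l0, l2}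
    {K, T0, T1, b, c, l0, l1, l2} {K, T0, T1, b, c, P0, Pb} (by decide +kernel)
    (by decide +kernel)
  -- the difference for `l0, l2`
  have i2 := h.inc {K, T1, P1} {K, l2, T1} {K, l0, T1} {K, l0, T1, l2}
    (by decide +kernel) (by decide +kernel)
  have i3 := h.inc {K, l0} {K, l0, T0} {K, l0, T1, l2} {K, l0, T1, l2, T0}
    (by decide +kernel) (by decide +kernel)
  have i4 := h.inc {K, l2} {K, l2, b} {K, l0, T1, l2, T0} {K, l0, T1, l2, T0, b}
    (by decide +kernel) (by decide +kernel)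
  have i5 := h.inc {K} {K, c} {K, l0, T1, l2, T0, b} {K, T0, T1, b, c, l0, l2}
    (by decide +kernel) (by decide +kernel)
  -- the pair of points
  have j1 := h.inc {K, T1, T0, b, P0, Pb} {K, T0, T1, b, c, P0, Pb}
    {K, T0, T1, b, l0, l1, l2} {K, T0, T1, b, c, l0, l1, l2} (by decide +kernel)
    (by decide +kernel)
  linarith [h.N3, h.factG, h.U3, h.lam2, h.h21, h.hP1, h.h01, h.hL0, h.h00, h.hL2, h.h2b, h.cc,
    h.hK, h.hT0, h.hT1, h.eTM]

/-- (C) -/
theorem Hyp.factC (h : Hyp p V eK eL eB eT eP lM Lam k1 kB k3 k4 kc kU k7 k8 k10) :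
    (eL - eK) - (eP - eT) + Lam ≤
      HH p V {K, T0, T1, b, c, z, Pb} - HH p V {K, T0, T1, b, c}
      + (3 * (lM - (eB - eL)) + 2 * kU + 2 * k1 + 2 * kc + k7) := by
  have i1 := h.inc {z, Pb, b, c} {z, Pb, b, c, l1} {K, T0, T1, b, c, z, Pb}
    {K, T0, T1, b, c, z, Pb, l1} (by decide +kernel) (by decide +kernel)
  have i2 := h.mn {K, T0, T1, b, c, l1, Pb} {K, T0, T1, b, c, z, Pb, l1}
    (by decide +kernel)
  linarith [h.factC0, h.c7]

/-- (D) -/
theorem Hyp.factD (h : Hyp p V eK eL eB eT eP lM Lam k1 kB k3 k4 kc kU k7 k8 k10) :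
    3 * (eL - eK) - 2 * (eP - eT) ≤
      HH p V {K, T0, T1, b, c, z, l2} - HH p V {K, T0, T1, b, c}
      + (6 * (lM - (eB - eL)) + kU + k1 + kc + k7 + k8) := by
  have i1 := h.inc {z, Pb, b, c} {z, Pb, b, c, l1} {K, T0, T1, b, c, z, l2}
    {K, T0, T1, b, c, z, l2, l1} (by decide +kernel) (by decide +kernel)
  have i2 := h.inc {l1, l2, T0, T1} {l1, l2, T0, T1, l0}
    {K, T0, T1, b, c, z, l2, l1} {K, T0, T1, b, c, l0, l1, l2} (by decide +kernel)
    (by decide +kernel)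
  linarith [h.N3, h.U3, h.U4, h.c7, h.c8, h.eTM]

/-- (F) -/
theorem Hyp.factF (h : Hyp p V eK eL eB eT eP lM Lam k1 kB k3 k4 kc kU k7 k8 k10) :
    lM - (HH p V {K, T0, T1, b, c, z, l2, b'} - HH p V {K, T0, T1, b, c, z, l2})
      ≤ 2 * (lM - (eB - eL)) + kc + kU + k1 := by
  have i1 := h.inc {K, T0, T1, b, c, z, l2} {K, T0, T1, b, c, z, l2, b'}
    {K, T0, T1, b, c, l0, l1, l2} {K, T0, T1, b, c, l0, l1, l2, b'}
    (by decide +kernel) (by decide +kernel)
  have i2 := h.inc {K, l2} {K, l2, b} {K, l0, l1, l2, T0, T1}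
    {K, l0, l1, l2, T0, T1, b} (by decide +kernel) (by decide +kernel)
  have i3 := h.inc {K} {K, c} {K, l0, l1, l2, T0, T1, b}
    {K, T0, T1, b, c, l0, l1, l2} (by decide +kernel) (by decide +kernel)
  linarith [h.N2, h.U2, h.cc, h.hL2, h.h2b]

/-- (E) -/
theorem Hyp.factE (h : Hyp p V eK eL eB eT eP lM Lam k1 kB k3 k4 kc kU k7 k8 k10) :
    HH p V {K, T0, T1, b, c, z, b', Pb'} - HH p V {K, T0, T1, b, c, z, b'}
      ≤ (eP - eT) + (HH p V {K, w, T0, T1, B} - HH p V {K, T0, T1, B})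
        - (HH p V {K, T0, T1, b, c, z} - HH p V {K, T0, T1, b, c})
        + (2 * (lM - (eB - eL)) + kc + 2 * kU + k1 + k10) := by
  have hF := h.factF
  have i1 := h.inc {K, T0, T1, b, c, z} {K, T0, T1, b, c, z, b'}
    {K, T0, T1, b, c, z, l2} {K, T0, T1, b, c, z, l2, b'} (by decide +kernel)
    (by decide +kernel)
  have i2 := h.inc {K} {K, b'} {K, T0, T1, b, c} {K, T0, T1, b, c, b'}
    (by decide +kernel) (by decide +kernel)
  have i3 := h.inc {b', b, T1, c} {b', b, T1, c, B} {K, T0, T1, b, c, b'}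
    {K, T0, T1, b, c, b', B} (by decide +kernel) (by decide +kernel)
  have i4 := h.inc {K, T0, T1, B} {K, w, T0, T1, B} {K, T0, T1, b, c, b', B}
    {K, T0, T1, b, c, b', B, w} (by decide +kernel) (by decide +kernel)
  have i5 := h.inc {K, b'} {K, b', Pb'} {K, T0, T1, b, c, b', B, w}
    {K, T0, T1, b, c, b', B, w, Pb'} (by decide +kernel) (by decide +kernel)
  have i6 := h.inc {Pb', w, b', T1, b, B, c} {Pb', w, b', T1, b, B, c, z}
    {K, T0, T1, b, c, b', B, w, Pb'} {K, T0, T1, b, c, b', B, w, Pb', z}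
    (by decide +kernel) (by decide +kernel)
  have i7 := h.mn {K, T0, T1, b, c, z, b', Pb'}
    {K, T0, T1, b, c, b', B, w, Pb', z} (by decide +kernel)
  linarith [h.hK, h.hTb', h.hPb', h.cU, h.c10, h.eTM]

end L1

end Pool.Agent.Helper8.Kak
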