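import Pool.Agent.Helper8.Kak.Forms
import Pool.Agent.Helper8.Kak.L1Poly
import Pool.Agent.Helper8.Kak.Space

/-!
# Systems (geometric data + a random line and a random height) and the glued space of level 1
-/

set_option autoImplicit false

namespace Pool.Agent.Helper8.Kak

/-- geometric data -/
structure Geo (m M : ℕ) where
  L : Type
  x : L → Fin m → ℝ
  v : L → Fin m → ℝ
  δ : ℝ
  hδ : 0 < δ
  hδ1 : δ ≤ 1
  hM : 1 ≤ δ * M
  hx : ∀ l i, |x l i| ≤ 1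
  hv : ∀ l i, |v l i| ≤ 1
  hinj : Function.Injective (fun l => cell δ (v l))

/-- cell of the point of `l` at height `t` -/
noncomputable def Geo.P {m M : ℕ} (G : Geo m M) (l : G.L) (t : Fin M) : Fin m → ℤ :=
  cell G.δ (pnt G.x G.v l t)

/-- a random line and a random height -/
structure Sys {m M : ℕ} (G : Geo m M) where
  Ω : Type
  fin : Fintype Ω
  p : Ω → ℝ
  hp : @IsProb Ω fin p
  K : Setoid Ω
  l : Ω → G.L
  T : Ω → Fin M

attribute [instance] Sys.fin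

namespace Sys

variable {m M : ℕ} {G : Geo m M} (S : Sys G)

noncomputable def eK : ℝ := Ent S.p S.K
noncomputable def eL : ℝ := Ent S.p (S.K ⊓ Setoid.ker S.l)
noncomputable def eB : ℝ := Ent S.p (S.K ⊓ Setoid.ker S.l ⊓ Setoid.ker S.T)
noncomputable def eT : ℝ := Ent S.p (S.K ⊓ Setoid.ker S.T)
noncomputable def eP : ℝ :=
  Ent S.p (S.K ⊓ Setoid.ker S.T ⊓ Setoid.ker (fun ω => G.P (S.l ω) (S.T ω)))

/-- entropy of the line -/
noncomputable def a : ℝ := S.eL - S.eK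
/-- entropy of the point -/
noncomputable def h : ℝ := S.eP - S.eT
/-- deficit of the height -/
noncomputable def κ : ℝ := Real.log M - (S.eB - S.eL)

/-- the glued space -/
noncomputable abbrev pY : Y S.Ω → ℝ := pY4 S.p S.K S.l S.T G.P

theorem hpY : IsProb S.pY := Y4_prob S.K S.l S.T G.P S.hp

end Sys

theorem Kcongr {Ω : Type} {K : Setoid Ω} {a b a' b' : Ω} (h : K a b) (h' : K a' b') :
    K b b' ↔ K a a' :=
  ⟨fun h1 => K.iseqv.trans h (K.iseqv.trans h1 (K.iseqv.symm h')),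
    fun h1 => K.iseqv.trans (K.iseqv.symm h) (K.iseqv.trans h1 h')⟩

/-- relations between the coordinates of two points of the support -/
structure Lk {m M : ℕ} {G : Geo m M} (S : Sys G) (y y' : Y S.Ω) : Prop where
  KS : S.K (cS y) (cS y') ↔ S.K (c0 y) (c0 y')
  K1 : S.K (c1 y) (c1 y') ↔ S.K (c0 y) (c0 y')
  KR : S.K (cR y) (cR y') ↔ S.K (c0 y) (c0 y')
  KT : S.K (cT y) (cT y') ↔ S.K (c0 y) (c0 y')
  K2 : S.K (c2 y) (c2 y') ↔ S.K (c0 y) (c0 y')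
  Kb : S.K (cb y) (cb y') ↔ S.K (c0 y) (c0 y')
  Kb' : S.K (cb' y) (cb' y') ↔ S.K (c0 y) (c0 y')
  lS : S.l (cS y) = S.l (c0 y)
  lT : S.l (cT y) = S.l (c0 y)
  lR : S.l (cR y) = S.l (c1 y)
  lb : S.l (cb y) = S.l (c2 y)
  lb' : S.l (cb' y) = S.l (c2 y)
  t1 : S.T (c1 y) = S.T (c0 y)
  t2 : S.T (c2 y) = S.T (cT y)
  p0 : G.P (S.l (c1 y)) (S.T (c0 y)) = G.P (S.l (c0 y)) (S.T (c0 y))
  p1 : G.P (S.l (c2 y)) (S.T (cT y)) = G.P (S.l (c0 y)) (S.T (cT y))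
  mS : S.l (cS y') = S.l (c0 y')
  mT : S.l (cT y') = S.l (c0 y')
  mR : S.l (cR y') = S.l (c1 y')
  mb : S.l (cb y') = S.l (c2 y')
  mb' : S.l (cb' y') = S.l (c2 y')
  u1 : S.T (c1 y') = S.T (c0 y')
  u2 : S.T (c2 y') = S.T (cT y')
  q0 : G.P (S.l (c1 y')) (S.T (c0 y')) = G.P (S.l (c0 y')) (S.T (c0 y'))
  q1 : G.P (S.l (c2 y')) (S.T (cT y')) = G.P (S.l (c0 y')) (S.T (cT y'))

theorem Sys.lk {m M : ℕ} {G : Geo m M} (S : Sys G) {y y' : Y S.Ω} (h : 0 < S.pY y)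
    (h' : 0 < S.pY y') : Lk S y y' := by
  obtain ⟨⟨a1, a2⟩, ⟨a3, a4⟩, ⟨a5, a6, a7⟩, ⟨a8, a9⟩, ⟨a10, a11, a12⟩, ⟨a13, a14⟩, ⟨a15, a16⟩⟩ :=
    links S.K S.l S.T G.P S.hp h
  obtain ⟨⟨b1, b2⟩, ⟨b3, b4⟩, ⟨b5, b6, b7⟩, ⟨b8, b9⟩, ⟨b10, b11, b12⟩, ⟨b13, b14⟩, ⟨b15, b16⟩⟩ :=
    links S.K S.l S.T G.P S.hp h'
  have kT := Kcongr (S.K.iseqv.symm a8) (S.K.iseqv.symm b8)
  have k1 := Kcongr a5 b5
  have k2 := (Kcongr a10 b10).trans kT
  refine ⟨Kcongr a1 b1, k1, (Kcongr a3 b3).trans k1, kT, k2, (Kcongr a13 b13).trans k2,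
    (Kcongr a15 b15).trans k2, a2.symm, a9, a4.symm, a14.symm, a16.symm, a6.symm, a11.symm, ?_, ?_,
    b2.symm, b9, b4.symm, b14.symm, b16.symm, b6.symm, b11.symm, ?_, ?_⟩
  · rw [a7, a6]
  · rw [← a9, a12, a11]
  · rw [b7, b6]
  · rw [← b9, b12, b11]

section inst

variable {m M : ℕ} {G : Geo m M} (S : Sys G)

/-- the parameter `B` -/
noncomputable def vB (y : Y S.Ω) : ℤ :=
  mv (((S.T (cR y) : ℕ) : ℤ) - ((S.T (c0 y) : ℕ) : ℤ)) (S.T (cS y)) (S.T (c0 y)) (S.T (cT y))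

/-- the parameter `c` -/
noncomputable def vc (y : Y S.Ω) : ℤ := mv (vB S y) (S.T (cb' y)) (S.T (cT y)) (S.T (cb y))

/-- the form `w` -/
noncomputable def vw (y : Y S.Ω) : Fin m → ℤ :=
  cell G.δ (frm G.x G.v (S.l (c0 y)) (S.T (cT y)) (vB S y) (G.v (S.l (c1 y))))

/-- the form `z` -/
noncomputable def vz (y : Y S.Ω) : Fin m → ℤ :=
  cell G.δ (frm G.x G.v (S.l (c2 y)) (S.T (cb y)) (vc S y) (G.v (S.l (c1 y))))

/-- the random variables of level 1 -/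
noncomputable def Sys.V : V1 → Setoid (Y S.Ω)
  | .K => Setoid.comap c0 S.K
  | .l0 => Setoid.ker (fun y => S.l (c0 y))
  | .l1 => Setoid.ker (fun y => S.l (c1 y))
  | .l2 => Setoid.ker (fun y => S.l (c2 y))
  | .T0 => Setoid.ker (fun y => S.T (c0 y))
  | .T1 => Setoid.ker (fun y => S.T (cT y))
  | .S => Setoid.ker (fun y => S.T (cS y))
  | .R => Setoid.ker (fun y => S.T (cR y))
  | .b => Setoid.ker (fun y => S.T (cb y))
  | .b' => Setoid.ker (fun y => S.T (cb' y))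
  | .P0 => Setoid.ker (fun y => G.P (S.l (c0 y)) (S.T (c0 y)))
  | .P1 => Setoid.ker (fun y => G.P (S.l (c0 y)) (S.T (cT y)))
  | .PS => Setoid.ker (fun y => G.P (S.l (c0 y)) (S.T (cS y)))
  | .PR => Setoid.ker (fun y => G.P (S.l (c1 y)) (S.T (cR y)))
  | .Pb => Setoid.ker (fun y => G.P (S.l (c2 y)) (S.T (cb y)))
  | .Pb' => Setoid.ker (fun y => G.P (S.l (c2 y)) (S.T (cb' y)))
  | .B => Setoid.ker (vB S)
  | .c => Setoid.ker (vc S)
  | .w => Setoid.ker (vw S)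
  | .z => Setoid.ker (vz S)

@[simp] theorem V_K (y y') : S.V .K y y' ↔ S.K (c0 y) (c0 y') := Iff.rfl
@[simp] theorem V_l0 (y y') : S.V .l0 y y' ↔ S.l (c0 y) = S.l (c0 y') := Iff.rfl
@[simp] theorem V_l1 (y y') : S.V .l1 y y' ↔ S.l (c1 y) = S.l (c1 y') := Iff.rfl
@[simp] theorem V_l2 (y y') : S.V .l2 y y' ↔ S.l (c2 y) = S.l (c2 y') := Iff.rfl
@[simp] theorem V_T0 (y y') : S.V .T0 y y' ↔ S.T (c0 y) = S.T (c0 y') := Iff.rfl
@[simp] theorem V_T1 (y y') : S.V .T1 y y' ↔ S.T (cT y) = S.T (cT y') := Iff.rfl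
@[simp] theorem V_S (y y') : S.V .S y y' ↔ S.T (cS y) = S.T (cS y') := Iff.rfl
@[simp] theorem V_R (y y') : S.V .R y y' ↔ S.T (cR y) = S.T (cR y') := Iff.rfl
@[simp] theorem V_b (y y') : S.V .b y y' ↔ S.T (cb y) = S.T (cb y') := Iff.rfl
@[simp] theorem V_b' (y y') : S.V .b' y y' ↔ S.T (cb' y) = S.T (cb' y') := Iff.rfl
@[simp] theorem V_P0 (y y') : S.V .P0 y y' ↔
  G.P (S.l (c0 y)) (S.T (c0 y)) = G.P (S.l (c0 y')) (S.T (c0 y')) := Iff.rfl
@[simp] theorem V_P1 (y y') : S.V .P1 y y' ↔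
  G.P (S.l (c0 y)) (S.T (cT y)) = G.P (S.l (c0 y')) (S.T (cT y')) := Iff.rfl
@[simp] theorem V_PS (y y') : S.V .PS y y' ↔
  G.P (S.l (c0 y)) (S.T (cS y)) = G.P (S.l (c0 y')) (S.T (cS y')) := Iff.rfl
@[simp] theorem V_PR (y y') : S.V .PR y y' ↔
  G.P (S.l (c1 y)) (S.T (cR y)) = G.P (S.l (c1 y')) (S.T (cR y')) := Iff.rfl
@[simp] theorem V_Pb (y y') : S.V .Pb y y' ↔
  G.P (S.l (c2 y)) (S.T (cb y)) = G.P (S.l (c2 y')) (S.T (cb y')) := Iff.rfl
@[simp] theorem V_Pb' (y y') : S.V .Pb' y y' ↔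
  G.P (S.l (c2 y)) (S.T (cb' y)) = G.P (S.l (c2 y')) (S.T (cb' y')) := Iff.rfl
@[simp] theorem V_B (y y') : S.V .B y y' ↔ vB S y = vB S y' := Iff.rfl
@[simp] theorem V_c (y y') : S.V .c y y' ↔ vc S y = vc S y' := Iff.rfl
@[simp] theorem V_w (y y') : S.V .w y y' ↔ vw S y = vw S y' := Iff.rfl
@[simp] theorem V_z (y y') : S.V .z y y' ↔ vz S y = vz S y' := Iff.rfl

/-- entropies of sub-families through one coordinate -/
theorem HH_coord {ι : Type} [DecidableEq ι] {Ω Ω' : Type} [Fintype Ω] [Fintype Ω'] {p : Ω → ℝ}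
    {p' : Ω' → ℝ} (hp : IsProb p) {c : Ω → Ω'} (hc : MP p p' c) (V : ι → Setoid Ω) (A : Finset ι)
    (r : Setoid Ω') (h : ∀ y y', 0 < p y → 0 < p y' → ((∀ i ∈ A, V i y y') ↔ r (c y) (c y'))) :
    HH p V A = Ent p' r := by
  unfold HH
  rw [← hc.Ent_eq r]
  exact Ent_congr' hp fun y y' h1 h2 => (inf_rel V A y y').trans (h y y' h1 h2)

theorem valid1 : Valid S.pY S.V L1.rules := by
  intro r hr D hD y y' hy hy' h
  have k := S.lk hy hy'
  simp only [L1.rules, List.mem_cons, List.not_mem_nil, or_false] at hr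
  rcases hr with rfl | rfl | rfl | rfl | rfl | rfl | rfl | rfl | rfl | rfl <;>
    simp only [List.mem_cons, List.not_mem_nil, or_false] at hD
  · rcases hD with rfl | rfl <;>
      simp only [Finset.mem_insert, Finset.mem_singleton, forall_eq_or_imp, forall_eq, V_l0, V_T0,
        V_l1] at h ⊢
    · rw [V_P0, h.1, h.2]
    · rw [V_P0, ← k.p0, ← k.q0, h.1, h.2]
  · rcases hD with rfl | rfl <;>
      simp only [Finset.mem_insert, Finset.mem_singleton, forall_eq_or_imp, forall_eq, V_l0, V_T1,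
        V_l2] at h ⊢
    · rw [V_P1, h.1, h.2]
    · rw [V_P1, ← k.p1, ← k.q1, h.1, h.2]
  · subst hD
    simp only [Finset.mem_insert, Finset.mem_singleton, forall_eq_or_imp, forall_eq, V_l0,
      V_S] at h ⊢
    rw [V_PS, h.1, h.2]
  · subst hD
    simp only [Finset.mem_insert, Finset.mem_singleton, forall_eq_or_imp, forall_eq, V_l1,
      V_R] at h ⊢
    rw [V_PR, h.1, h.2]
  · subst hD
    simp only [Finset.mem_insert, Finset.mem_singleton, forall_eq_or_imp, forall_eq, V_l2,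
      V_b] at h ⊢
    rw [V_Pb, h.1, h.2]
  · subst hD
    simp only [Finset.mem_insert, Finset.mem_singleton, forall_eq_or_imp, forall_eq, V_l2,
      V_b'] at h ⊢
    rw [V_Pb', h.1, h.2]
  · subst hD
    simp only [Finset.mem_insert, Finset.mem_singleton, forall_eq_or_imp, forall_eq, V_T0, V_T1,
      V_S, V_R] at h ⊢
    obtain ⟨h1, h2, h3, h4⟩ := h
    rw [V_B]
    unfold vB
    rw [h1, h2, h3, h4]
  · subst hD
    simp only [Finset.mem_insert, Finset.mem_singleton, forall_eq_or_imp, forall_eq, V_B, V_b',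
      V_T1, V_b] at h ⊢
    obtain ⟨h1, h2, h3, h4⟩ := h
    rw [V_c]
    unfold vc
    rw [h1, h2, h3, h4]
  · subst hD
    simp only [Finset.mem_insert, Finset.mem_singleton, forall_eq_or_imp, forall_eq, V_l0, V_l1,
      V_T1, V_B] at h ⊢
    obtain ⟨h1, h2, h3, h4⟩ := h
    rw [V_w]
    unfold vw
    rw [h1, h2, h3, h4]
  · subst hD
    simp only [Finset.mem_insert, Finset.mem_singleton, forall_eq_or_imp, forall_eq, V_l2, V_l1,
      V_b, V_c] at h ⊢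
    obtain ⟨h1, h2, h3, h4⟩ := h
    rw [V_z]
    unfold vz
    rw [h1, h2, h3, h4]

end inst

end Pool.Agent.Helper8.Kak
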