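import Pool.Agent.Helper8.Kak.L1Cost

/-!
# Level 1: the second system and its entropies; the Katz-Tao step
-/

set_option autoImplicit false

namespace Pool.Agent.Helper8.Kak

/-- the sums-differences inequality for one geometry -/
def SDG {m M : ℕ} (G : Geo m M) (β C : ℝ) : Prop :=
  ∀ S : Sys G, S.a ≤ β * S.h + C * (S.κ + 1)

theorem SD_iff (m : ℕ) (β : ℝ) :
    SD m β ↔ ∃ C : ℝ, 0 ≤ C ∧ ∀ (M : ℕ) (G : Geo m M), SDG G β C := by
  constructor
  · rintro ⟨C, hC, h⟩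
    exact ⟨C, hC, fun M G S =>
      h G.δ M G.hδ G.hδ1 G.hM G.L G.x G.v G.hx G.hv G.hinj S.Ω S.p S.hp S.K S.l S.T⟩
  · rintro ⟨C, hC, h⟩
    refine ⟨C, hC, fun δ M hδ hδ1 hM L x v hx hv hinj Ω _ p hp K l T => ?_⟩
    exact h M ⟨L, x, v, δ, hδ, hδ1, hM, hx, hv, hinj⟩ ⟨Ω, _, p, hp, K, l, T⟩

section

variable {m M : ℕ} {G : Geo m M}

/-- the system with partition given by a family of variables -/
noncomputable def sysOf {ι : Type} {Ω : Type} [Fintype Ω] {p : Ω → ℝ} (hp : IsProb p)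
    (V : ι → Setoid Ω) (A : Finset ι) (l : Ω → G.L) (T : Ω → Fin M) : Sys G where
  Ω := Ω
  fin := inferInstance
  p := p
  hp := hp
  K := A.inf V
  l := l
  T := T

section

variable {ι : Type} [DecidableEq ι] {Ω : Type} [Fintype Ω] {p : Ω → ℝ} (hp : IsProb p)
  (V : ι → Setoid Ω) (l : Ω → G.L) (T : Ω → Fin M)

omit [DecidableEq ι] in
theorem sysOf_meas {A : Finset ι} {B : Type} (j : ι) (hj : j ∈ A) (f : Ω → B)
    (hf : ∀ ω ω', V j ω ω' → f ω = f ω') (ω ω' : Ω) (h : (sysOf hp V A l T).K ω ω') :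
    f ω = f ω' :=
  hf _ _ ((inf_rel V A ω ω').1 h j hj)

theorem sysOf_a {A AL : Finset ι} (il : ι) (hl : V il = Setoid.ker l) (hA : AL = insert il A) :
    (sysOf hp V A l T).a = HH p V AL - HH p V A := by
  have e1 : (sysOf hp V A l T).a = Ent p (A.inf V ⊓ Setoid.ker l) - Ent p (A.inf V) := rfl
  rw [e1, hA]
  unfold HH
  rw [Finset.inf_insert, hl, inf_comm]

theorem sysOf_h {A AT AP : Finset ι} (it ip : ι) (ht : V it = Setoid.ker T)
    (hP : V ip = Setoid.ker (fun ω => G.P (l ω) (T ω))) (hA : AT = insert it A)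
    (hA' : AP = insert ip AT) :
    (sysOf hp V A l T).h = HH p V AP - HH p V AT := by
  have e1 : (sysOf hp V A l T).h = Ent p (A.inf V ⊓ Setoid.ker T ⊓
    Setoid.ker (fun ω => G.P (l ω) (T ω))) - Ent p (A.inf V ⊓ Setoid.ker T) := rfl
  rw [e1, hA', hA]
  unfold HH
  rw [Finset.inf_insert, Finset.inf_insert, ht, hP, inf_comm (A.inf V),
    inf_comm (Setoid.ker T ⊓ A.inf V)]

theorem sysOf_κ {A AL AB : Finset ι} (il it : ι) (hl : V il = Setoid.ker l)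
    (ht : V it = Setoid.ker T) (hA : AL = insert il A) (hA' : AB = insert it AL) :
    (sysOf hp V A l T).κ = Real.log M - (HH p V AB - HH p V AL) := by
  have e1 : (sysOf hp V A l T).κ = Real.log M - (Ent p (A.inf V ⊓ Setoid.ker l ⊓
    Setoid.ker T) - Ent p (A.inf V ⊓ Setoid.ker l)) := rfl
  rw [e1, hA', hA]
  unfold HH
  rw [Finset.inf_insert, Finset.inf_insert, hl, ht, inf_comm (A.inf V),
    inf_comm (Setoid.ker l ⊓ A.inf V)]

end

variable (S : Sys G)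

/-- the second system -/
noncomputable def Sys.next : Sys G :=
  sysOf S.hpY S.V ({.K, .T0, .T1, .b, .c, .z} : Finset V1) (fun y => S.l (c2 y))
    (fun y => S.T (cb' y))

theorem next_a : S.next.a = HH S.pY S.V {.K, .T0, .T1, .b, .c, .z, .l2}
    - HH S.pY S.V {.K, .T0, .T1, .b, .c, .z} :=
  sysOf_a S.hpY S.V _ _ V1.l2 rfl (by decide +kernel)

theorem next_h : S.next.h = HH S.pY S.V {.K, .T0, .T1, .b, .c, .z, .b', .Pb'}
    - HH S.pY S.V {.K, .T0, .T1, .b, .c, .z, .b'} :=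
  sysOf_h S.hpY S.V _ _ V1.b' V1.Pb' rfl rfl (by decide +kernel) (by decide +kernel)

theorem next_κ : S.next.κ = Real.log M - (HH S.pY S.V {.K, .T0, .T1, .b, .c, .z, .l2, .b'}
    - HH S.pY S.V {.K, .T0, .T1, .b, .c, .z, .l2}) :=
  sysOf_κ S.hpY S.V _ _ V1.l2 V1.b' rfl rfl (by decide +kernel) (by decide +kernel)

/-- the system used for (B) -/
noncomputable def Sys.sysB : Sys G :=
  sysOf S.hpY S.V ({.K, .w, .T0, .T1, .B} : Finset V1) (fun y => S.l (c0 y))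
    (fun y => S.T (cS y))

theorem sysB_a : S.sysB.a = HH S.pY S.V {.K, .w, .T0, .T1, .B, .l0}
    - HH S.pY S.V {.K, .w, .T0, .T1, .B} :=
  sysOf_a S.hpY S.V _ _ V1.l0 rfl (by decide +kernel)

theorem sysB_h : S.sysB.h = HH S.pY S.V {.K, .w, .T0, .T1, .B, .S, .PS}
    - HH S.pY S.V {.K, .w, .T0, .T1, .B, .S} :=
  sysOf_h S.hpY S.V _ _ V1.S V1.PS rfl rfl (by decide +kernel) (by decide +kernel)

theorem sysB_κ : S.sysB.κ = Real.log M - (HH S.pY S.V {.K, .w, .T0, .T1, .B, .l0, .S}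
    - HH S.pY S.V {.K, .w, .T0, .T1, .B, .l0}) :=
  sysOf_κ S.hpY S.V _ _ V1.l0 V1.S rfl rfl (by decide +kernel) (by decide +kernel)

/-- entropy of the form `w` -/
noncomputable def Sys.om : ℝ := HH S.pY S.V {.K, .w, .T0, .T1, .B} - HH S.pY S.V {.K, .T0, .T1, .B}

/-- entropy of the form `z` -/
noncomputable def Sys.ze : ℝ :=
  HH S.pY S.V {.K, .T0, .T1, .b, .c, .z} - HH S.pY S.V {.K, .T0, .T1, .b, .c}

/-- entropy of the point `Pb` in the second system -/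
noncomputable def Sys.sg : ℝ :=
  HH S.pY S.V {.K, .T0, .T1, .b, .c, .z, .Pb} - HH S.pY S.V {.K, .T0, .T1, .b, .c, .z}

theorem kk_ge {m : ℕ} {κ : ℝ} (h : 0 ≤ κ) : κ ≤ kk m κ ∧ 1 ≤ kk m κ := by
  constructor
  · exact le_kk h (by linarith)
  · exact le_kk h (by linarith)

/-- (A) -/
theorem Sys.factA : S.Lam ≤ 2 * S.h := S.base.factA

/-- (B) -/
theorem Sys.factB {β C : ℝ} (hβ : 0 ≤ β) (hC : 0 ≤ C) (ih : SDG G β C) :
    2 * S.a - S.h - S.om ≤ β * (S.Lam - S.om) + 7 * (β + C + 1) * kk m S.κ := by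
  have hκ := S.κ_nonneg
  obtain ⟨k1, k2⟩ := kk_ge (m := m) hκ
  have i := ih S.sysB
  rw [sysB_a, sysB_h, sysB_κ] at i
  have h := S.hyp.factB hβ hC i
  unfold Sys.a Sys.h Sys.om
  have e : Real.log M - (S.eB - S.eL) = S.κ := rfl
  rw [e] at h
  have h1 := mul_le_mul_of_nonneg_left k1 hβ
  have h2 := mul_le_mul_of_nonneg_left k1 hC
  have h3 := mul_le_mul_of_nonneg_left k2 hC
  nlinarith

/-- (C) -/
theorem Sys.factC : S.a - S.h + S.Lam ≤ S.ze + S.sg + 10 * kk m S.κ := by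
  have hκ := S.κ_nonneg
  obtain ⟨k1, k2⟩ := kk_ge (m := m) hκ
  have h := S.hyp.factC
  unfold Sys.a Sys.h Sys.ze Sys.sg
  have e : Real.log M - (S.eB - S.eL) = S.κ := rfl
  rw [e] at h
  linarith

theorem Sys.sg_le : S.sg ≤ S.h := by
  have i := S.base.inc {.K, .b} {.K, .b, .Pb} {.K, .T0, .T1, .b, .c, .z}
    {.K, .T0, .T1, .b, .c, .z, .Pb} (by decide +kernel) (by decide +kernel)
  unfold Sys.sg Sys.h
  linarith [S.base.hTb, S.base.hPb]

/-- (D) -/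
theorem Sys.factD : 3 * S.a - 2 * S.h ≤ S.ze + S.next.a + 11 * kk m S.κ := by
  have hκ := S.κ_nonneg
  obtain ⟨k1, k2⟩ := kk_ge (m := m) hκ
  have h := S.hyp.factD
  rw [next_a]
  unfold Sys.a Sys.h Sys.ze
  have e : Real.log M - (S.eB - S.eL) = S.κ := rfl
  rw [e] at h
  have m1 := S.base.mn {.K, .T0, .T1, .b, .c, .z, .l2} {.K, .T0, .T1, .b, .c, .z, .l2}
    (by decide +kernel)
  linarith

/-- (E) -/
theorem Sys.factE : S.next.h ≤ S.h + S.om - S.ze + 7 * kk m S.κ := by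
  have hκ := S.κ_nonneg
  obtain ⟨k1, k2⟩ := kk_ge (m := m) hκ
  have h := S.hyp.factE
  rw [next_h]
  unfold Sys.h Sys.ze Sys.om
  have e : Real.log M - (S.eB - S.eL) = S.κ := rfl
  rw [e] at h
  linarith

/-- (F) -/
theorem Sys.factF : S.next.κ ≤ 5 * kk m S.κ := by
  have hκ := S.κ_nonneg
  obtain ⟨k1, k2⟩ := kk_ge (m := m) hκ
  have h := S.hyp.factF
  rw [next_κ]
  have e : Real.log M - (S.eB - S.eL) = S.κ := rfl
  rw [e] at h
  linarith

/-- (D), (E) and the inductive hypothesis -/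
theorem Sys.factZ {β C : ℝ} (hβ : 0 ≤ β) (hC : 0 ≤ C) (ih : SDG G β C) :
    (β - 1) * S.ze ≤ β * (S.h + S.om) - (3 * S.a - 2 * S.h) + 11 * (β + C + 1) * kk m S.κ := by
  have hκ := S.κ_nonneg
  obtain ⟨k1, k2⟩ := kk_ge (m := m) hκ
  have i := ih S.next
  have h1 := mul_le_mul_of_nonneg_left S.factE hβ
  have h2 := mul_le_mul_of_nonneg_left S.factF hC
  have h3 := mul_le_mul_of_nonneg_left k2 hC
  nlinarith [S.factD, mul_nonneg hβ (le_trans zero_le_one k2),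
    mul_nonneg hC (le_trans zero_le_one k2)]

end

/-- the Katz-Tao step -/
theorem step_KT {m : ℕ} {β : ℝ} (h1 : 1 < β) (_h2 : β ≤ 2) (h : SD m β) :
    SD m ((3 * β ^ 2 + 2 * β - 2) / (β ^ 2 + 3 * β - 2)) := by
  rw [SD_iff] at h ⊢
  obtain ⟨C, hC, h⟩ := h
  have hβ : 0 ≤ β := by linarith
  have hd : 1 ≤ β ^ 2 + 3 * β - 2 := by nlinarith
  refine ⟨40 * (β + C + 1) * (β + 1) ^ 2 * (34 * (m + 1)), by positivity, fun M G S => ?_⟩
  have hκ := S.κ_nonneg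
  obtain ⟨k1, k2⟩ := kk_ge (m := m) hκ
  have fA := S.factA
  have fB := S.factB hβ hC (h M G)
  have fC := S.factC
  have fs := S.sg_le
  have fZ := S.factZ hβ hC (h M G)
  set a := S.a
  set hh := S.h
  set k := kk m S.κ
  set E := (β + C + 1) * k with hE
  have hE0 : k ≤ E := by
    rw [hE]
    nlinarith [mul_nonneg hC (le_trans zero_le_one k2), mul_nonneg hβ (le_trans zero_le_one k2)]
  have hEp : 0 ≤ E := by linarith
  -- (β-1) ω ≤ β Λ - (2 a - h) + 7 E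
  have b1 : (β - 1) * S.om ≤ β * S.Lam - (2 * a - hh) + 7 * E := by
    rw [hE]; linarith
  have b2 : (β - 1) * S.ze ≤ β * (hh + S.om) - (3 * a - 2 * hh) + 11 * E := by
    rw [hE]; linarith
  have b3 : a - 2 * hh + S.Lam - 10 * E ≤ S.ze := by linarith
  have c1 := mul_le_mul_of_nonneg_left b2 (by linarith : 0 ≤ β - 1)
  have c2 := mul_le_mul_of_nonneg_left b1 hβ
  have c3 := mul_le_mul_of_nonneg_left b3 (by positivity : 0 ≤ (β - 1) ^ 2)
  have c4 := mul_le_mul_of_nonneg_left fA (by linarith : 0 ≤ 2 * β - 1)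
  have key : (β ^ 2 + 3 * β - 2) * a ≤ (3 * β ^ 2 + 2 * β - 2) * hh
      + (7 * β + 11 * (β - 1) + 10 * (β - 1) ^ 2) * E := by
    nlinarith
  have hk : k = 34 * (m + 1) * (S.κ + 1) := rfl
  have h3 : (7 * β + 11 * (β - 1) + 10 * (β - 1) ^ 2) * E ≤ 40 * (β + 1) ^ 2 * E := by
    apply mul_le_mul_of_nonneg_right _ hEp
    nlinarith
  have h4 : 40 * (β + C + 1) * (β + 1) ^ 2 * (34 * (m + 1)) * (S.κ + 1) = 40 * (β + 1) ^ 2 * E := by
    rw [hE, hk]; ring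
  rw [h4]
  have h5 : a ≤ ((3 * β ^ 2 + 2 * β - 2) * hh + 40 * (β + 1) ^ 2 * E) / (β ^ 2 + 3 * β - 2) := by
    rw [le_div_iff₀ (by linarith)]
    linarith
  refine h5.trans ?_
  rw [add_div, mul_div_right_comm]
  have h6 : 40 * (β + 1) ^ 2 * E / (β ^ 2 + 3 * β - 2) ≤ 40 * (β + 1) ^ 2 * E :=
    div_le_self (by positivity) hd
  linarith

end Pool.Agent.Helper8.Kak
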