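import Pool.Agent.Helper8.Kak.Ent

set_option autoImplicit false

namespace Pool.Agent.Helper8.Kak

open Finset

variable {Ω : Type} [Fintype Ω]

/-- number of integer points in a box -/
theorem card_box {m : ℕ} (c : Fin m → ℝ) {ρ : ℝ} (hρ : 0 ≤ ρ) (F : Finset (Fin m → ℤ))
    (hF : ∀ a ∈ F, ∀ i, |(a i : ℝ) - c i| ≤ ρ) : (F.card : ℝ) ≤ (2 * ρ + 1) ^ m := by
  classical
  have h1 : F ⊆ Fintype.piFinset (fun i => Finset.Icc ⌈c i - ρ⌉ ⌊c i + ρ⌋) := by
    intro a ha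
    rw [Fintype.mem_piFinset]
    intro i
    have := abs_le.1 (hF a ha i)
    rw [Finset.mem_Icc]
    exact ⟨Int.ceil_le.2 (by linarith [this.1]), Int.le_floor.2 (by linarith [this.2])⟩
  have h2 : (F.card : ℝ) ≤ ((Fintype.piFinset (fun i => Finset.Icc ⌈c i - ρ⌉ ⌊c i + ρ⌋)).card : ℝ) := by
    exact_mod_cast Finset.card_le_card h1
  refine h2.trans ?_
  rw [Fintype.card_piFinset]
  push_cast
  calc ∏ i, ((Finset.Icc ⌈c i - ρ⌉ ⌊c i + ρ⌋).card : ℝ) ≤ ∏ _i : Fin m, (2 * ρ + 1) := by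
        refine Finset.prod_le_prod (fun i _ => Nat.cast_nonneg _) fun i _ => ?_
        rw [Int.card_Icc]
        have e1 : ((⌊c i + ρ⌋ + 1 - ⌈c i - ρ⌉).toNat : ℝ) = ((⌊c i + ρ⌋ + 1 - ⌈c i - ρ⌉).toNat : ℤ) := by
          norm_cast
        rw [e1, Int.toNat_eq_max]
        push_cast
        refine max_le ?_ (by linarith)
        have a1 := Int.floor_le (c i + ρ)
        have a2 := Int.le_ceil (c i - ρ)
        linarith
    _ = (2 * ρ + 1) ^ m := by simp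

/-- conditional entropy of an integer vector known up to `ρ` -/
theorem amb_box {m : ℕ} {p : Ω → ℝ} (hp : IsProb p) (r : Setoid Ω) (X : Ω → Fin m → ℤ)
    (c : Ω → Fin m → ℝ) (ρ : Ω → ℝ) (hρ : ∀ ω, 0 ≤ ρ ω)
    (hm : ∀ ω ω', 0 < p ω → 0 < p ω' → r ω ω' → c ω = c ω' ∧ ρ ω = ρ ω')
    (hX : ∀ ω, 0 < p ω → ∀ i, |(X ω i : ℝ) - c ω i| ≤ ρ ω) :
    Ent p (Setoid.ker X ⊓ r) - Ent p r ≤ m * ∑ ω, p ω * Real.log (2 * ρ ω + 1) := by
  classical
  have h := gibbs hp r X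
    (fun ω a => if (∀ i, |(a i : ℝ) - c ω i| ≤ ρ ω) then ((2 * ρ ω + 1) ^ m)⁻¹ else 0) ?_ ?_ ?_ ?_
  · refine h.trans ?_
    rw [Finset.mul_sum]
    refine Finset.sum_le_sum fun ω _ => ?_
    rcases (hp.1 ω).eq_or_lt with h0 | h0
    · rw [← h0]; simp
    · rw [if_pos (hX ω h0), Real.log_inv, Real.log_pow]
      apply le_of_eq; ring
  · intro ω a
    have := hρ ω
    split_ifs
    · positivity
    · exact le_rfl
  · intro ω ω' h1 h2 h3
    obtain ⟨e1, e2⟩ := hm ω ω' h1 h2 h3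
    rw [e1, e2]
  · intro ω F
    have h0 := hρ ω
    rw [← Finset.sum_filter, Finset.sum_const, nsmul_eq_mul]
    have := card_box (c ω) h0 (F.filter (fun a => ∀ i, |(a i : ℝ) - c ω i| ≤ ρ ω))
      (fun a ha => (Finset.mem_filter.1 ha).2)
    rw [← div_eq_mul_inv]
    exact div_le_one_of_le₀ this (by positivity)
  · intro ω h0
    have := hρ ω
    rw [if_pos (hX ω h0)]
    positivity

/-- conditional entropy of the cell of a real vector known up to `ρ δ` -/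
theorem amb_cell {m : ℕ} {δ : ℝ} (hδ : 0 < δ) {p : Ω → ℝ} (hp : IsProb p) (r : Setoid Ω)
    (u : Ω → Fin m → ℝ) (c : Ω → Fin m → ℝ) (ρ : Ω → ℝ) (hρ : ∀ ω, 0 ≤ ρ ω)
    (hm : ∀ ω ω', 0 < p ω → 0 < p ω' → r ω ω' → c ω = c ω' ∧ ρ ω = ρ ω')
    (hX : ∀ ω, 0 < p ω → ∀ i, |u ω i - c ω i| ≤ ρ ω * δ) :
    Ent p (Setoid.ker (fun ω => cell δ (u ω)) ⊓ r) - Ent p r
      ≤ m * ∑ ω, p ω * Real.log (2 * ρ ω + 3) := by
  have h := amb_box hp r (fun ω => cell δ (u ω)) (fun ω i => c ω i / δ) (fun ω => ρ ω + 1)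
    (fun ω => by have := hρ ω; linarith) ?_ ?_
  · refine h.trans (le_of_eq ?_)
    congr 1
    refine Finset.sum_congr rfl fun ω _ => ?_
    ring_nf
  · intro ω ω' h1 h2 h3
    obtain ⟨e1, e2⟩ := hm ω ω' h1 h2 h3
    simp only [e1, e2, and_self]
  · intro ω h0 i
    have h1 := hX ω h0 i
    have e1 : ((cell δ (u ω) i : ℤ) : ℝ) = (⌊u ω i / δ⌋ : ℝ) := rfl
    rw [e1]
    have h2 : |(⌊u ω i / δ⌋ : ℝ) - u ω i / δ| ≤ 1 := by
      rw [abs_le]
      constructor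
      · linarith [Int.lt_floor_add_one (u ω i / δ)]
      · linarith [Int.floor_le (u ω i / δ)]
    have h3 : |u ω i / δ - c ω i / δ| ≤ ρ ω := by
      rw [← sub_div, abs_div, abs_of_pos hδ, div_le_iff₀ hδ]
      exact h1
    calc |(⌊u ω i / δ⌋ : ℝ) - c ω i / δ|
        ≤ |(⌊u ω i / δ⌋ : ℝ) - u ω i / δ| + |u ω i / δ - c ω i / δ| := by
          have := abs_add_le ((⌊u ω i / δ⌋ : ℝ) - u ω i / δ) (u ω i / δ - c ω i / δ)
          simpa using this
      _ ≤ ρ ω + 1 := by linarith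

/-- conditional entropy of an integer, by an explicit weight -/
theorem gibbs_int {p : Ω → ℝ} (hp : IsProb p) (r : Setoid Ω) (X : Ω → ℤ) (q : Ω → ℤ → ℝ)
    (hq0 : ∀ ω a, 0 ≤ q ω a) (hqm : ∀ ω ω', 0 < p ω → 0 < p ω' → r ω ω' → q ω = q ω')
    (hq1 : ∀ ω (F : Finset ℤ), ∑ a ∈ F, q ω a ≤ 1) (e : Ω → ℝ)
    (hqp : ∀ ω, 0 < p ω → Real.exp (- e ω) ≤ q ω (X ω)) :
    Ent p (Setoid.ker X ⊓ r) - Ent p r ≤ ∑ ω, p ω * e ω := by
  refine (gibbs hp r X q hq0 hqm hq1 fun ω h => lt_of_lt_of_le (Real.exp_pos _) (hqp ω h)).trans ?_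
  refine Finset.sum_le_sum fun ω _ => ?_
  rcases (hp.1 ω).eq_or_lt with h0 | h0
  · rw [← h0]; simp
  · refine mul_le_mul_of_nonneg_left ?_ h0.le
    have h1 := hqp ω h0
    have h2 : - e ω ≤ Real.log (q ω (X ω)) := (Real.le_log_iff_exp_le (lt_of_lt_of_le (Real.exp_pos _) h1)).2 h1
    linarith

/-- uniform weights on an interval of integers -/
theorem sum_interval_weight (c : ℝ) {ρ : ℝ} (hρ : 0 ≤ ρ) (F : Finset ℤ) :
    ∑ a ∈ F, (if |(a : ℝ) - c| ≤ ρ then (2 * ρ + 1)⁻¹ else 0) ≤ 1 := by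
  classical
  rw [← Finset.sum_filter, Finset.sum_const, nsmul_eq_mul, ← div_eq_mul_inv]
  refine div_le_one_of_le₀ ?_ (by positivity)
  have h1 : F.filter (fun a : ℤ => |(a : ℝ) - c| ≤ ρ) ⊆ Finset.Icc ⌈c - ρ⌉ ⌊c + ρ⌋ := by
    intro a ha
    have := abs_le.1 (Finset.mem_filter.1 ha).2
    rw [Finset.mem_Icc]
    exact ⟨Int.ceil_le.2 (by linarith [this.1]), Int.le_floor.2 (by linarith [this.2])⟩
  have h2 : ((F.filter (fun a : ℤ => |(a : ℝ) - c| ≤ ρ)).card : ℝ)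
      ≤ ((Finset.Icc ⌈c - ρ⌉ ⌊c + ρ⌋).card : ℝ) := by
    exact_mod_cast Finset.card_le_card h1
  refine h2.trans ?_
  rw [Int.card_Icc]
  have e1 : ((⌊c + ρ⌋ + 1 - ⌈c - ρ⌉).toNat : ℝ) = ((⌊c + ρ⌋ + 1 - ⌈c - ρ⌉).toNat : ℤ) := by
    norm_cast
  rw [e1, Int.toNat_eq_max]
  push_cast
  refine max_le ?_ (by linarith)
  have a1 := Int.floor_le (c + ρ)
  have a2 := Int.le_ceil (c - ρ)
  linarith

/-- heavy tailed weights on the integers -/
theorem sum_heavy_weight {M : ℝ} (hM : 1 ≤ M) (F : Finset ℤ) :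
    ∑ a ∈ F, (3 * M * (1 + |(a : ℝ)| / M) ^ 2)⁻¹ ≤ 1 := by
  classical
  have hM0 : 0 < M := by linarith
  -- reduce to a symmetric interval
  obtain ⟨N, hN⟩ : ∃ N : ℕ, F ⊆ Finset.Icc (-(N : ℤ)) N := by
    refine ⟨F.sup fun a => a.natAbs, fun a ha => ?_⟩
    have := Finset.le_sup (f := fun a : ℤ => a.natAbs) ha
    rw [Finset.mem_Icc]
    constructor <;> omega
  have hpos : ∀ a : ℤ, 0 ≤ (3 * M * (1 + |(a : ℝ)| / M) ^ 2)⁻¹ := fun a => by positivity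
  refine (Finset.sum_le_sum_of_subset_of_nonneg hN fun a _ _ => hpos a).trans ?_
  -- one-sided telescoping bound
  have tel : ∀ n : ℕ, ∑ j ∈ Finset.range n, (3 * M * (1 + ((j : ℝ) + 1) / M) ^ 2)⁻¹
      ≤ 1 / 3 * (1 - M / (M + n)) := by
    intro n
    induction n with
    | zero => simp [hM0.ne']
    | succ n ih =>
      rw [Finset.sum_range_succ]
      have hn : (0 : ℝ) ≤ n := Nat.cast_nonneg n
      have e1 : (3 * M * (1 + ((n : ℝ) + 1) / M) ^ 2)⁻¹ = 1 / 3 * (M / (M + n + 1) ^ 2) := by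
        field_simp
        try ring
      have e2 : M / (M + n + 1) ^ 2 ≤ M / (M + n) - M / (M + n + 1) := by
        rw [div_sub_div _ _ (by positivity) (by positivity), div_le_div_iff₀ (by positivity) (by positivity)]
        nlinarith [mul_pos hM0 hM0, mul_nonneg hM0.le hn, mul_pos (mul_pos hM0 hM0) hM0]
      push_cast
      rw [e1]
      have e3 : M + ((n : ℝ) + 1) = M + n + 1 := by ring
      rw [e3]
      linarith
  have hsplit : ∑ a ∈ Finset.Icc (-(N : ℤ)) N, (3 * M * (1 + |(a : ℝ)| / M) ^ 2)⁻¹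
      = (3 * M)⁻¹ + 2 * ∑ j ∈ Finset.range N, (3 * M * (1 + ((j : ℝ) + 1) / M) ^ 2)⁻¹ := by
    clear hN
    induction N with
    | zero => simp
    | succ n ih =>
      rw [Finset.sum_range_succ, mul_add, ← add_assoc, ← ih]
      have e0 : Finset.Icc (-((n + 1 : ℕ) : ℤ)) ((n + 1 : ℕ) : ℤ)
          = insert (-((n : ℤ) + 1)) (insert ((n : ℤ) + 1) (Finset.Icc (-(n : ℤ)) n)) := by
        ext a
        simp only [Finset.mem_Icc, Finset.mem_insert]
        push_cast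
        omega
      rw [e0, Finset.sum_insert, Finset.sum_insert]
      · have a1 : |(((-((n : ℤ) + 1) : ℤ)) : ℝ)| = (n : ℝ) + 1 := by
          push_cast
          rw [abs_of_nonpos (by have : (0 : ℝ) ≤ n := Nat.cast_nonneg n; linarith)]
          ring
        have a2 : |((((n : ℤ) + 1 : ℤ)) : ℝ)| = (n : ℝ) + 1 := by
          push_cast
          rw [abs_of_nonneg (by positivity)]
        rw [a1, a2]
        ring
      · simp
      · simp only [Finset.mem_insert, Finset.mem_Icc]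
        omega
  rw [hsplit]
  have h1 := tel N
  have h2 : 0 ≤ M / (M + N) := by positivity
  have h3 : (3 * M)⁻¹ ≤ 1 / 3 := by
    rw [inv_eq_one_div, div_le_div_iff₀ (by positivity) (by norm_num)]
    linarith
  linarith

end Pool.Agent.Helper8.Kak
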