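import Pool.Agent.Helper8.Kak.Step7

/-!
# Numerical iteration
-/

set_option autoImplicit false

namespace Pool.Agent.Helper8.Kak

theorem num_step0 {m : ℕ} (h : SD m 2) : SD m 1.67753 := by
  have b0 : Bd m 2 5 2 7 14 4 := by
    refine Bd_zero (by norm_num) h ?_ ?_ ?_ ?_ ?_ ?_ <;> norm_num
  have b1 : Bd m 2.88 6.36 2.4 11.032 20.384 5.68 := by
    refine Bd_step (by norm_num) h b0 ?_ ?_ ?_ ?_ ?_ ?_ ?_ ?_ ?_ <;> norm_num
  have b2 : Bd m 3.029993 6.5740526 2.4859335 11.9320356 21.7423322 6.1217393 := by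
    refine Bd_step (by norm_num) h b1 ?_ ?_ ?_ ?_ ?_ ?_ ?_ ?_ ?_ <;> norm_num
  have b3 : Bd m 3.0754038 6.6406988 2.510109 12.19474 22.1440192 6.2454614 := by
    refine Bd_step (by norm_num) h b2 ?_ ?_ ?_ ?_ ?_ ?_ ?_ ?_ ?_ <;> norm_num
  have b4 : Bd m 3.0860548 6.6562583 2.5158513 12.2572572 22.2393587 6.2751558 := by
    refine Bd_step (by norm_num) h b3 ?_ ?_ ?_ ?_ ?_ ?_ ?_ ?_ ?_ <;> norm_num
  exact Bd_final b4 (by norm_num) (by norm_num) (by norm_num)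

theorem num_step1 {m : ℕ} (h : SD m 1.67753) : SD m 1.67261 := by
  have b0 : Bd m 2.9518988 6.4278483 2.4759494 11.7366002 21.3428754 6.1303254 := by
    refine Bd_zero (by norm_num) h ?_ ?_ ?_ ?_ ?_ ?_ <;> norm_num
  have b1 : Bd m 3.1417021 6.7355814 2.5478229 12.6019134 22.7584818 6.4453454 := by
    refine Bd_step (by norm_num) h b0 ?_ ?_ ?_ ?_ ?_ ?_ ?_ ?_ ?_ <;> norm_num
  have b2 : Bd m 3.1418919 6.7345064 2.5492776 12.6140506 22.7726224 6.4554795 := by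
    refine Bd_step (by norm_num) h b1 ?_ ?_ ?_ ?_ ?_ ?_ ?_ ?_ ?_ <;> norm_num
  have b3 : Bd m 3.1438208 6.737395 2.5502466 12.6249311 22.7894318 6.4604304 := by
    refine Bd_step (by norm_num) h b2 ?_ ?_ ?_ ?_ ?_ ?_ ?_ ?_ ?_ <;> norm_num
  have b4 : Bd m 3.1441554 6.7378832 2.5504277 12.6269246 22.7924679 6.4613817 := by
    refine Bd_step (by norm_num) h b3 ?_ ?_ ?_ ?_ ?_ ?_ ?_ ?_ ?_ <;> norm_num
  exact Bd_final b4 (by norm_num) (by norm_num) (by norm_num)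

theorem num_step2 {m : ℕ} (h : SD m 1.67261) : SD m 1.67253 := by
  have b0 : Bd m 2.9734913 6.460237 2.4867456 11.8545535 21.5252034 6.1839038 := by
    refine Bd_zero (by norm_num) h ?_ ?_ ?_ ?_ ?_ ?_ <;> norm_num
  have b1 : Bd m 3.1461374 6.7419709 2.550304 12.6289895 22.7994583 6.4585211 := by
    refine Bd_step (by norm_num) h b0 ?_ ?_ ?_ ?_ ?_ ?_ ?_ ?_ ?_ <;> norm_num
  have b2 : Bd m 3.1436056 6.736954 2.5502573 12.6246846 22.788648 6.4607216 := by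
    refine Bd_step (by norm_num) h b1 ?_ ?_ ?_ ?_ ?_ ?_ ?_ ?_ ?_ <;> norm_num
  have b3 : Bd m 3.1448753 6.7388736 2.5508771 12.6317013 22.7995497 6.4638532 := by
    refine Bd_step (by norm_num) h b2 ?_ ?_ ?_ ?_ ?_ ?_ ?_ ?_ ?_ <;> norm_num
  have b4 : Bd m 3.1450699 6.7391565 2.5509834 12.6328687 22.8013244 6.4644135 := by
    refine Bd_step (by norm_num) h b3 ?_ ?_ ?_ ?_ ?_ ?_ ?_ ?_ ?_ <;> norm_num
  exact Bd_final b4 (by norm_num) (by norm_num) (by norm_num)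

/-- from the exponent `2` to the exponent `1.67253` -/
theorem SD_final7 {m : ℕ} (h : SD m 2) : SD m 1.67253 := num_step2 (num_step1 (num_step0 h))

end Pool.Agent.Helper8.Kak
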