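import Pool.Agent.Helper39.DiscL
import Pool.Agent.Helper8.Kak.Num7
import Pool.Agent.Helper8.Kak.Shift
import Pool.Agent.Helper84.KakSD

/-!
# Kakeya sets in high dimension: beyond the Katz-Tao exponent

Let `Ω` be a nonempty set of unit vectors of `ℝ^n` and let `K` be a set which meets, for each
`ω ∈ Ω`, some line with direction `ω` in a set of Hausdorff dimension `1` (for instance in a unit
segment). Then the Hausdorff dimension of `K` is at least `dim Ω / 1.67253 + 1`. For Kakeya sets,
where `Ω` is the whole unit sphere, this is the bound `(n - 1) / 1.67253 + 1`. Katz and Tao (2002)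
proved such a bound for the Minkowski dimension of Kakeya sets, with `1.67513...` (a root of
`a ^ 3 - 4 * a + 2`) in place of `1.67253`.

Outline: an entropy form of the sums-differences inequality, with random heights and conditional on
an arbitrary partition, so that the inequality with exponent `β` may be applied to every derived
system of lines. Besides the two forms of Katz and Tao the proof uses chains of four lines inside
the derived systems, and a new line of the original system glued at the exceptional slice of the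
last line of such a chain.
-/

namespace Pool.Agent.Results.MP_b1773a_an.BeyondKatzTao

/-- Let `n ≥ 2`, let `Ω` be a nonempty set of unit vectors of `ℝ^n` and let `K` be a set which
meets, for each `ω ∈ Ω`, some line with direction `ω` in a set of Hausdorff dimension `1`. Then
`dim K ≥ dim Ω / 1.67253 + 1`. -/
theorem result :
    ∀ n : ℕ, 2 ≤ n → ∀ Ω K : Set (EuclideanSpace ℝ (Fin n)),
      Ω.Nonempty → (∀ ω ∈ Ω, ‖ω‖ = 1) →
      (∀ ω ∈ Ω, ∃ x : EuclideanSpace ℝ (Fin n), 1 ≤ dimH {t : ℝ | x + t • ω ∈ K}) →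
      dimH Ω / ENNReal.ofReal 1.67253 + 1 ≤ dimH K := by
  intro n hn Ω K hne hΩ hK
  have h1 : Pool.Agent.Helper8.Kak.SD (n - 1) 1.67253 :=
    Pool.Agent.Helper8.Kak.SD_final7 (Pool.Agent.Helper8.Kak.SD_two (n - 1))
  have h2 : Pool.Agent.Helper8.Kak.SDu (n - 1) 1.67253 :=
    Pool.Agent.Helper8.Kak.SD_unbounded (by norm_num) h1
  exact Pool.Agent.Helper39.dimH_ge_directions_n (by omega) (by norm_num) h2 Ω K hΩ hne hK

/-- The case of Kakeya sets. -/
theorem kakeya (n : ℕ) (hn : 2 ≤ n) (K : Set (EuclideanSpace ℝ (Fin n)))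
    (hK : ∀ ω : EuclideanSpace ℝ (Fin n), ‖ω‖ = 1 →
      ∃ x : EuclideanSpace ℝ (Fin n), ∀ t : ℝ, 0 ≤ t → t ≤ 1 → x + t • ω ∈ K) :
    ENNReal.ofReal (((n : ℝ) - 1) / 1.67253 + 1) ≤ dimH K := by
  obtain ⟨m, rfl⟩ : ∃ m, n = m + 1 := ⟨n - 1, by omega⟩
  have h1 := Pool.Agent.Helper39.le_dimH_unit_sphere m
  have hne : {ω : EuclideanSpace ℝ (Fin (m + 1)) | ‖ω‖ = 1}.Nonempty :=
    ⟨EuclideanSpace.single 0 1, by simp⟩
  have h2 := result (m + 1) hn {ω | ‖ω‖ = 1} K hne (fun ω hω => hω) ?_
  · refine le_trans ?_ h2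
    have e : (((m + 1 : ℕ) : ℝ) - 1) = m := by push_cast; ring
    rw [e, ENNReal.ofReal_add (by positivity) zero_le_one, ENNReal.ofReal_one,
      ENNReal.ofReal_div_of_pos (by norm_num), ENNReal.ofReal_natCast]
    gcongr
  · intro ω hω
    obtain ⟨x, hx⟩ := hK ω hω
    refine ⟨x, ?_⟩
    have h3 : Set.Icc (0 : ℝ) 1 ⊆ {t : ℝ | x + t • ω ∈ K} := fun t ht => hx t ht.1 ht.2
    have h4 : dimH (Set.Icc (0 : ℝ) 1) = 1 := by
      have h5 := Real.dimH_of_nonempty_interior (s := Set.Icc (0 : ℝ) 1)
        ⟨1 / 2, by rw [interior_Icc]; norm_num⟩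
      rw [h5, Module.finrank_self, Nat.cast_one]
    rw [← h4]
    exact dimH_mono h3

end Pool.Agent.Results.MP_b1773a_an.BeyondKatzTao
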