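import Pool.Agent.Helper8.Kak.Ent

set_option autoImplicit false

namespace Pool.Agent.Helper8.Kak

open Finset

variable {Ω : Type} [Fintype Ω]

/-- distance of two grid heights, bounded below by `1 / M` -/
noncomputable def dst {M : ℕ} (t t' : Fin M) : ℝ := max |ht t - ht t'| (1 / M)

theorem sum_inv_sqrt (n : ℕ) : ∑ j ∈ Finset.range n, 1 / √((j : ℝ) + 1) ≤ 2 * √(n : ℝ) := by
  induction n with
  | zero => simp
  | succ n ih =>
    rw [Finset.sum_range_succ]
    have h0 : 0 < √((n : ℝ) + 1) := Real.sqrt_pos.2 (by positivity)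
    have h1 : 0 ≤ √(n : ℝ) := Real.sqrt_nonneg _
    have h2 : √(n : ℝ) ≤ √((n : ℝ) + 1) := Real.sqrt_le_sqrt (by linarith)
    have e1 : √((n : ℝ) + 1) ^ 2 = (n : ℝ) + 1 := Real.sq_sqrt (by positivity)
    have e2 : √(n : ℝ) ^ 2 = (n : ℝ) := Real.sq_sqrt (by positivity)
    have h3 : 1 / √((n : ℝ) + 1) ≤ 2 * √((n : ℝ) + 1) - 2 * √(n : ℝ) := by
      rw [div_le_iff₀ h0]
      nlinarith
    push_cast
    linarith

theorem sum_grid (M : ℕ) (g : ℕ → ℝ) (hg : ∀ j, 0 ≤ g j) (t : Fin M) :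
    ∑ i : Fin M, g ((i : ℤ) - (t : ℤ)).natAbs ≤ g 0 + 2 * ∑ j ∈ Finset.range M, g (j + 1) := by
  have ht : (t : ℕ) < M := t.2
  have e0 : ∑ i : Fin M, g ((i : ℤ) - (t : ℤ)).natAbs
      = ∑ i ∈ Finset.range M, g ((i : ℤ) - (t : ℤ)).natAbs :=
    Fin.sum_univ_eq_sum_range (fun i => g ((i : ℤ) - (t : ℤ)).natAbs) M
  rw [e0, ← Finset.sum_range_add_sum_Ico _ ht.le, Finset.sum_Ico_eq_sum_range,
    ← Finset.sum_range_reflect]
  have e1 : ∑ j ∈ Finset.range (t : ℕ), g ((((t : ℕ) - 1 - j : ℕ) : ℤ) - (t : ℤ)).natAbs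
      = ∑ j ∈ Finset.range (t : ℕ), g (j + 1) := by
    refine Finset.sum_congr rfl fun j hj => ?_
    rw [Finset.mem_range] at hj
    congr 1
    omega
  have e2 : ∑ k ∈ Finset.range (M - t), g ((((t : ℕ) + k : ℕ) : ℤ) - (t : ℤ)).natAbs
      = ∑ j ∈ Finset.range (M - t), g j := by
    refine Finset.sum_congr rfl fun j hj => ?_
    congr 1
    omega
  rw [e1, e2]
  have h1 : ∑ j ∈ Finset.range (t : ℕ), g (j + 1) ≤ ∑ j ∈ Finset.range M, g (j + 1) :=
    Finset.sum_le_sum_of_subset_of_nonneg (Finset.range_mono ht.le) fun _ _ _ => hg _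
  have h2 : ∑ j ∈ Finset.range (M - t), g j ≤ g 0 + ∑ j ∈ Finset.range M, g (j + 1) := by
    have : ∑ j ∈ Finset.range (M - t), g j ≤ ∑ j ∈ Finset.range (M + 1), g j :=
      Finset.sum_le_sum_of_subset_of_nonneg (Finset.range_mono (by omega)) fun _ _ _ => hg _
    rw [Finset.sum_range_succ'] at this
    linarith
  linarith

theorem dst_pos {M : ℕ} (t t' : Fin M) : 0 < dst t t' := by
  have : 0 < M := lt_of_le_of_lt (Nat.zero_le _) t.2
  exact lt_of_lt_of_le (by positivity) (le_max_right _ _)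

theorem one_div_M_le_dst {M : ℕ} (t t' : Fin M) : 1 / (M : ℝ) ≤ dst t t' := le_max_right _ _

theorem ht_nonneg {M : ℕ} (t : Fin M) : 0 ≤ ht t := by unfold ht; positivity

theorem ht_lt_one {M : ℕ} (t : Fin M) : ht t < 1 := by
  have h : 0 < M := lt_of_le_of_lt (Nat.zero_le _) t.2
  unfold ht
  rw [div_lt_one (by exact_mod_cast h)]
  exact_mod_cast t.2

theorem dst_le_one {M : ℕ} (t t' : Fin M) : dst t t' ≤ 1 := by
  have h : 0 < M := lt_of_le_of_lt (Nat.zero_le _) t.2
  have h1 := ht_nonneg t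
  have h2 := ht_nonneg t'
  have h3 := ht_lt_one t
  have h4 := ht_lt_one t'
  refine max_le (abs_le.2 ⟨by linarith, by linarith⟩) ?_
  rw [div_le_one (by exact_mod_cast h)]
  exact_mod_cast h

theorem abs_le_dst {M : ℕ} (t t' : Fin M) : |ht t - ht t'| ≤ dst t t' := le_max_left _ _

theorem dst_eq_of_ne {M : ℕ} {t t' : Fin M} (h : t ≠ t') : dst t t' = |ht t - ht t'| := by
  have hM : 0 < M := lt_of_le_of_lt (Nat.zero_le _) t.2
  have hM' : (0 : ℝ) < M := by exact_mod_cast hM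
  unfold dst
  refine max_eq_left ?_
  unfold ht
  rw [← sub_div, abs_div, abs_of_pos hM']
  refine div_le_div_of_nonneg_right ?_ hM'.le
  have h1 : ((t : ℕ) : ℤ) - ((t' : ℕ) : ℤ) ≠ 0 := by
    intro h2
    apply h
    ext
    omega
  have h2 := Int.one_le_abs h1
  have h3 : ((1 : ℤ) : ℝ) ≤ ((|((t : ℕ) : ℤ) - ((t' : ℕ) : ℤ)| : ℤ) : ℝ) := by exact_mod_cast h2
  push_cast at h3
  exact h3

theorem dst_self {M : ℕ} (t : Fin M) : dst t t = 1 / M := by
  unfold dst
  rw [sub_self, abs_zero]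
  exact max_eq_right (by positivity)

theorem ht_ne_of_ne {M : ℕ} {t t' : Fin M} (h : t ≠ t') : ht t ≠ ht t' := by
  intro h1
  have h2 := dst_eq_of_ne h
  rw [h1, sub_self, abs_zero] at h2
  exact absurd h2 (dst_pos t t').ne'

/-- a height with large conditional entropy is far from the known heights -/
theorem close {M : ℕ} {p : Ω → ℝ} (hp : IsProb p) (r : Setoid Ω) (T T' : Ω → Fin M)
    (hT : ∀ ω ω', 0 < p ω → 0 < p ω' → r ω ω' → T ω = T ω') :
    ∑ ω, p ω * Real.log (1 / dst (T' ω) (T ω)) ≤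
      2 * (Real.log M + Real.log 5 - (Ent p (Setoid.ker T' ⊓ r) - Ent p r)) := by
  classical
  have hΩ : Nonempty Ω := by
    by_contra h
    rw [not_nonempty_iff] at h
    have := hp.2
    simp at this
  obtain ⟨ω0⟩ := hΩ
  have hM : 0 < M := lt_of_le_of_lt (Nat.zero_le _) (T ω0).2
  have hM' : (0 : ℝ) < M := by exact_mod_cast hM
  have h := gibbs hp r T' (fun ω t' => (5 * M * √(dst t' (T ω)))⁻¹) ?_ ?_ ?_ ?_
  · have e1 : ∑ ω, p ω * (-Real.log ((5 * M * √(dst (T' ω) (T ω)))⁻¹))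
        = Real.log M + Real.log 5 - (∑ ω, p ω * Real.log (1 / dst (T' ω) (T ω))) / 2 := by
      have e2 : ∀ ω, p ω * (-Real.log ((5 * M * √(dst (T' ω) (T ω)))⁻¹))
          = p ω * (Real.log M + Real.log 5) - p ω * Real.log (1 / dst (T' ω) (T ω)) / 2 := by
        intro ω
        have hd := dst_pos (T' ω) (T ω)
        rw [Real.log_inv, Real.log_mul (by positivity) (by positivity),
          Real.log_mul (by positivity) (by positivity), Real.log_sqrt hd.le, one_div, Real.log_inv]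
        ring
      simp only [e2, Finset.sum_sub_distrib]
      rw [← Finset.sum_mul, hp.2, ← Finset.sum_div]
      ring
    rw [e1] at h
    linarith
  · intro ω a
    positivity
  · intro ω ω' h1 h2 h3
    rw [hT ω ω' h1 h2 h3]
  · intro ω F
    refine (Finset.sum_le_sum_of_subset_of_nonneg (Finset.subset_univ F)
      (fun a _ _ => by positivity)).trans ?_
    set g : ℕ → ℝ := fun j => (5 * √M)⁻¹ * (if j = 0 then 1 else 1 / √(j : ℝ)) with hg
    have e3 : ∀ i : Fin M, (5 * M * √(dst i (T ω)))⁻¹ = g ((i : ℤ) - ((T ω : ℕ) : ℤ)).natAbs := by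
      intro i
      simp only [hg]
      by_cases h1 : i = T ω
      · rw [h1, dst_self, sub_self, Int.natAbs_zero, if_pos rfl, mul_one]
        congr 1
        rw [one_div, Real.sqrt_inv, mul_assoc, ← div_eq_mul_inv, Real.div_sqrt]
      · have hne : ((i : ℤ) - ((T ω : ℕ) : ℤ)).natAbs ≠ 0 := by
          intro h2
          apply h1
          ext
          omega
        rw [dst_eq_of_ne h1, if_neg hne]
        have e4 : |ht i - ht (T ω)| = ((((i : ℤ) - ((T ω : ℕ) : ℤ)).natAbs : ℕ) : ℝ) / M := by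
          unfold ht
          rw [← sub_div, abs_div, abs_of_pos hM', Nat.cast_natAbs]
          push_cast
          rfl
        rw [e4, Real.sqrt_div (Nat.cast_nonneg _)]
        have h5 : 0 < √((((i : ℤ) - ((T ω : ℕ) : ℤ)).natAbs : ℕ) : ℝ) :=
          Real.sqrt_pos.2 (by exact_mod_cast Nat.pos_of_ne_zero hne)
        have h6 : 0 < √(M : ℝ) := Real.sqrt_pos.2 hM'
        have h7 : (M : ℝ) = √M * √M := (Real.mul_self_sqrt hM'.le).symm
        rw [one_div, ← mul_inv]
        congr 1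
        rw [mul_div_assoc']
        rw [div_eq_iff h6.ne']
        nth_rewrite 1 [h7]
        ring
    have e5 : ∑ i : Fin M, (5 * M * √(dst i (T ω)))⁻¹
        = ∑ i : Fin M, g ((i : ℤ) - ((T ω : ℕ) : ℤ)).natAbs := Finset.sum_congr rfl fun i _ => e3 i
    rw [e5]
    have hg0 : ∀ j, 0 ≤ g j := by
      intro j
      simp only [hg]
      split_ifs <;> positivity
    refine (sum_grid M g hg0 (T ω)).trans ?_
    have e6 : ∑ j ∈ Finset.range M, g (j + 1)
        = (5 * √M)⁻¹ * ∑ j ∈ Finset.range M, 1 / √((j : ℝ) + 1) := by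
      rw [Finset.mul_sum]
      refine Finset.sum_congr rfl fun j _ => ?_
      simp only [hg]
      rw [if_neg (Nat.succ_ne_zero j)]
      push_cast
      rfl
    rw [e6]
    have e7 : g 0 = (5 * √M)⁻¹ := by simp [hg]
    rw [e7]
    have h8 : 1 ≤ √(M : ℝ) := by
      rw [Real.one_le_sqrt]
      exact_mod_cast hM
    have h9 := sum_inv_sqrt M
    have h10 : 0 < (5 * √(M : ℝ))⁻¹ := by positivity
    have h11 : (5 * √(M : ℝ))⁻¹ * (∑ j ∈ Finset.range M, 1 / √((j : ℝ) + 1)) ≤ (5 * √(M : ℝ))⁻¹ * (2 * √M) :=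
      mul_le_mul_of_nonneg_left h9 h10.le
    have h12 : (5 * √(M : ℝ))⁻¹ * (2 * √M) = 2 / 5 := by
      field_simp
    have h13 : (5 * √(M : ℝ))⁻¹ ≤ 1 / 5 := by
      rw [inv_eq_one_div, div_le_div_iff₀ (by positivity) (by norm_num)]
      linarith
    linarith
  · intro ω _
    have hd := dst_pos (T' ω) (T ω)
    positivity

/-- a height has entropy at most `log M` -/
theorem Ent_height_le {M : ℕ} {p : Ω → ℝ} (hp : IsProb p) (r : Setoid Ω) (T : Ω → Fin M) :
    Ent p (Setoid.ker T ⊓ r) - Ent p r ≤ Real.log M := by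
  classical
  have hΩ : Nonempty Ω := by
    by_contra h
    rw [not_nonempty_iff] at h
    have := hp.2
    simp at this
  obtain ⟨ω0⟩ := hΩ
  have hM : 0 < M := lt_of_le_of_lt (Nat.zero_le _) (T ω0).2
  have hM' : (0 : ℝ) < M := by exact_mod_cast hM
  have h := gibbs hp r T (fun _ _ => (M : ℝ)⁻¹) (fun _ _ => by positivity) (fun _ _ _ _ _ => rfl)
    (fun ω F => ?_) (fun _ _ => by positivity)
  · refine h.trans ?_
    rw [← Finset.sum_mul, hp.2, Real.log_inv, neg_neg, one_mul]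
  · rw [Finset.sum_const, nsmul_eq_mul, ← div_eq_mul_inv]
    refine div_le_one_of_le₀ ?_ hM'.le
    have := Finset.card_le_univ F
    rw [Fintype.card_fin] at this
    exact_mod_cast this

end Pool.Agent.Helper8.Kak
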