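import Mathlib

/-!
# Entropic sums-differences with random heights: definitions

`Ent p r` is the Shannon entropy (natural logarithm) of the partition of a finite probability space
`(Ω, p)` into the classes of `r`. `SD m α` is the sums-differences inequality with exponent `α` for
lines in `R^m x R` (a line is `t ↦ x + t v`), at an arbitrary scale `δ`, conditionally on an arbitrary
partition `K`, with the height `T` random.
-/

set_option autoImplicit false

namespace Pool.Agent.Helper8.Kak

open scoped Classical in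
/-- the mass of the class of `ω` -/
noncomputable def cls {Ω : Type} [Fintype Ω] (p : Ω → ℝ) (r : Setoid Ω) (ω : Ω) : ℝ :=
  ∑ ω', if r ω ω' then p ω' else 0

/-- Shannon entropy of the partition `r` -/
noncomputable def Ent {Ω : Type} [Fintype Ω] (p : Ω → ℝ) (r : Setoid Ω) : ℝ :=
  - ∑ ω, p ω * Real.log (cls p r ω)

/-- `p` is a probability -/
def IsProb {Ω : Type} [Fintype Ω] (p : Ω → ℝ) : Prop :=
  (∀ ω, 0 ≤ p ω) ∧ ∑ ω, p ω = 1

/-- the cell of side `δ` containing `u` -/
noncomputable def cell {m : ℕ} (δ : ℝ) (u : Fin m → ℝ) : Fin m → ℤ := fun i => ⌊u i / δ⌋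

/-- the height `t / M` of a grid index -/
noncomputable def ht {M : ℕ} (t : Fin M) : ℝ := (t : ℝ) / M

/-- the point of the line `l` at height `t` -/
noncomputable def pnt {m M : ℕ} {L : Type} (x v : L → Fin m → ℝ) (l : L) (t : Fin M) :
    Fin m → ℝ := fun i => x l i + ht t * v l i

/-- sums-differences inequality with exponent `α` for lines in dimension `m + 1` -/
def SD (m : ℕ) (α : ℝ) : Prop :=
  ∃ C : ℝ, 0 ≤ C ∧ ∀ (δ : ℝ) (M : ℕ), 0 < δ → δ ≤ 1 → 1 ≤ δ * M →
    ∀ (L : Type) (x v : L → Fin m → ℝ), (∀ l i, |x l i| ≤ 1) → (∀ l i, |v l i| ≤ 1) →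
      Function.Injective (fun l => cell δ (v l)) →
    ∀ (Ω : Type) [Fintype Ω] (p : Ω → ℝ), IsProb p →
    ∀ (K : Setoid Ω) (l : Ω → L) (T : Ω → Fin M),
      Ent p (K ⊓ Setoid.ker l) - Ent p K ≤
        α * (Ent p (K ⊓ Setoid.ker T ⊓ Setoid.ker (fun ω => cell δ (pnt x v (l ω) (T ω))))
              - Ent p (K ⊓ Setoid.ker T))
        + C * (Real.log M - (Ent p (K ⊓ Setoid.ker l ⊓ Setoid.ker T) - Ent p (K ⊓ Setoid.ker l))
              + 1)

end Pool.Agent.Helper8.Kak
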