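import Pool.Agent.Helper8.Kak.Defs

set_option autoImplicit false

namespace Pool.Agent.Helper8.Kak

open Finset

variable {Ω : Type} [Fintype Ω]

theorem cls_eq_sum_filter (p : Ω → ℝ) (r : Setoid Ω) (ω : Ω) [DecidablePred (fun ω' => r ω ω')] :
    cls p r ω = ∑ ω' ∈ univ.filter (fun ω' => r ω ω'), p ω' := by
  unfold cls
  rw [Finset.sum_filter]
  refine Finset.sum_congr rfl fun ω' _ => ?_
  congr

theorem cls_nonneg {p : Ω → ℝ} (hp : ∀ ω, 0 ≤ p ω) (r : Setoid Ω) (ω : Ω) : 0 ≤ cls p r ω := by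
  unfold cls
  refine Finset.sum_nonneg fun ω' _ => ?_
  split_ifs
  · exact hp _
  · exact le_rfl

theorem le_cls {p : Ω → ℝ} (hp : ∀ ω, 0 ≤ p ω) (r : Setoid Ω) (ω : Ω) : p ω ≤ cls p r ω := by
  classical
  unfold cls
  have h : (if r ω ω then p ω else 0) = p ω := if_pos (r.refl ω)
  calc p ω = (if r ω ω then p ω else 0) := h.symm
    _ ≤ ∑ ω', if r ω ω' then p ω' else 0 :=
      Finset.single_le_sum (f := fun ω' => if r ω ω' then p ω' else 0)
        (fun i _ => by split_ifs; exacts [hp _, le_rfl]) (mem_univ ω)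

theorem cls_pos {p : Ω → ℝ} (hp : ∀ ω, 0 ≤ p ω) (r : Setoid Ω) {ω : Ω} (h : 0 < p ω) :
    0 < cls p r ω := lt_of_lt_of_le h (le_cls hp r ω)

theorem cls_le_one {p : Ω → ℝ} (hp : IsProb p) (r : Setoid Ω) (ω : Ω) : cls p r ω ≤ 1 := by
  rw [← hp.2]
  unfold cls
  refine Finset.sum_le_sum fun ω' _ => ?_
  split_ifs
  · exact le_rfl
  · exact hp.1 _

theorem cls_mono {p : Ω → ℝ} (hp : ∀ ω, 0 ≤ p ω) {r s : Setoid Ω} (h : r ≤ s) (ω : Ω) :
    cls p r ω ≤ cls p s ω := by
  unfold cls
  refine Finset.sum_le_sum fun ω' _ => ?_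
  by_cases h1 : r ω ω'
  · rw [if_pos h1, if_pos (h h1)]
  · rw [if_neg h1]
    split_ifs
    · exact hp _
    · exact le_rfl

open scoped Classical in
theorem cls_congr {p : Ω → ℝ} {r : Setoid Ω} {ω ω' : Ω} (h : r ω ω') :
    cls p r ω = cls p r ω' := by
  unfold cls
  refine Finset.sum_congr rfl fun x _ => ?_
  have h2 : r ω x ↔ r ω' x := ⟨fun h1 => r.trans (r.symm h) h1, fun h1 => r.trans h h1⟩
  exact if_congr h2 rfl rfl

/-- coarser partitions have smaller entropy (inclusion needed on the support only) -/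
theorem Ent_mono' {p : Ω → ℝ} (hp : IsProb p) {r s : Setoid Ω}
    (h : ∀ ω ω', 0 < p ω → 0 < p ω' → r ω ω' → s ω ω') : Ent p s ≤ Ent p r := by
  unfold Ent
  rw [neg_le_neg_iff]
  refine Finset.sum_le_sum fun ω _ => ?_
  rcases (hp.1 ω).eq_or_lt with h0 | h0
  · rw [← h0]; simp
  · refine mul_le_mul_of_nonneg_left (Real.log_le_log (cls_pos hp.1 r h0) ?_) h0.le
    unfold cls
    refine Finset.sum_le_sum fun ω' _ => ?_
    by_cases h1 : r ω ω'
    · rw [if_pos h1]
      rcases (hp.1 ω').eq_or_lt with h0' | h0'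
      · rw [← h0']
        split_ifs <;> exact le_rfl
      · rw [if_pos (h ω ω' h0 h0' h1)]
    · rw [if_neg h1]
      split_ifs
      · exact hp.1 _
      · exact le_rfl

/-- coarser partitions have smaller entropy -/
theorem Ent_mono {p : Ω → ℝ} (hp : IsProb p) {r s : Setoid Ω} (h : r ≤ s) :
    Ent p s ≤ Ent p r := Ent_mono' hp fun _ _ _ _ h1 => h h1

theorem Ent_nonneg {p : Ω → ℝ} (hp : IsProb p) (r : Setoid Ω) : 0 ≤ Ent p r := by
  unfold Ent
  rw [neg_nonneg]
  refine Finset.sum_nonpos fun ω _ => ?_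
  exact mul_nonpos_of_nonneg_of_nonpos (hp.1 ω)
    (Real.log_nonpos (cls_nonneg hp.1 r ω) (cls_le_one hp r ω))

theorem Ent_top {p : Ω → ℝ} (hp : IsProb p) : Ent p ⊤ = 0 := by
  unfold Ent
  have : ∀ ω, cls p ⊤ ω = 1 := by
    intro ω
    unfold cls
    rw [← hp.2]
    refine Finset.sum_congr rfl fun ω' _ => ?_
    rw [if_pos]
    trivial
  simp [this]

/-- the Gibbs inequality for conditional entropy -/
theorem gibbs {A : Type} {p : Ω → ℝ} (hp : IsProb p) (r : Setoid Ω) (X : Ω → A) (q : Ω → A → ℝ)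
    (hq0 : ∀ ω a, 0 ≤ q ω a) (hqm : ∀ ω ω', 0 < p ω → 0 < p ω' → r ω ω' → q ω = q ω')
    (hq1 : ∀ ω (F : Finset A), ∑ a ∈ F, q ω a ≤ 1) (hqp : ∀ ω, 0 < p ω → 0 < q ω (X ω)) :
    Ent p (Setoid.ker X ⊓ r) - Ent p r ≤ ∑ ω, p ω * (- Real.log (q ω (X ω))) := by
  classical
  set J : Ω → ℝ := fun ω => cls p (Setoid.ker X ⊓ r) ω with hJ
  set R : Ω → ℝ := fun ω => cls p r ω with hR
  set W : Ω → A → ℝ := fun ω' a => ∑ ω'', if (X ω'' = a ∧ r ω' ω'') then p ω'' else 0 with hW
  have hW0 : ∀ ω' a, 0 ≤ W ω' a := fun ω' a => Finset.sum_nonneg fun i _ => by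
    split_ifs; exacts [hp.1 _, le_rfl]
  -- the block of ω inside the class of ω'
  have hJW : ∀ ω ω' , r ω ω' → J ω = W ω' (X ω) := by
    intro ω ω' h
    simp only [hJ, hW, cls]
    refine Finset.sum_congr rfl fun x _ => ?_
    have : (Setoid.ker X ⊓ r) ω x ↔ (X x = X ω ∧ r ω' x) := by
      constructor
      · rintro ⟨h1, h2⟩
        exact ⟨h1.symm, r.trans (r.symm h) h2⟩
      · rintro ⟨h1, h2⟩
        exact ⟨h1.symm, r.trans h h2⟩
    exact if_congr this rfl rfl
  -- main counting bound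
  have key : ∑ ω, p ω * (q ω (X ω) * R ω / J ω) ≤ 1 := by
    have e1 : ∀ ω, p ω * (q ω (X ω) * R ω / J ω)
        = ∑ ω', p ω' * (if r ω ω' then p ω * q ω' (X ω) / W ω' (X ω) else 0) := by
      intro ω
      have : R ω = ∑ ω', if r ω ω' then p ω' else 0 := rfl
      rw [this, Finset.mul_sum, Finset.sum_div, Finset.mul_sum]
      refine Finset.sum_congr rfl fun ω' _ => ?_
      by_cases h : r ω ω'
      · rw [if_pos h, if_pos h]
        rcases (hp.1 ω).eq_or_lt with h0 | h0
        · rw [← h0]; simp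
        rcases (hp.1 ω').eq_or_lt with h0' | h0'
        · rw [← h0']; simp
        rw [hqm ω ω' h0 h0' h, hJW ω ω' h]
        ring
      · rw [if_neg h, if_neg h]
        simp
    simp only [e1]
    rw [Finset.sum_comm]
    rw [← hp.2]
    refine Finset.sum_le_sum fun ω' _ => ?_
    rw [← Finset.mul_sum]
    refine mul_le_of_le_one_right (hp.1 ω') ?_
    have e2 : ∀ ω, (if r ω ω' then p ω * q ω' (X ω) / W ω' (X ω) else 0)
        = ∑ a ∈ univ.image X, if (X ω = a ∧ r ω' ω) then q ω' a * (p ω / W ω' a) else 0 := by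
      intro ω
      rw [Finset.sum_eq_single (X ω)]
      · by_cases h : r ω ω'
        · rw [if_pos h, if_pos ⟨rfl, r.symm h⟩]; ring
        · rw [if_neg h, if_neg (fun h1 => h (r.symm h1.2))]
      · intro b _ hb
        rw [if_neg (fun h1 => hb h1.1.symm)]
      · intro h
        exact absurd (mem_image_of_mem X (mem_univ ω)) h
    simp only [e2]
    rw [Finset.sum_comm]
    calc ∑ a ∈ univ.image X, ∑ ω, (if (X ω = a ∧ r ω' ω) then q ω' a * (p ω / W ω' a) else 0)
        ≤ ∑ a ∈ univ.image X, q ω' a := by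
          refine Finset.sum_le_sum fun a _ => ?_
          have e3 : ∑ ω, (if (X ω = a ∧ r ω' ω) then q ω' a * (p ω / W ω' a) else 0)
              = q ω' a * (W ω' a / W ω' a) := by
            have : W ω' a / W ω' a = ∑ ω, (if (X ω = a ∧ r ω' ω) then p ω else 0) / W ω' a := by
              rw [← Finset.sum_div]
            rw [this, Finset.mul_sum]
            refine Finset.sum_congr rfl fun ω _ => ?_
            split_ifs
            · rfl
            · simp
          rw [e3]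
          exact mul_le_of_le_one_right (hq0 _ _) (div_self_le_one _)
      _ ≤ 1 := hq1 ω' _
  -- pointwise estimate
  have pw : ∀ ω, p ω * (-Real.log (J ω)) - p ω * (-Real.log (R ω)) - p ω * (-Real.log (q ω (X ω)))
      ≤ p ω * (q ω (X ω) * R ω / J ω) - p ω := by
    intro ω
    rcases (hp.1 ω).eq_or_lt with h0 | h0
    · rw [← h0]; simp
    · have j0 : 0 < J ω := cls_pos hp.1 _ h0
      have r0 : 0 < R ω := cls_pos hp.1 _ h0
      have q0 := hqp ω h0
      have hl : Real.log (q ω (X ω) * R ω / J ω) = Real.log (q ω (X ω)) + Real.log (R ω)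
          - Real.log (J ω) := by
        rw [Real.log_div (by positivity) j0.ne', Real.log_mul q0.ne' r0.ne']
      have hle := Real.log_le_sub_one_of_pos (show 0 < q ω (X ω) * R ω / J ω by positivity)
      rw [hl] at hle
      nlinarith [mul_le_mul_of_nonneg_left hle h0.le]
  have hs := Finset.sum_le_sum fun ω (_ : ω ∈ (univ : Finset Ω)) => pw ω
  simp only [Finset.sum_sub_distrib] at hs
  unfold Ent
  have hp1 := hp.2
  simp only [hJ, hR] at hs key
  have e5 : ∀ g : Ω → ℝ, ∑ ω, p ω * -Real.log (g ω) = - ∑ ω, p ω * Real.log (g ω) := by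
    intro g
    rw [← Finset.sum_neg_distrib]
    exact Finset.sum_congr rfl fun _ _ => by ring
  rw [e5, e5] at hs
  linarith

/-- conditioning reduces entropy (strong subadditivity), function form -/
theorem submod_fun {A : Type} {p : Ω → ℝ} (hp : IsProb p) (X : Ω → A) (s t : Setoid Ω) :
    Ent p (Setoid.ker X ⊓ (s ⊓ t)) - Ent p (s ⊓ t) ≤ Ent p (Setoid.ker X ⊓ t) - Ent p t := by
  classical
  set q : Ω → A → ℝ := fun ω a => (∑ ω', if (X ω' = a ∧ t ω ω') then p ω' else 0) / cls p t ω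
    with hq
  have hqX : ∀ ω, q ω (X ω) = cls p (Setoid.ker X ⊓ t) ω / cls p t ω := by
    intro ω
    simp only [hq, cls]
    congr 1
    refine Finset.sum_congr rfl fun x _ => ?_
    have : (X x = X ω ∧ t ω x) ↔ (Setoid.ker X ⊓ t) ω x := by
      exact ⟨fun h => ⟨h.1.symm, h.2⟩, fun h => ⟨h.1.symm, h.2⟩⟩
    exact if_congr this rfl rfl
  have h := gibbs hp (s ⊓ t) X q ?_ ?_ ?_ ?_
  · refine h.trans ?_
    unfold Ent
    rw [sub_neg_eq_add, neg_add_eq_sub, ← Finset.sum_sub_distrib]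
    refine Finset.sum_le_sum fun ω _ => ?_
    rcases (hp.1 ω).eq_or_lt with h0 | h0
    · rw [← h0]; simp
    · rw [hqX, Real.log_div (cls_pos hp.1 _ h0).ne' (cls_pos hp.1 _ h0).ne']
      apply le_of_eq; ring
  · intro ω a
    refine div_nonneg (Finset.sum_nonneg fun i _ => ?_) (cls_nonneg hp.1 _ _)
    split_ifs
    exacts [hp.1 _, le_rfl]
  · intro ω ω' _ _ h
    funext a
    have ht : t ω ω' := h.2
    simp only [hq]
    rw [cls_congr ht]
    congr 1
    refine Finset.sum_congr rfl fun x _ => ?_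
    have h2 : t ω x ↔ t ω' x := ⟨fun h1 => t.trans (t.symm ht) h1, fun h1 => t.trans ht h1⟩
    exact if_congr (by rw [h2]) rfl rfl
  · intro ω F
    simp only [hq]
    rw [← Finset.sum_div]
    refine div_le_one_of_le₀ ?_ (cls_nonneg hp.1 _ _)
    rw [Finset.sum_comm]
    unfold cls
    refine Finset.sum_le_sum fun x _ => ?_
    by_cases h : t ω x
    · rw [if_pos h]
      calc ∑ a ∈ F, (if (X x = a ∧ t ω x) then p x else 0)
          ≤ ∑ a ∈ F, if (X x = a) then p x else 0 := by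
            refine Finset.sum_le_sum fun a _ => ?_
            by_cases h1 : X x = a
            · simp [h1, h]
            · simp [h1]
        _ ≤ p x := by
            rw [Finset.sum_ite_eq]
            split_ifs
            exacts [le_rfl, hp.1 _]
    · simp [h]
  · intro ω h0
    rw [hqX]
    exact div_pos (cls_pos hp.1 _ h0) (cls_pos hp.1 _ h0)

/-- strong subadditivity -/
theorem submod {p : Ω → ℝ} (hp : IsProb p) (r s t : Setoid Ω) :
    Ent p (r ⊓ (s ⊓ t)) + Ent p t ≤ Ent p (r ⊓ t) + Ent p (s ⊓ t) := by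
  have h := submod_fun hp (fun ω => (Quotient.mk r ω)) s t
  have e : Setoid.ker (fun ω => Quotient.mk r ω) = r := by
    ext a b
    exact Quotient.eq
  rw [e] at h
  linarith

end Pool.Agent.Helper8.Kak
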