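import Mathlib

/-!
# Algebra of the improved step
-/

set_option autoImplicit false

namespace Pool.Agent.Helper8.Kak

/-- denominator of the improved map, `γ = β - 1` -/
noncomputable def den6 (γ : ℝ) : ℝ :=
  5 * γ ^ 5 + 41 * γ ^ 4 + 83 * γ ^ 3 + 78 * γ ^ 2 + 35 * γ + 6

/-- numerator of the improved map -/
noncomputable def num6 (γ : ℝ) : ℝ :=
  13 * γ ^ 5 + 77 * γ ^ 4 + 145 * γ ^ 3 + 129 * γ ^ 2 + 55 * γ + 9

/-- the elimination: `a, h` base system, `e, g` second system -/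
theorem F6_algebra {β γ a h L om ze sg e g L2 om2 ze2 X E : ℝ} (hγ : γ = β - 1) (h0 : 0 < γ)
    (h1 : γ ≤ 1) (hE : 0 ≤ E)
    (A : L ≤ 2 * h)
    (B : 2 * a - h - om ≤ β * (L - om) + E)
    (C : a - h + L ≤ ze + sg + E)
    (s : sg ≤ h)
    (D : 3 * a - 2 * h ≤ ze + e + E)
    (F : g ≤ h + om - ze + E)
    (A2 : L2 ≤ 2 * g)
    (B2 : 2 * e - g - om2 ≤ β * (L2 - om2) + E)
    (Z2 : γ * ze2 ≤ β * (g + om2) - (3 * e - 2 * g) + E)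
    (XX : 2 * e - 2 * g + L2 - X ≤ β * (g + ze2 - X) + E)
    (FF : e + β * ((a - h) + sg - (2 * g - L2)) ≤ β * (h + X) + E) :
    den6 γ * a ≤ num6 γ * h + 300 * E := by
  obtain rfl : β = 1 + γ := by linarith
  -- multipliers
  have m1 := mul_le_mul_of_nonneg_left FF (by positivity : 0 ≤ γ ^ 4)
  have m2 := mul_le_mul_of_nonneg_left C (by positivity : 0 ≤ (1 + γ) * γ ^ 4)
  have m3 := mul_le_mul_of_nonneg_left XX (by positivity : 0 ≤ (1 + γ) * γ ^ 3)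
  have m4 := mul_le_mul_of_nonneg_left Z2 (by positivity : 0 ≤ (1 + γ) ^ 2 * γ ^ 2)
  have m5 := mul_le_mul_of_nonneg_left B2 (by positivity : 0 ≤ (1 + γ) ^ 3 * γ)
  have m6 := mul_le_mul_of_nonneg_left A2
    (by nlinarith [pow_pos h0 2, pow_pos h0 3, pow_pos h0 4, pow_pos h0 5] :
      0 ≤ γ * ((1 + γ) ^ 4 - (1 + γ) ^ 2 * γ ^ 2))
  have m7 := mul_le_mul_of_nonneg_left D
    (by positivity : 0 ≤ γ * (8 * γ ^ 3 + 14 * γ ^ 2 + 9 * γ + 2))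
  have m8 := mul_le_mul_of_nonneg_left F
    (by positivity : 0 ≤ γ * (3 + 14 * γ + 23 * γ ^ 2 + 16 * γ ^ 3 + 4 * γ ^ 4))
  have m9 := mul_le_mul_of_nonneg_left B
    (by positivity : 0 ≤ 3 + 14 * γ + 23 * γ ^ 2 + 16 * γ ^ 3 + 4 * γ ^ 4)
  have Cs : a - 2 * h + L - ze ≤ E := by linarith
  have m10 := mul_le_mul_of_nonneg_left Cs
    (by positivity : 0 ≤ γ * (1 + 5 * γ + 9 * γ ^ 2 + 7 * γ ^ 3 + 3 * γ ^ 4))
  have m11 := mul_le_mul_of_nonneg_left A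
    (by positivity : 0 ≤ (3 + 14 * γ + 23 * γ ^ 2 + 16 * γ ^ 3 + 4 * γ ^ 4)
      + γ * (8 * γ ^ 3 + 14 * γ ^ 2 + 9 * γ + 2))
  unfold den6 num6
  have p2 : γ ^ 2 ≤ 1 := pow_le_one₀ h0.le h1
  have p3 : γ ^ 3 ≤ 1 := pow_le_one₀ h0.le h1
  have p4 : γ ^ 4 ≤ 1 := pow_le_one₀ h0.le h1
  have p5 : γ ^ 5 ≤ 1 := pow_le_one₀ h0.le h1
  have q1 := mul_le_mul_of_nonneg_right h1 hE
  have q2 := mul_le_mul_of_nonneg_right p2 hE
  have q3 := mul_le_mul_of_nonneg_right p3 hE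
  have q4 := mul_le_mul_of_nonneg_right p4 hE
  have q5 := mul_le_mul_of_nonneg_right p5 hE
  linarith

end Pool.Agent.Helper8.Kak
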