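import Pool.Agent.Helper8.Kak.Ent

set_option autoImplicit false

namespace Pool.Agent.Helper8.Kak

open Finset

open scoped Classical in
/-- law of a random variable -/
noncomputable def law {Ω A : Type} [Fintype Ω] (p : Ω → ℝ) (X : Ω → A) (a : A) : ℝ :=
  ∑ ω, if X ω = a then p ω else 0

/-- measure preserving maps -/
def MP {A B : Type} [Fintype A] (pA : A → ℝ) (pB : B → ℝ) (φ : A → B) : Prop :=
  ∀ b, law pA φ b = pB b

theorem law_nonneg {Ω A : Type} [Fintype Ω] {p : Ω → ℝ} (hp : ∀ ω, 0 ≤ p ω) (X : Ω → A) (a : A) :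
    0 ≤ law p X a := by
  unfold law
  refine Finset.sum_nonneg fun ω _ => ?_
  split_ifs
  exacts [hp _, le_rfl]

open scoped Classical in
theorem law_eq_cls {Ω A : Type} [Fintype Ω] (p : Ω → ℝ) (X : Ω → A) (ω : Ω) :
    law p X (X ω) = cls p (Setoid.ker X) ω := by
  unfold law cls
  refine Finset.sum_congr rfl fun x _ => ?_
  have : X x = X ω ↔ (Setoid.ker X) ω x := eq_comm
  exact if_congr this rfl rfl

theorem MP.sum_comp {A B : Type} [Fintype A] [Fintype B] {pA : A → ℝ} {pB : B → ℝ} {φ : A → B}
    (h : MP pA pB φ) (F : B → ℝ) : ∑ a, pA a * F (φ a) = ∑ b, pB b * F b := by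
  classical
  have e : ∀ b, pB b * F b = ∑ a, if φ a = b then pA a * F (φ a) else 0 := by
    intro b
    rw [← h b, law, Finset.sum_mul]
    refine Finset.sum_congr rfl fun a _ => ?_
    by_cases h1 : φ a = b
    · rw [if_pos h1, if_pos h1, h1]
    · rw [if_neg h1, if_neg h1, zero_mul]
  simp only [e]
  rw [Finset.sum_comm]
  refine Finset.sum_congr rfl fun a _ => ?_
  simp

theorem MP.isProb {A B : Type} [Fintype A] [Fintype B] {pA : A → ℝ} {pB : B → ℝ} {φ : A → B}
    (h : MP pA pB φ) (hA : IsProb pA) : IsProb pB := by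
  constructor
  · intro b
    rw [← h b]
    exact law_nonneg hA.1 _ _
  · have := h.sum_comp (fun _ => 1)
    simp only [mul_one] at this
    rw [← this, hA.2]

theorem MP.pos {A B : Type} [Fintype A] {pA : A → ℝ} {pB : B → ℝ} {φ : A → B}
    (h : MP pA pB φ) (hA : ∀ a, 0 ≤ pA a) {a : A} (ha : 0 < pA a) : 0 < pB (φ a) := by
  rw [← h, law_eq_cls]
  exact cls_pos hA _ ha

open scoped Classical in
theorem MP.cls_eq {A B : Type} [Fintype A] [Fintype B] {pA : A → ℝ} {pB : B → ℝ} {φ : A → B}
    (h : MP pA pB φ) (r : Setoid B) (a : A) : cls pA (Setoid.comap φ r) a = cls pB r (φ a) := by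
  have e := h.sum_comp (fun b => if r (φ a) b then 1 else 0)
  have e1 : cls pA (Setoid.comap φ r) a = ∑ ω', pA ω' * (if r (φ a) (φ ω') then 1 else 0) := by
    unfold cls
    refine Finset.sum_congr rfl fun x _ => ?_
    have : (Setoid.comap φ r) a x ↔ r (φ a) (φ x) := Iff.rfl
    by_cases h1 : r (φ a) (φ x)
    · rw [if_pos h1, if_pos (this.2 h1), mul_one]
    · rw [if_neg h1, if_neg (fun h2 => h1 (this.1 h2)), mul_zero]
  rw [e1, e]
  unfold cls
  refine Finset.sum_congr rfl fun x _ => ?_
  by_cases h1 : r (φ a) x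
  · rw [if_pos h1, if_pos h1, mul_one]
  · rw [if_neg h1, if_neg h1, mul_zero]

theorem MP.Ent_eq {A B : Type} [Fintype A] [Fintype B] {pA : A → ℝ} {pB : B → ℝ} {φ : A → B}
    (h : MP pA pB φ) (r : Setoid B) : Ent pA (Setoid.comap φ r) = Ent pB r := by
  unfold Ent
  rw [← h.sum_comp]
  simp only [h.cls_eq]

theorem MP.law_eq {A B C : Type} [Fintype A] [Fintype B] {pA : A → ℝ} {pB : B → ℝ} {φ : A → B}
    (h : MP pA pB φ) (X : B → C) (c : C) : law pA (X ∘ φ) c = law pB X c := by
  classical
  have e := h.sum_comp (fun b => if X b = c then 1 else 0)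
  simp only [mul_ite, mul_one, mul_zero] at e
  unfold law
  rw [← Finset.sum_congr rfl (fun x _ => if_congr (Iff.refl (X x = c)) rfl rfl), ← e]
  refine Finset.sum_congr rfl fun x _ => ?_
  congr

theorem MP.comp {A B C : Type} [Fintype A] [Fintype B] {pA : A → ℝ} {pB : B → ℝ} {pC : C → ℝ}
    {φ : A → B} {ψ : B → C} (h : MP pA pB φ) (h' : MP pB pC ψ) : MP pA pC (ψ ∘ φ) := by
  intro c
  rw [h.law_eq, h' c]

open scoped Classical in
/-- conditionally independent gluing of two probability spaces over a common variable -/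
noncomputable def glue {A B C : Type} [Fintype A] (pA : A → ℝ) (pB : B → ℝ) (f : A → C)
    (g : B → C) : A × B → ℝ :=
  fun x => if f x.1 = g x.2 then pA x.1 * pB x.2 / law pA f (f x.1) else 0

section

variable {A B C : Type} [Fintype A] [Fintype B] {pA : A → ℝ} {pB : B → ℝ} {f : A → C} {g : B → C}

omit [Fintype B] in
theorem glue_nonneg (hA : ∀ a, 0 ≤ pA a) (hB : ∀ b, 0 ≤ pB b) (x : A × B) :
    0 ≤ glue pA pB f g x := by
  unfold glue
  split_ifs
  · exact div_nonneg (mul_nonneg (hA _) (hB _)) (law_nonneg hA _ _)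
  · exact le_rfl

omit [Fintype B] in
theorem glue_link {x : A × B} (h : 0 < glue pA pB f g x) : f x.1 = g x.2 := by
  by_contra h1
  unfold glue at h
  rw [if_neg h1] at h
  exact lt_irrefl _ h

theorem glue_sum_right (hA : ∀ a, 0 ≤ pA a) (hfg : ∀ c, law pA f c = law pB g c) (a : A) :
    ∑ b, glue pA pB f g (a, b) = pA a := by
  classical
  rcases (hA a).eq_or_lt with h0 | h0
  · rw [← h0]
    refine Finset.sum_eq_zero fun b _ => ?_
    unfold glue
    simp [← h0]
  · have hl : 0 < law pA f (f a) := by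
      rw [law_eq_cls]
      exact cls_pos hA _ h0
    have e : ∀ b, glue pA pB f g (a, b) = pA a / law pA f (f a) * (if g b = f a then pB b else 0) := by
      intro b
      unfold glue
      by_cases h1 : g b = f a
      · rw [if_pos h1.symm, if_pos h1]; ring
      · rw [if_neg (fun h2 => h1 h2.symm), if_neg h1, mul_zero]
    simp only [e]
    rw [← Finset.mul_sum]
    have e2 : ∑ b, (if g b = f a then pB b else 0) = law pB g (f a) := by
      unfold law
      refine Finset.sum_congr rfl fun x _ => ?_
      congr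
    rw [e2, ← hfg, div_mul_cancel₀ _ hl.ne']

theorem glue_sum_left (hB : ∀ b, 0 ≤ pB b) (hfg : ∀ c, law pA f c = law pB g c) (b : B) :
    ∑ a, glue pA pB f g (a, b) = pB b := by
  classical
  rcases (hB b).eq_or_lt with h0 | h0
  · rw [← h0]
    refine Finset.sum_eq_zero fun a _ => ?_
    unfold glue
    simp [← h0]
  · have hl : 0 < law pB g (g b) := by
      rw [law_eq_cls]
      exact cls_pos hB _ h0
    have e : ∀ a, glue pA pB f g (a, b) = pB b / law pB g (g b) * (if f a = g b then pA a else 0) := by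
      intro a
      unfold glue
      by_cases h1 : f a = g b
      · rw [if_pos h1, if_pos h1]
        simp only
        rw [h1, hfg]
        ring
      · rw [if_neg h1, if_neg h1, mul_zero]
    simp only [e]
    rw [← Finset.mul_sum]
    have e2 : ∑ a, (if f a = g b then pA a else 0) = law pA f (g b) := by
      unfold law
      refine Finset.sum_congr rfl fun x _ => ?_
      congr
    rw [e2, hfg, div_mul_cancel₀ _ hl.ne']

theorem glue_fst (hA : ∀ a, 0 ≤ pA a) (hfg : ∀ c, law pA f c = law pB g c) :
    MP (glue pA pB f g) pA Prod.fst := by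
  classical
  intro a
  unfold law
  rw [Fintype.sum_prod_type]
  rw [Finset.sum_eq_single a]
  · rw [← glue_sum_right hA hfg a]
    refine Finset.sum_congr rfl fun b _ => ?_
    rw [if_pos rfl]
  · intro a' _ h
    refine Finset.sum_eq_zero fun b _ => ?_
    rw [if_neg h]
  · intro h
    exact absurd (mem_univ a) h

theorem glue_snd (hB : ∀ b, 0 ≤ pB b) (hfg : ∀ c, law pA f c = law pB g c) :
    MP (glue pA pB f g) pB Prod.snd := by
  classical
  intro b
  unfold law
  rw [Fintype.sum_prod_type, Finset.sum_comm]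
  rw [Finset.sum_eq_single b]
  · rw [← glue_sum_left (pA := pA) (f := f) hB hfg b]
    refine Finset.sum_congr rfl fun a _ => ?_
    rw [if_pos rfl]
  · intro b' _ h
    refine Finset.sum_eq_zero fun a _ => ?_
    rw [if_neg h]
  · intro h
    exact absurd (mem_univ b) h

theorem glue_isProb (hA : IsProb pA) (hB : IsProb pB) (hfg : ∀ c, law pA f c = law pB g c) :
    IsProb (glue pA pB f g) := by
  refine ⟨glue_nonneg hA.1 hB.1, ?_⟩
  rw [Fintype.sum_prod_type, ← hA.2]
  exact Finset.sum_congr rfl fun a _ => glue_sum_right hA.1 hfg a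

/-- entropy of a glued space -/
theorem Ent_glue (hA : IsProb pA) (hB : IsProb pB) (hfg : ∀ c, law pA f c = law pB g c)
    (r : Setoid A) (s : Setoid B) (hr : ∀ a a', 0 < pA a → 0 < pA a' → r a a' → f a = f a')
    (hs : ∀ b b', 0 < pB b → 0 < pB b' → s b b' → g b = g b') :
    Ent (glue pA pB f g) (Setoid.comap Prod.fst r ⊓ Setoid.comap Prod.snd s)
      = Ent pA r + Ent pB s - Ent pA (Setoid.ker f) := by
  classical
  have h1 := glue_fst (pB := pB) hA.1 hfg
  have h2 := glue_snd (pA := pA) (f := f) hB.1 hfg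
  have hc : ∀ x, 0 < glue pA pB f g x →
      cls (glue pA pB f g) (Setoid.comap Prod.fst r ⊓ Setoid.comap Prod.snd s) x
        = cls pA r x.1 * cls pB s x.2 / cls pA (Setoid.ker f) x.1 := by
    rintro ⟨a, b⟩ hx
    have hlink : f a = g b := glue_link hx
    have ha : 0 < pA a := h1.pos (glue_nonneg hA.1 hB.1) hx
    have hb : 0 < pB b := h2.pos (glue_nonneg hA.1 hB.1) hx
    simp only
    rw [← law_eq_cls]
    unfold cls
    rw [Fintype.sum_prod_type, Finset.sum_mul_sum, Finset.sum_div]
    refine Finset.sum_congr rfl fun a' _ => ?_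
    rw [Finset.sum_div]
    refine Finset.sum_congr rfl fun b' _ => ?_
    by_cases h3 : r a a'
    · by_cases h4 : s b b'
      · have h5 : (Setoid.comap Prod.fst r ⊓ Setoid.comap Prod.snd s) (a, b) (a', b') := ⟨h3, h4⟩
        rw [if_pos h3, if_pos h4, if_pos h5]
        rcases (hA.1 a').eq_or_lt with h6 | h6
        · unfold glue; simp [← h6]
        rcases (hB.1 b').eq_or_lt with h7 | h7
        · unfold glue; simp [← h7]
        have h8 := hr a a' ha h6 h3
        have h9 := hs b b' hb h7 h4
        have h10 : f a' = g b' := by rw [← h8, ← h9, hlink]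
        unfold glue
        rw [if_pos h10, ← h8]
      · have h5 : ¬ (Setoid.comap Prod.fst r ⊓ Setoid.comap Prod.snd s) (a, b) (a', b') :=
          fun h6 => h4 h6.2
        rw [if_neg h4, if_neg h5]
        simp
    · have h5 : ¬ (Setoid.comap Prod.fst r ⊓ Setoid.comap Prod.snd s) (a, b) (a', b') :=
        fun h6 => h3 h6.1
      rw [if_neg h3, if_neg h5]
      simp
  have e1 : ∀ x, glue pA pB f g x * Real.log (cls (glue pA pB f g)
      (Setoid.comap Prod.fst r ⊓ Setoid.comap Prod.snd s) x)
      = glue pA pB f g x * Real.log (cls pA r x.1) + glue pA pB f g x * Real.log (cls pB s x.2)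
        - glue pA pB f g x * Real.log (cls pA (Setoid.ker f) x.1) := by
    intro x
    rcases (glue_nonneg (f := f) (g := g) hA.1 hB.1 x).eq_or_lt with h0 | h0
    · rw [← h0]; ring
    · have ha : 0 < pA x.1 := h1.pos (glue_nonneg hA.1 hB.1) h0
      have hb : 0 < pB x.2 := h2.pos (glue_nonneg hA.1 hB.1) h0
      have c1 := cls_pos hA.1 r ha
      have c2 := cls_pos hB.1 s hb
      have c3 := cls_pos hA.1 (Setoid.ker f) ha
      rw [hc x h0, Real.log_div (by positivity) c3.ne', Real.log_mul c1.ne' c2.ne']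
      ring
  have s1 := h1.sum_comp (fun a => Real.log (cls pA r a))
  have s2 := h2.sum_comp (fun b => Real.log (cls pB s b))
  have s3 := h1.sum_comp (fun a => Real.log (cls pA (Setoid.ker f) a))
  unfold Ent
  simp only [e1, Finset.sum_sub_distrib, Finset.sum_add_distrib]
  rw [s1, s2, s3]
  ring

/-- functoriality of gluing -/
theorem glue_map {A' B' : Type} [Fintype A'] [Fintype B'] {pA' : A' → ℝ} {pB' : B' → ℝ}
    {f' : A' → C} {g' : B' → C} {φ : A → A'} {ψ : B → B'} (hφ : MP pA pA' φ) (hψ : MP pB pB' ψ)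
    (hf : f = f' ∘ φ) (hg : g = g' ∘ ψ) :
    MP (glue pA pB f g) (glue pA' pB' f' g') (Prod.map φ ψ) := by
  classical
  rintro ⟨a', b'⟩
  unfold law
  rw [Fintype.sum_prod_type]
  have e3 : (∑ a, if φ a = a' then pA a else 0) = pA' a' := by
    rw [← hφ a']
    unfold law
    refine Finset.sum_congr rfl fun x _ => ?_
    congr
  have e4 : (∑ b, if ψ b = b' then pB b else 0) = pB' b' := by
    rw [← hψ b']
    unfold law
    refine Finset.sum_congr rfl fun x _ => ?_
    congr
  have e2 : ∑ a, ∑ b, (if f' a' = g' b' then 1 / law pA' f' (f' a') else 0)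
      * ((if φ a = a' then pA a else 0) * (if ψ b = b' then pB b else 0))
      = (if f' a' = g' b' then 1 / law pA' f' (f' a') else 0)
        * ((∑ a, if φ a = a' then pA a else 0) * ∑ b, if ψ b = b' then pB b else 0) := by
    rw [Finset.sum_mul_sum, Finset.mul_sum]
    refine Finset.sum_congr rfl fun a _ => ?_
    rw [Finset.mul_sum]
  trans ∑ a, ∑ b, (if f' a' = g' b' then 1 / law pA' f' (f' a') else 0)
      * ((if φ a = a' then pA a else 0) * (if ψ b = b' then pB b else 0))
  · refine Finset.sum_congr rfl fun a _ => Finset.sum_congr rfl fun b _ => ?_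
    by_cases h1 : φ a = a'
    · by_cases h2 : ψ b = b'
      · have h3 : Prod.map φ ψ (a, b) = (a', b') := by simp [h1, h2]
        rw [if_pos h3, if_pos h1, if_pos h2]
        unfold glue
        simp only [hf, hg, Function.comp_apply, h1, h2]
        by_cases h4 : f' a' = g' b'
        · rw [if_pos h4, if_pos h4]
          have h5 : law pA (f' ∘ φ) (f' a') = law pA' f' (f' a') := hφ.law_eq f' _
          rw [h5]
          ring
        · rw [if_neg h4, if_neg h4]; simp
      · have h3 : ¬ Prod.map φ ψ (a, b) = (a', b') := by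
          intro h4
          simp only [Prod.map_apply, Prod.mk.injEq] at h4
          exact h2 h4.2
        rw [if_neg h3, if_neg h2]; simp
    · have h3 : ¬ Prod.map φ ψ (a, b) = (a', b') := by
        intro h4
        simp only [Prod.map_apply, Prod.mk.injEq] at h4
        exact h1 h4.1
      rw [if_neg h3, if_neg h1]; simp
  rw [e2, e3, e4]
  unfold glue
  by_cases h4 : f' a' = g' b'
  · rw [if_pos h4, if_pos h4]; ring
  · rw [if_neg h4, if_neg h4]; simp

end

end Pool.Agent.Helper8.Kak
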