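import Pool.Agent.Helper8.Kak.Sys

/-!
# The entropies on the glued space of level 1
-/

set_option autoImplicit false

namespace Pool.Agent.Helper8.Kak

section

variable {m M : ℕ} {G : Geo m M} (S : Sys G)

/-- heights of the pair of linked lines -/
def Sys.r2 : Setoid ((S.Ω × S.Ω) × (S.Ω × S.Ω)) :=
  Setoid.comap (fun a => a.1.1) S.K ⊓ (Setoid.ker (fun a => S.T a.1.1) ⊓
    (Setoid.ker (fun a => S.T a.1.2) ⊓ Setoid.ker (fun a => S.T a.2.2)))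

/-- heights and points of the pair of linked lines -/
noncomputable def Sys.r1 : Setoid ((S.Ω × S.Ω) × (S.Ω × S.Ω)) :=
  S.r2 ⊓ (Setoid.ker (fun a => G.P (S.l a.1.2) (S.T a.1.2)) ⊓
    Setoid.ker (fun a => G.P (S.l a.2.2) (S.T a.2.2)))

/-- entropy of the pair of points of two linked lines at random heights -/
noncomputable def Sys.Lam : ℝ :=
  Ent (pY1 S.p S.K S.l S.T G.P) S.r1 - Ent (pY1 S.p S.K S.l S.T G.P) S.r2

theorem Sys.ker_fL : Ent S.p (Setoid.ker (fL S.K S.l)) = S.eL :=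
  Ent_congr' S.hp fun _ _ _ _ => fL_eq

theorem Sys.ker_fP : Ent S.p (Setoid.ker (fP S.K S.l S.T G.P)) = S.eP :=
  Ent_congr' S.hp fun _ _ _ _ => fP_eq.trans ⟨fun h => ⟨⟨h.1, h.2.1⟩, h.2.2⟩,
    fun h => ⟨h.1.1, h.1.2, h.2⟩⟩

/-- everything in the base space -/
def Sys.rB : Setoid S.Ω := S.K ⊓ Setoid.ker S.l ⊓ Setoid.ker S.T

theorem Sys.rB_fL {a a' : S.Ω} (h : S.rB a a') : fL S.K S.l a = fL S.K S.l a' :=
  fL_eq.2 h.1

theorem Sys.rB_fP {a a' : S.Ω} (h : S.rB a a') :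
    fP S.K S.l S.T G.P a = fP S.K S.l S.T G.P a' := by
  have h1 : S.l a = S.l a' := h.1.2
  have h2 : S.T a = S.T a' := h.2
  exact fP_eq.2 ⟨h.1.1, h2, by rw [h1, h2]⟩

/-- everything in `pA1` -/
def Sys.rA : Setoid (S.Ω × S.Ω) := Setoid.comap Prod.fst S.rB ⊓ Setoid.comap Prod.snd S.rB

theorem Sys.ent_rA : Ent (pA1 S.p S.K S.l) S.rA = 2 * S.eB - S.eL := by
  have h := Ent_glue S.hp S.hp (f := fL S.K S.l) (g := fL S.K S.l) (fun _ => rfl) S.rB S.rB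
    (fun _ _ _ _ h => S.rB_fL h) (fun _ _ _ _ h => S.rB_fL h)
  rw [S.ker_fL] at h
  have e : Ent S.p S.rB = S.eB := rfl
  rw [e] at h
  have e2 : Ent (pA1 S.p S.K S.l) S.rA = S.eB + S.eB - S.eL := h
  rw [e2]; ring

def Sys.rY1 : Setoid ((S.Ω × S.Ω) × (S.Ω × S.Ω)) :=
  Setoid.comap Prod.fst S.rA ⊓ Setoid.comap Prod.snd S.rA

theorem Sys.ent_rY1 : Ent (pY1 S.p S.K S.l S.T G.P) S.rY1 = 4 * S.eB - 2 * S.eL - S.eP := by
  have h := Ent_glue (A1_prob S.K S.l S.hp) (A1_prob S.K S.l S.hp)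
    (f := fP S.K S.l S.T G.P ∘ Prod.fst) (g := fP S.K S.l S.T G.P ∘ Prod.fst) (fun _ => rfl)
    S.rA S.rA (fun _ _ _ _ h => S.rB_fP h.1) (fun _ _ _ _ h => S.rB_fP h.1)
  have e3 : Ent (pA1 S.p S.K S.l) (Setoid.ker (fP S.K S.l S.T G.P ∘ Prod.fst)) = S.eP := by
    rw [← S.ker_fP, ← (A1_fst S.K S.l S.hp).Ent_eq]
    rfl
  rw [e3, S.ent_rA] at h
  have e2 : Ent (pY1 S.p S.K S.l S.T G.P) S.rY1
    = (2 * S.eB - S.eL) + (2 * S.eB - S.eL) - S.eP := h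
  rw [e2]; ring

def Sys.rY2 : Setoid (S.Ω × ((S.Ω × S.Ω) × (S.Ω × S.Ω))) :=
  Setoid.comap Prod.fst S.rB ⊓ Setoid.comap Prod.snd S.rY1

theorem Sys.ent_rY2 : Ent (pY2 S.p S.K S.l S.T G.P) S.rY2 = 5 * S.eB - 3 * S.eL - S.eP := by
  have h := Ent_glue S.hp (Y1_prob S.K S.l S.T G.P S.hp)
    (f := fL S.K S.l) (g := fL S.K S.l ∘ (Prod.fst ∘ Prod.fst)) (Y2_law S.K S.l S.T G.P S.hp)
    S.rB S.rY1 (fun _ _ _ _ h => S.rB_fL h) (fun _ _ _ _ h => S.rB_fL h.1.1)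
  rw [S.ker_fL, S.ent_rY1] at h
  have e2 : Ent (pY2 S.p S.K S.l S.T G.P) S.rY2
    = S.eB + (4 * S.eB - 2 * S.eL - S.eP) - S.eL := h
  rw [e2]; ring

def Sys.rY3 : Setoid ((S.Ω × ((S.Ω × S.Ω) × (S.Ω × S.Ω))) × (S.Ω × S.Ω)) :=
  Setoid.comap Prod.fst S.rY2 ⊓ Setoid.comap Prod.snd S.rA

theorem Sys.ent_rY3 : Ent (pY3 S.p S.K S.l S.T G.P) S.rY3 = 7 * S.eB - 4 * S.eL - 2 * S.eP := by
  have h := Ent_glue (Y2_prob S.K S.l S.T G.P S.hp) (A1_prob S.K S.l S.hp)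
    (f := fP S.K S.l S.T G.P ∘ Prod.fst) (g := fP S.K S.l S.T G.P ∘ Prod.fst)
    (Y3_law S.K S.l S.T G.P S.hp)
    S.rY2 S.rA (fun _ _ _ _ h => S.rB_fP h.1) (fun _ _ _ _ h => S.rB_fP h.1)
  have e3 : Ent (pY2 S.p S.K S.l S.T G.P) (Setoid.ker (fP S.K S.l S.T G.P ∘ Prod.fst)) = S.eP := by
    rw [← S.ker_fP, ← (Y2_fst S.K S.l S.T G.P S.hp).Ent_eq]
    rfl
  rw [e3, S.ent_rA, S.ent_rY2] at h
  have e2 : Ent (pY3 S.p S.K S.l S.T G.P) S.rY3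
    = (5 * S.eB - 3 * S.eL - S.eP) + (2 * S.eB - S.eL) - S.eP := h
  rw [e2]; ring

def Sys.rY4 : Setoid (Y S.Ω) :=
  Setoid.comap Prod.fst S.rY3 ⊓ Setoid.comap Prod.snd S.rB

theorem Sys.ent_rY4 : Ent S.pY S.rY4 = 8 * S.eB - 5 * S.eL - 2 * S.eP := by
  have h := Ent_glue (Y3_prob S.K S.l S.T G.P S.hp) S.hp
    (f := fL S.K S.l ∘ (Prod.fst ∘ Prod.snd)) (g := fL S.K S.l)
    (Y4_law S.K S.l S.T G.P S.hp)
    S.rY3 S.rB (fun _ _ _ _ h => S.rB_fL h.2.1) (fun _ _ _ _ h => S.rB_fL h)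
  have e3 : Ent (pY3 S.p S.K S.l S.T G.P) (Setoid.ker (fL S.K S.l ∘ (Prod.fst ∘ Prod.snd)))
      = S.eL := by
    rw [← S.ker_fL, ← ((Y3_snd S.K S.l S.T G.P S.hp).comp (A1_fst S.K S.l S.hp)).Ent_eq]
    rfl
  rw [e3, S.ent_rY3] at h
  have e2 : Ent S.pY S.rY4 = (7 * S.eB - 4 * S.eL - 2 * S.eP) + S.eB - S.eL := h
  rw [e2]; ring

theorem rY4_iff (y y' : Y S.Ω) : S.rY4 y y' ↔
    ((S.rB (cT y) (cT y') ∧ ((S.rB (c0 y) (c0 y') ∧ S.rB (cS y) (cS y')) ∧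
      (S.rB (c1 y) (c1 y') ∧ S.rB (cR y) (cR y')))) ∧ (S.rB (c2 y) (c2 y') ∧
        S.rB (cb y) (cb y'))) ∧ S.rB (cb' y) (cb' y') := Iff.rfl

theorem rB_iff (a a' : S.Ω) : S.rB a a' ↔ (S.K a a' ∧ S.l a = S.l a') ∧ S.T a = S.T a' := Iff.rfl

theorem base (hκ : S.eT - S.eK ≤ Real.log M) :
    L1.Base S.pY S.V S.eK S.eL S.eB S.eT S.eP (Real.log M) S.Lam where
  hp := S.hpY
  hr := valid1 S
  hK := HH_coord S.hpY (MP_c0 S.K S.l S.T G.P S.hp) _ _ S.K fun y y' h h' => by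
    simp
  hL0 := HH_coord S.hpY (MP_c0 S.K S.l S.T G.P S.hp) _ _ (S.K ⊓ Setoid.ker S.l) fun y y' h h' => by
    simp [Setoid.inf_iff_and, Setoid.ker_def]
  hL1 := HH_coord S.hpY (MP_c1 S.K S.l S.T G.P S.hp) _ _ (S.K ⊓ Setoid.ker S.l) fun y y' h h' => by
    have k := S.lk h h'
    simp [Setoid.inf_iff_and, Setoid.ker_def, k.K1]
  hL2 := HH_coord S.hpY (MP_c2 S.K S.l S.T G.P S.hp) _ _ (S.K ⊓ Setoid.ker S.l) fun y y' h h' => by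
    have k := S.lk h h'
    simp [Setoid.inf_iff_and, Setoid.ker_def, k.K2]
  h00 := HH_coord S.hpY (MP_c0 S.K S.l S.T G.P S.hp) _ _ (S.K ⊓ Setoid.ker S.l ⊓ Setoid.ker S.T)
    fun y y' h h' => by
    have k := S.lk h h'
    simp [Setoid.inf_iff_and, Setoid.ker_def, and_assoc]
  h01 := HH_coord S.hpY (MP_cT S.K S.l S.T G.P S.hp) _ _ (S.K ⊓ Setoid.ker S.l ⊓ Setoid.ker S.T)
    fun y y' h h' => by
    have k := S.lk h h'
    simp [Setoid.inf_iff_and, Setoid.ker_def, k.KT, k.lT, k.mT, and_assoc]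
  h0S := HH_coord S.hpY (MP_cS S.K S.l S.T G.P S.hp) _ _ (S.K ⊓ Setoid.ker S.l ⊓ Setoid.ker S.T)
    fun y y' h h' => by
    have k := S.lk h h'
    simp [Setoid.inf_iff_and, Setoid.ker_def, k.KS, k.lS, k.mS, and_assoc]
  h10 := HH_coord S.hpY (MP_c1 S.K S.l S.T G.P S.hp) _ _ (S.K ⊓ Setoid.ker S.l ⊓ Setoid.ker S.T)
    fun y y' h h' => by
    have k := S.lk h h'
    simp [Setoid.inf_iff_and, Setoid.ker_def, k.K1, k.t1, k.u1, and_assoc]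
  h1R := HH_coord S.hpY (MP_cR S.K S.l S.T G.P S.hp) _ _ (S.K ⊓ Setoid.ker S.l ⊓ Setoid.ker S.T)
    fun y y' h h' => by
    have k := S.lk h h'
    simp [Setoid.inf_iff_and, Setoid.ker_def, k.KR, k.lR, k.mR, and_assoc]
  h21 := HH_coord S.hpY (MP_c2 S.K S.l S.T G.P S.hp) _ _ (S.K ⊓ Setoid.ker S.l ⊓ Setoid.ker S.T)
    fun y y' h h' => by
    have k := S.lk h h'
    simp [Setoid.inf_iff_and, Setoid.ker_def, k.K2, k.t2, k.u2, and_assoc]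
  h2b := HH_coord S.hpY (MP_cb S.K S.l S.T G.P S.hp) _ _ (S.K ⊓ Setoid.ker S.l ⊓ Setoid.ker S.T)
    fun y y' h h' => by
    have k := S.lk h h'
    simp [Setoid.inf_iff_and, Setoid.ker_def, k.Kb, k.lb, k.mb, and_assoc]
  h2b' := HH_coord S.hpY (MP_cb' S.K S.l S.T G.P S.hp) _ _ (S.K ⊓ Setoid.ker S.l ⊓ Setoid.ker S.T)
    fun y y' h h' => by
    have k := S.lk h h'
    simp [Setoid.inf_iff_and, Setoid.ker_def, k.Kb', k.lb', k.mb', and_assoc]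
  hT0 := HH_coord S.hpY (MP_c0 S.K S.l S.T G.P S.hp) _ _ (S.K ⊓ Setoid.ker S.T)
    fun y y' h h' => by
    simp [Setoid.inf_iff_and, Setoid.ker_def]
  hT1 := HH_coord S.hpY (MP_cT S.K S.l S.T G.P S.hp) _ _ (S.K ⊓ Setoid.ker S.T)
    fun y y' h h' => by
    have k := S.lk h h'
    simp [Setoid.inf_iff_and, Setoid.ker_def, k.KT]
  hTS := HH_coord S.hpY (MP_cS S.K S.l S.T G.P S.hp) _ _ (S.K ⊓ Setoid.ker S.T)
    fun y y' h h' => by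
    have k := S.lk h h'
    simp [Setoid.inf_iff_and, Setoid.ker_def, k.KS]
  hTR := HH_coord S.hpY (MP_cR S.K S.l S.T G.P S.hp) _ _ (S.K ⊓ Setoid.ker S.T)
    fun y y' h h' => by
    have k := S.lk h h'
    simp [Setoid.inf_iff_and, Setoid.ker_def, k.KR]
  hTb := HH_coord S.hpY (MP_cb S.K S.l S.T G.P S.hp) _ _ (S.K ⊓ Setoid.ker S.T)
    fun y y' h h' => by
    have k := S.lk h h'
    simp [Setoid.inf_iff_and, Setoid.ker_def, k.Kb]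
  hTb' := HH_coord S.hpY (MP_cb' S.K S.l S.T G.P S.hp) _ _ (S.K ⊓ Setoid.ker S.T)
    fun y y' h h' => by
    have k := S.lk h h'
    simp [Setoid.inf_iff_and, Setoid.ker_def, k.Kb']
  hP0 := HH_coord S.hpY (MP_c0 S.K S.l S.T G.P S.hp) _ _
    (S.K ⊓ Setoid.ker S.T ⊓ Setoid.ker (fun ω => G.P (S.l ω) (S.T ω))) fun y y' h h' => by
    simp [Setoid.inf_iff_and, Setoid.ker_def, and_assoc]
  hP1 := HH_coord S.hpY (MP_cT S.K S.l S.T G.P S.hp) _ _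
    (S.K ⊓ Setoid.ker S.T ⊓ Setoid.ker (fun ω => G.P (S.l ω) (S.T ω))) fun y y' h h' => by
    have k := S.lk h h'
    simp [Setoid.inf_iff_and, Setoid.ker_def, k.KT, k.lT, k.mT, and_assoc]
  hPS := HH_coord S.hpY (MP_cS S.K S.l S.T G.P S.hp) _ _
    (S.K ⊓ Setoid.ker S.T ⊓ Setoid.ker (fun ω => G.P (S.l ω) (S.T ω))) fun y y' h h' => by
    have k := S.lk h h'
    simp [Setoid.inf_iff_and, Setoid.ker_def, k.KS, k.lS, k.mS, and_assoc]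
  hPR := HH_coord S.hpY (MP_cR S.K S.l S.T G.P S.hp) _ _
    (S.K ⊓ Setoid.ker S.T ⊓ Setoid.ker (fun ω => G.P (S.l ω) (S.T ω))) fun y y' h h' => by
    have k := S.lk h h'
    simp [Setoid.inf_iff_and, Setoid.ker_def, k.KR, k.lR, k.mR, and_assoc]
  hPb := HH_coord S.hpY (MP_cb S.K S.l S.T G.P S.hp) _ _
    (S.K ⊓ Setoid.ker S.T ⊓ Setoid.ker (fun ω => G.P (S.l ω) (S.T ω))) fun y y' h h' => by
    have k := S.lk h h'
    simp [Setoid.inf_iff_and, Setoid.ker_def, k.Kb, k.lb, k.mb, and_assoc]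
  hPb' := HH_coord S.hpY (MP_cb' S.K S.l S.T G.P S.hp) _ _
    (S.K ⊓ Setoid.ker S.T ⊓ Setoid.ker (fun ω => G.P (S.l ω) (S.T ω))) fun y y' h h' => by
    have k := S.lk h h'
    simp [Setoid.inf_iff_and, Setoid.ker_def, k.Kb', k.lb', k.mb', and_assoc]
  tot := by
    rw [← S.ent_rY4]
    unfold HH
    refine Ent_mono' S.hpY fun y y' h h' h1 => ?_
    have k := S.lk h h'
    rw [inf_rel] at h1
    simp only [Finset.mem_insert, Finset.mem_singleton, forall_eq_or_imp, forall_eq, V_K, V_l0,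
      V_l1, V_l2, V_T0, V_T1, V_S, V_R, V_b, V_b'] at h1
    obtain ⟨g1, g2, g3, g4, g5, g6, g7, g8, g9, g10⟩ := h1
    simp only [rY4_iff, rB_iff, k.KS, k.K1, k.KR, k.KT, k.K2, k.Kb, k.Kb', k.lS, k.lT, k.lR, k.lb,
      k.lb', k.mS, k.mT, k.mR, k.mb, k.mb', k.t1, k.u1, k.t2, k.u2, g1, g2, g3, g4, g5, g6, g7,
      g8, g9, g10, and_self]
  lam1 := by
    unfold Sys.Lam
    congr 1
    · refine HH_coord S.hpY (MP_Y1 S.K S.l S.T G.P S.hp) _ _ S.r1 fun y y' h h' => ?_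
      have k := S.lk h h'
      have : S.r1 y.1.1.2 y'.1.1.2 ↔ (S.K (c0 y) (c0 y') ∧ S.T (c0 y) = S.T (c0 y') ∧
        S.T (cS y) = S.T (cS y') ∧ S.T (cR y) = S.T (cR y')) ∧
        (G.P (S.l (cS y)) (S.T (cS y)) = G.P (S.l (cS y')) (S.T (cS y')) ∧
        G.P (S.l (cR y)) (S.T (cR y)) = G.P (S.l (cR y')) (S.T (cR y'))) := Iff.rfl
      rw [this]
      simp [k.lS, k.mS, k.lR, k.mR, and_assoc]
    · refine HH_coord S.hpY (MP_Y1 S.K S.l S.T G.P S.hp) _ _ S.r2 fun y y' h h' => ?_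
      have : S.r2 y.1.1.2 y'.1.1.2 ↔ (S.K (c0 y) (c0 y') ∧ S.T (c0 y) = S.T (c0 y') ∧
        S.T (cS y) = S.T (cS y') ∧ S.T (cR y) = S.T (cR y')) := Iff.rfl
      rw [this]
      simp
  lam2 := by
    unfold Sys.Lam
    congr 1
    · refine HH_coord S.hpY (MP_sym S.K S.l S.T G.P S.hp) _ _ S.r1 fun y y' h h' => ?_
      have k := S.lk h h'
      have : S.r1 ((cT y, c0 y), (c2 y, cb y)) ((cT y', c0 y'), (c2 y', cb y')) ↔
        (S.K (cT y) (cT y') ∧ S.T (cT y) = S.T (cT y') ∧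
        S.T (c0 y) = S.T (c0 y') ∧ S.T (cb y) = S.T (cb y')) ∧
        (G.P (S.l (c0 y)) (S.T (c0 y)) = G.P (S.l (c0 y')) (S.T (c0 y')) ∧
        G.P (S.l (cb y)) (S.T (cb y)) = G.P (S.l (cb y')) (S.T (cb y'))) := Iff.rfl
      rw [this]
      simp [k.KT, k.lb, k.mb, and_assoc]
    · refine HH_coord S.hpY (MP_sym S.K S.l S.T G.P S.hp) _ _ S.r2 fun y y' h h' => ?_
      have k := S.lk h h'
      have : S.r2 ((cT y, c0 y), (c2 y, cb y)) ((cT y', c0 y'), (c2 y', cb y')) ↔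
        (S.K (cT y) (cT y') ∧ S.T (cT y) = S.T (cT y') ∧
        S.T (c0 y) = S.T (c0 y') ∧ S.T (cb y) = S.T (cb y')) := Iff.rfl
      rw [this]
      simp [k.KT]
  eTM := hκ

end

end Pool.Agent.Helper8.Kak
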