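import Pool.Agent.Helper8.Kak.L1Main

/-!
# The system `(l0 | w)`
-/

set_option autoImplicit false

namespace Pool.Agent.Helper8.Kak

open Pool.Agent.Helper89.KakGeo

namespace L1

open V1

variable {Ω : Type} [Fintype Ω] {p : Ω → ℝ} {V : V1 → Setoid Ω}
  {eK eL eB eT eP lM Lam : ℝ} {k1 kB k3 k4 kc kU k7 k8 k10 : ℝ}

theorem Hyp.lowV (h : Hyp p V eK eL eB eT eP lM Lam k1 kB k3 k4 kc kU k7 k8 k10) :
    2 * (eL - eK) - (eP - eT) ≤ HH p V {K, l0, l1, T0, T1, B} - HH p V {K, T0, T1, B}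
      + (4 * (lM - (eB - eL)) + kB + k1) := by
  have i2 := h.inc {K, l0} {K, l0, S} {K, l0, l1, T0, T1, B}
    {K, l0, l1, T0, T1, B, S} (by decide +kernel) (by decide +kernel)
  have i3 := h.inc {B, S, T0, T1} {B, S, T0, T1, R}
    {K, l0, l1, T0, T1, B, S} {K, l0, l1, T0, T1, S, R}
    (by decide +kernel) (by decide +kernel)
  have i4 := h.inc {K} {K, T1} {K, T0} {K, T0, T1} (by decide +kernel)
    (by decide +kernel)
  have i5 := h.inc {K} {K, B} {K, T0, T1} {K, T0, T1, B} (by decide +kernel)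
    (by decide +kernel)
  linarith [h.N1, h.c1, h.cB, h.hK, h.hL0, h.h0S, h.hT0, h.hT1, h.eTM]

/-- entropy of the line `l0` given `w` -/
theorem Hyp.w1 (h : Hyp p V eK eL eB eT eP lM Lam k1 kB k3 k4 kc kU k7 k8 k10) :
    2 * (eL - eK) - (eP - eT) - (HH p V {K, w, T0, T1, B} - HH p V {K, T0, T1, B})
      ≤ HH p V {K, w, T0, T1, B, l0} - HH p V {K, w, T0, T1, B}
        + (4 * (lM - (eB - eL)) + kB + k1 + k3) := by
  have i1 := h.inc {l0, T1, w, B} {l0, T1, w, B, l1} {K, w, T0, T1, B, l0}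
    {K, l0, l1, T0, T1, B} (by decide +kernel) (by decide +kernel)
  linarith [h.lowV, h.c3]

/-- entropy of a point of `l0` given `w` -/
theorem Hyp.w2 (h : Hyp p V eK eL eB eT eP lM Lam k1 kB k3 k4 kc kU k7 k8 k10) :
    HH p V {K, w, T0, T1, B, S, PS} - HH p V {K, w, T0, T1, B, S} ≤
      Lam - (HH p V {K, w, T0, T1, B} - HH p V {K, T0, T1, B})
          + (2 * (lM - (eB - eL)) + 2 * k1 + k4 + kB) := by
  have hkw := h.kw
  have j1 := h.inc {K, w, T0, T1, B} {K, w, T0, T1, B, S}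
    {K, w, T0, T1, B, l0} {K, w, T0, T1, B, l0, S} (by decide +kernel)
    (by decide +kernel)
  have j2 := h.inc {K, T0, S, R} {K, T0, S, R, PS, PR} {K, T0, T1, B, S, R}
    {K, T0, T1, B, S, R, PS, PR} (by decide +kernel) (by decide +kernel)
  have j3 := h.inc {PS, PR, T0, T1, S, R, B} {PS, PR, T0, T1, S, R, B, w}
    {K, T0, T1, B, S, R, PS, PR} {K, T0, T1, B, S, R, PS, PR, w}
    (by decide +kernel) (by decide +kernel)
  have j4 := h.mn {K, w, T0, T1, B, S, PS} {K, T0, T1, B, S, R, PS, PR, w}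
    (by decide +kernel)
  have j5 := h.inc {B, S, T0, T1} {B, S, T0, T1, R} {K, T0, T1, B, S}
    {K, T0, T1, B, S, R} (by decide +kernel) (by decide +kernel)
  have j6 := h.inc {K} {K, S} {K, T0, T1, B} {K, T0, T1, B, S} (by decide +kernel)
    (by decide +kernel)
  linarith [h.lam1, h.c4, h.c1, h.hTS, h.hK, h.eTM]

/-- entropy of the point `P1` given `w` -/
theorem Hyp.w4 (h : Hyp p V eK eL eB eT eP lM Lam k1 kB k3 k4 kc kU k7 k8 k10) {k3' k9 : ℝ}
    (c3' : HH p V {P1, T1, w, B, l1} - HH p V {P1, T1, w, B} ≤ k3')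
    (c9 : HH p V {P0, P1, T0, T1, l0} - HH p V {P0, P1, T0, T1} ≤ k9) :
    2 * (eL - eK) - (eP - eT) - (HH p V {K, w, T0, T1, B} - HH p V {K, T0, T1, B})
      ≤ HH p V {K, w, T0, T1, B, P1} - HH p V {K, w, T0, T1, B}
        + (4 * (lM - (eB - eL)) + kB + k1 + k3' + k9) := by
  have i1 := h.inc {P1, T1, w, B} {P1, T1, w, B, l1} {K, w, T0, T1, B, P1}
    {K, w, T0, T1, B, P1, l1} (by decide +kernel) (by decide +kernel)
  have i2 := h.inc {P0, P1, T0, T1} {P0, P1, T0, T1, l0} {K, w, T0, T1, B, P1, l1}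
    {K, w, T0, T1, B, P1, l1, l0} (by decide +kernel) (by decide +kernel)
  have i3 := h.mn {K, l0, l1, T0, T1, B} {K, w, T0, T1, B, P1, l1, l0} (by decide +kernel)
  linarith [h.lowV]

end L1

section

variable {m M : ℕ} {G : Geo m M} (S : Sys G)

theorem Sys.cost_c3' : HH S.pY S.V {.P1, .T1, .w, .B, .l1} - HH S.pY S.V {.P1, .T1, .w, .B}
    ≤ kk m S.κ := by
  have hκ := S.κ_nonneg
  refine cost_le S.V _ _ V1.l1 (by decide +kernel) _ fun r hr => ?_
  simp only [Finset.mem_insert, Finset.mem_singleton, forall_eq_or_imp, forall_eq, V_P1, V_T1,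
    V_w, V_B] at hr
  have h2 := CE_clos S.hpY G.hδ G.hδ1 G.hM G.hv G.hinj r
      (fun y => S.l (c0 y)) (fun y => S.l (c1 y)) (vB S) (fun y => S.T (cT y))
      (fun y y' _ _ g => ⟨(hr y y' g).2.2.2, (hr y y' g).1, (hr y y' g).2.2.1⟩)
  refine h2.trans (mul_le_kk hκ ?_)
  linarith [S.dnB, log7_le]

/-- two points determine the line -/
theorem CE_two {Ω : Type} [Fintype Ω] {p : Ω → ℝ} {m M : ℕ} {L : Type} {x v : L → Fin m → ℝ}
    {δ : ℝ} (hp : IsProb p) (hδ : 0 < δ) (hδ1 : δ ≤ 1) (hM : 1 ≤ δ * M)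
    (hx : ∀ l i, |x l i| ≤ 1) (hv : ∀ l i, |v l i| ≤ 1)
    (hinj : Function.Injective (fun l => cell δ (v l)))
    (r : Setoid Ω) (l : Ω → L) (s t : Ω → Fin M)
    (hm : ∀ ω ω', 0 < p ω → 0 < p ω' → r ω ω' → s ω = s ω' ∧ t ω = t ω' ∧
      cell δ (pnt x v (l ω) (s ω)) = cell δ (pnt x v (l ω') (s ω')) ∧
      cell δ (pnt x v (l ω) (t ω)) = cell δ (pnt x v (l ω') (t ω'))) :
    CE p (Setoid.ker l) r ≤ m * (Ex p (fun ω => ld (s ω) (t ω)) + Real.log 11) := by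
  have e : ∀ (l : L) (t : Fin M) (q : Fin m → ℝ), frm x v l t 0 q = pnt x v l t := by
    intro l t q
    funext i
    unfold frm
    simp
  have h := CE_moveInf hp hδ hδ1 hM hx hv r l l l (fun _ => 0) s t (fun _ _ => rfl)
    (fun ω ω' h1 h2 h3 => by
      obtain ⟨g1, g2, g3, g4⟩ := hm ω ω' h1 h2 h3
      refine ⟨g1, g2, rfl, g3, ?_⟩
      rw [e, e]
      exact g4)
  refine le_trans (le_of_eq ?_) h
  unfold CE
  congr 2
  ext a b
  have e2 : ∀ ω, (fun i => v (l ω) i + ((mvInf 0 (s ω) (t ω) : ℤ) : ℝ) / M * v (l ω) i) = v (l ω) := by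
    intro ω
    funext i
    unfold mvInf
    simp
  constructor
  · rintro ⟨h1, h2⟩
    refine ⟨?_, h2⟩
    have h3 : l a = l b := h1
    show cell δ _ = cell δ _
    rw [e2, e2, h3]
  · rintro ⟨h1, h2⟩
    refine ⟨hinj ?_, h2⟩
    have h3 : cell δ (fun i => v (l a) i + ((mvInf 0 (s a) (t a) : ℤ) : ℝ) / M * v (l a) i)
      = cell δ (fun i => v (l b) i + ((mvInf 0 (s b) (t b) : ℤ) : ℝ) / M * v (l b) i) := h1
    rw [e2, e2] at h3
    exact h3

theorem Sys.cost_c9 : HH S.pY S.V {.P0, .P1, .T0, .T1, .l0} - HH S.pY S.V {.P0, .P1, .T0, .T1}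
    ≤ kk m S.κ := by
  have hκ := S.κ_nonneg
  refine cost_le S.V _ _ V1.l0 (by decide +kernel) _ fun r hr => ?_
  simp only [Finset.mem_insert, Finset.mem_singleton, forall_eq_or_imp, forall_eq, V_P0, V_P1,
    V_T0, V_T1] at hr
  have h2 := CE_two S.hpY G.hδ G.hδ1 G.hM G.hx G.hv G.hinj r
      (fun y => S.l (c0 y)) (fun y => S.T (cT y)) (fun y => S.T (c0 y))
      (fun y y' _ _ g => ⟨(hr y y' g).2.2.2, (hr y y' g).2.2.1, (hr y y' g).2.1, (hr y y' g).1⟩)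
  refine h2.trans (mul_le_kk hκ ?_)
  linarith [S.ld10, log11_le]

/-- entropy of the point `P1` in the system `(l0 | w)` -/
noncomputable def Sys.sw : ℝ :=
  HH S.pY S.V {.K, .w, .T0, .T1, .B, .P1} - HH S.pY S.V {.K, .w, .T0, .T1, .B}

theorem Sys.factW1 : 2 * S.a - S.h - S.om ≤ S.sysB.a + 7 * kk m S.κ := by
  obtain ⟨k1, k2⟩ := kk_ge (m := m) S.κ_nonneg
  have h := S.hyp.w1
  have e : Real.log M - (S.eB - S.eL) = S.κ := rfl
  rw [e] at h
  rw [sysB_a]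
  unfold Sys.a Sys.h Sys.om
  linarith

theorem Sys.factW2 : S.sysB.h ≤ S.Lam - S.om + 6 * kk m S.κ := by
  obtain ⟨k1, k2⟩ := kk_ge (m := m) S.κ_nonneg
  have h := S.hyp.w2
  have e : Real.log M - (S.eB - S.eL) = S.κ := rfl
  rw [e] at h
  rw [sysB_h]
  unfold Sys.om
  linarith

theorem Sys.factW3 : S.sysB.κ ≤ 4 * kk m S.κ := by
  obtain ⟨k1, k2⟩ := kk_ge (m := m) S.κ_nonneg
  have h := S.hyp.kw
  have e : S.eB - S.eL = Real.log M - S.κ := by unfold Sys.κ; ring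
  rw [e] at h
  rw [sysB_κ]
  linarith

theorem Sys.factW4 : 2 * S.a - S.h - S.om ≤ S.sw + 8 * kk m S.κ := by
  obtain ⟨k1, k2⟩ := kk_ge (m := m) S.κ_nonneg
  have h := S.hyp.w4 S.cost_c3' S.cost_c9
  have e : Real.log M - (S.eB - S.eL) = S.κ := rfl
  rw [e] at h
  unfold Sys.a Sys.h Sys.om Sys.sw
  linarith

end

end Pool.Agent.Helper8.Kak
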