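import Pool.Agent.Helper8.Kak.Ent

/-!
# Entropies of families of random variables with a decidable closure operator
-/

set_option autoImplicit false

namespace Pool.Agent.Helper8.Kak

section

variable {ι : Type} [DecidableEq ι]

/-- one closure rule: add `r.1` if some member of `r.2` is contained in the set -/
def cl1 (A : Finset ι) (r : ι × List (Finset ι)) : Finset ι :=
  if r.2.any (fun D => decide (D ⊆ A)) then insert r.1 A else A

/-- closure under a list of rules (applied once, in order) -/
def cl (rules : List (ι × List (Finset ι))) (A : Finset ι) : Finset ι := rules.foldl cl1 A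

variable {Ω : Type} [Fintype Ω]

/-- joint entropy of the variables in `A` -/
noncomputable def HH (p : Ω → ℝ) (V : ι → Setoid Ω) (A : Finset ι) : ℝ := Ent p (A.inf V)

omit [DecidableEq ι] [Fintype Ω] in
theorem inf_rel (V : ι → Setoid Ω) (A : Finset ι) (ω ω' : Ω) :
    (A.inf V) ω ω' ↔ ∀ i ∈ A, V i ω ω' := by
  classical
  induction A using Finset.induction_on with
  | empty =>
    simp only [Finset.inf_empty, Finset.notMem_empty, false_imp_iff, implies_true, iff_true]
    trivial
  | insert a s ha ih =>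
    rw [Finset.inf_insert]
    constructor
    · intro h i hi
      rcases Finset.mem_insert.1 hi with rfl | h1
      · exact h.1
      · exact ih.1 h.2 i h1
    · intro h
      exact ⟨h a (Finset.mem_insert_self _ _), ih.2 fun i hi => h i (Finset.mem_insert_of_mem hi)⟩

/-- the rules hold on the support -/
def Valid (p : Ω → ℝ) (V : ι → Setoid Ω) (rules : List (ι × List (Finset ι))) : Prop :=
  ∀ r ∈ rules, ∀ D ∈ r.2, ∀ ω ω', 0 < p ω → 0 < p ω' → (∀ i ∈ D, V i ω ω') → V r.1 ω ω'

omit [Fintype Ω] in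
theorem subset_cl (rules : List (ι × List (Finset ι))) (A : Finset ι) : A ⊆ cl rules A := by
  induction rules generalizing A with
  | nil => exact subset_rfl
  | cons r rs ih =>
    have h1 : A ⊆ cl1 A r := by
      unfold cl1
      split_ifs
      · exact Finset.subset_insert _ _
      · exact subset_rfl
    exact h1.trans (ih (cl1 A r))

omit [Fintype Ω] in
theorem cl_rel {p : Ω → ℝ} {V : ι → Setoid Ω} {rules : List (ι × List (Finset ι))}
    (hr : Valid p V rules) (A : Finset ι) {ω ω' : Ω} (h0 : 0 < p ω) (h0' : 0 < p ω')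
    (h : ∀ i ∈ A, V i ω ω') : ∀ i ∈ cl rules A, V i ω ω' := by
  induction rules generalizing A with
  | nil => exact h
  | cons r rs ih =>
    have h1 : ∀ i ∈ cl1 A r, V i ω ω' := by
      unfold cl1
      split_ifs with h2
      · intro i hi
        rcases Finset.mem_insert.1 hi with rfl | h3
        · rw [List.any_eq_true] at h2
          obtain ⟨D, hD, hDA⟩ := h2
          rw [decide_eq_true_eq] at hDA
          exact hr r (List.mem_cons_self) D hD ω ω' h0 h0' fun i hi => h i (hDA hi)
        · exact h i h3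
      · exact h
    exact ih (fun r' hr' => hr r' (List.mem_cons_of_mem _ hr')) (cl1 A r) h1

theorem HH_MN {p : Ω → ℝ} (hp : IsProb p) {V : ι → Setoid Ω} {rules : List (ι × List (Finset ι))}
    (hr : Valid p V rules) (A B : Finset ι) (h : A ⊆ cl rules B) : HH p V A ≤ HH p V B := by
  unfold HH
  refine Ent_mono' hp fun ω ω' h0 h0' h1 => ?_
  rw [inf_rel] at h1 ⊢
  intro i hi
  exact cl_rel hr B h0 h0' h1 i (h hi)

theorem HH_SM {p : Ω → ℝ} (hp : IsProb p) {V : ι → Setoid Ω} {rules : List (ι × List (Finset ι))}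
    (hr : Valid p V rules) (A B J I : Finset ι) (hJ : J ⊆ cl rules (A ∪ B))
    (hI : I ⊆ cl rules A ∩ cl rules B) : HH p V J + HH p V I ≤ HH p V A + HH p V B := by
  have h := submod hp ((cl rules A).inf V) ((cl rules B).inf V) ((cl rules A ∩ cl rules B).inf V)
  have hA : Ent p ((cl rules A).inf V ⊓ (cl rules A ∩ cl rules B).inf V) ≤ HH p V A := by
    unfold HH
    refine Ent_mono' hp fun ω ω' h0 h0' h1 => ?_
    have h2 := (inf_rel V A ω ω').1 h1
    have h3 := cl_rel hr A h0 h0' h2
    exact ⟨(inf_rel _ _ _ _).2 h3, (inf_rel _ _ _ _).2 fun i hi => h3 i (Finset.mem_inter.1 hi).1⟩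
  have hB : Ent p ((cl rules B).inf V ⊓ (cl rules A ∩ cl rules B).inf V) ≤ HH p V B := by
    unfold HH
    refine Ent_mono' hp fun ω ω' h0 h0' h1 => ?_
    have h2 := (inf_rel V B ω ω').1 h1
    have h3 := cl_rel hr B h0 h0' h2
    exact ⟨(inf_rel _ _ _ _).2 h3, (inf_rel _ _ _ _).2 fun i hi => h3 i (Finset.mem_inter.1 hi).2⟩
  have hJ' : HH p V J ≤ Ent p ((cl rules A).inf V ⊓ ((cl rules B).inf V
      ⊓ (cl rules A ∩ cl rules B).inf V)) := by
    unfold HH
    refine Ent_mono' hp fun ω ω' h0 h0' h1 => ?_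
    have h2 : ∀ i ∈ A ∪ B, V i ω ω' := by
      intro i hi
      rcases Finset.mem_union.1 hi with h3 | h3
      · exact (inf_rel _ _ _ _).1 h1.1 i (subset_cl rules A h3)
      · exact (inf_rel _ _ _ _).1 h1.2.1 i (subset_cl rules B h3)
    exact (inf_rel _ _ _ _).2 fun i hi => cl_rel hr _ h0 h0' h2 i (hJ hi)
  have hI' : HH p V I ≤ Ent p ((cl rules A ∩ cl rules B).inf V) := by
    unfold HH
    exact Ent_mono hp (Finset.inf_mono hI)
  linarith

/-- increments decrease: `h B' - h B ≤ h A' - h A` -/
theorem HH_INC {p : Ω → ℝ} (hp : IsProb p) {V : ι → Setoid Ω} {rules : List (ι × List (Finset ι))}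
    (hr : Valid p V rules) (A A' B B' : Finset ι) (hB' : B' ⊆ cl rules (A' ∪ B))
    (hA : A ⊆ cl rules A' ∩ cl rules B) : HH p V B' - HH p V B ≤ HH p V A' - HH p V A := by
  have := HH_SM hp hr A' B B' A hB' hA
  linarith

theorem HH_nonneg {p : Ω → ℝ} (hp : IsProb p) (V : ι → Setoid Ω) (A : Finset ι) : 0 ≤ HH p V A :=
  Ent_nonneg hp _

end

end Pool.Agent.Helper8.Kak
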