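import Pool.Agent.Helper8.Kak.XF

/-!
# The final step applied to the systems `(l0 | w)` and `(l2 | z)`; the recursion
-/

set_option autoImplicit false

namespace Pool.Agent.Helper8.Kak

section

variable {m M : ℕ} {G : Geo m M} (S : Sys G)

/-- final step for `(l2 | z)` -/
theorem factFz {β C : ℝ} (hβ : 1 ≤ β) (hC : 0 ≤ C) (ih : SDG G β C) :
    ∃ X : ℝ, S.next.a + β * ((S.a - S.h) + S.sg - (2 * S.next.h - S.next.Lam))
      ≤ β * (S.h + X) + 100 * (β + C + 1) * (kk m S.next.κ + kk m S.κ) ∧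
      2 * S.next.a - 2 * S.next.h + S.next.Lam - X ≤ β * (S.next.h + S.next.ze - X)
      + 100 * (β + C + 1) * kk m S.next.κ := by
  have hT : ∀ y y', S.next.K y y' → S.T (cb y) = S.T (cb y') := fun y y' h =>
    sysOf_meas S.hpY S.V _ _ V1.b (by decide) (fun y => S.T (cb y)) (fun _ _ h => h) y y' h
  have hK0 : ∀ y y', S.next.K y y' → S.K (c0 y) (c0 y') := fun y y' h => by
    have h2 : (({.K, .T0, .T1, .b, .c, .z} : Finset V1).inf S.V) y y' := h
    exact (inf_rel S.V _ y y').1 h2 V1.K (by decide)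
  have h := factF_gen S S.next cb (MP_cb S.K S.l S.T G.P S.hp) (fun y hy => (S.lk hy hy).lb)
    (fun y y' hy hy' h => ((S.lk hy hy').Kb).2 (hK0 y y' h)) hT hβ hC ih
  have e : Ent S.next.p (S.next.K ⊓ Setoid.ker (fun y => G.P (S.next.l y) (S.T (cb y))))
      - S.next.eK = S.sg := by
    have e1 : S.sg = HH S.pY S.V {.K, .T0, .T1, .b, .c, .z, .Pb}
      - HH S.pY S.V {.K, .T0, .T1, .b, .c, .z} := rfl
    have e2 : HH S.pY S.V {.K, .T0, .T1, .b, .c, .z, .Pb} =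
        Ent S.next.p (S.next.K ⊓ Setoid.ker (fun y => G.P (S.next.l y) (S.T (cb y)))) := by
      have e3 : ({.K, .T0, .T1, .b, .c, .z, .Pb} : Finset V1)
        = insert .Pb {.K, .T0, .T1, .b, .c, .z} := by decide +kernel
      unfold HH
      rw [e3, Finset.inf_insert, inf_comm]
      rfl
    rw [e1, e2]
    rfl
  rw [e] at h
  exact ⟨_, h, factXS100 S.next _ hT (by linarith) hC ih⟩

/-- final step for `(l0 | w)` -/
theorem factFw {β C : ℝ} (hβ : 1 ≤ β) (hC : 0 ≤ C) (ih : SDG G β C) :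
    ∃ X : ℝ, S.sysB.a + β * ((S.a - S.h) + S.sw - (2 * S.sysB.h - S.sysB.Lam))
      ≤ β * (S.h + X) + 100 * (β + C + 1) * (kk m S.sysB.κ + kk m S.κ) ∧
      2 * S.sysB.a - 2 * S.sysB.h + S.sysB.Lam - X ≤ β * (S.sysB.h + S.sysB.ze - X)
      + 100 * (β + C + 1) * kk m S.sysB.κ := by
  have hT : ∀ y y', S.sysB.K y y' → S.T (cT y) = S.T (cT y') := fun y y' h =>
    sysOf_meas S.hpY S.V _ _ V1.T1 (by decide) (fun y => S.T (cT y)) (fun _ _ h => h) y y' h
  have hK0 : ∀ y y', S.sysB.K y y' → S.K (c0 y) (c0 y') := fun y y' h => by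
    have h2 : (({.K, .w, .T0, .T1, .B} : Finset V1).inf S.V) y y' := h
    exact (inf_rel S.V _ y y').1 h2 V1.K (by decide)
  have h := factF_gen S S.sysB cT (MP_cT S.K S.l S.T G.P S.hp) (fun y hy => (S.lk hy hy).lT)
    (fun y y' hy hy' h => ((S.lk hy hy').KT).2 (hK0 y y' h)) hT hβ hC ih
  have e : Ent S.sysB.p (S.sysB.K ⊓ Setoid.ker (fun y => G.P (S.sysB.l y) (S.T (cT y))))
      - S.sysB.eK = S.sw := by
    have e1 : S.sw = HH S.pY S.V {.K, .w, .T0, .T1, .B, .P1}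
      - HH S.pY S.V {.K, .w, .T0, .T1, .B} := rfl
    have e2 : HH S.pY S.V {.K, .w, .T0, .T1, .B, .P1} =
        Ent S.sysB.p (S.sysB.K ⊓ Setoid.ker (fun y => G.P (S.sysB.l y) (S.T (cT y)))) := by
      have e3 : ({.K, .w, .T0, .T1, .B, .P1} : Finset V1)
        = insert .P1 {.K, .w, .T0, .T1, .B} := by decide +kernel
      unfold HH
      rw [e3, Finset.inf_insert, inf_comm]
      rfl
    rw [e1, e2]
    rfl
  rw [e] at h
  exact ⟨_, h, factXS100 S.sysB _ hT (by linarith) hC ih⟩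

theorem kk_of_le {m : ℕ} {κ κ' : ℝ} (hκ : 0 ≤ κ) (h : κ' ≤ 5 * kk m κ) :
    kk m κ' ≤ 204 * (m + 1) * kk m κ := by
  obtain ⟨k1, k2⟩ := kk_ge (m := m) hκ
  have hm : (0 : ℝ) ≤ m := Nat.cast_nonneg _
  have e : kk m κ' = 34 * (m + 1) * (κ' + 1) := rfl
  rw [e]
  have h2 : κ' + 1 ≤ 6 * kk m κ := by linarith
  have h3 := mul_le_mul_of_nonneg_left h2 (by positivity : (0 : ℝ) ≤ 34 * (m + 1))
  linarith

theorem Sys.h_nonneg : 0 ≤ S.h := by
  unfold Sys.h Sys.eP Sys.eT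
  have := Ent_mono S.hp (r := S.K ⊓ Setoid.ker S.T ⊓ Setoid.ker (fun ω => G.P (S.l ω) (S.T ω)))
    (s := S.K ⊓ Setoid.ker S.T) inf_le_left
  linarith

theorem Sys.a_nonneg : 0 ≤ S.a := by
  unfold Sys.a Sys.eL Sys.eK
  have := Ent_mono S.hp (r := S.K ⊓ Setoid.ker S.l) (s := S.K) inf_le_left
  linarith

/-- `2 h - Λ` -/
noncomputable def Sys.lam : ℝ := 2 * S.h - S.Lam

theorem Sys.lam_nonneg : 0 ≤ S.lam := by
  unfold Sys.lam
  linarith [S.factA]

end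

/-- linear bounds for the entropies of the forms `w` and `z` of all systems -/
def Bd (m : ℕ) (p q μ r s ν : ℝ) : Prop :=
  ∃ C : ℝ, 0 ≤ C ∧ ∀ (M : ℕ) (G : Geo m M) (S : Sys G),
    S.om ≤ q * S.h - p * S.a - μ * S.lam + C * (S.κ + 1) ∧
    S.ze ≤ s * S.h - r * S.a - ν * S.lam + C * (S.κ + 1)

/-- the bounds coming from the sums-differences inequality -/
theorem Bd_zero {m : ℕ} {β p q μ r s ν : ℝ} (h1 : 1 < β) (h : SD m β)
    (hp : p * (β - 1) ≤ 2) (hq : 2 * β + 1 ≤ q * (β - 1)) (hμ : μ * (β - 1) ≤ β)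
    (hr : r * (β - 1) ≤ 3 + β * p) (hs : β * (1 + q) + 2 ≤ s * (β - 1))
    (hν : ν * (β - 1) ≤ β * μ) : Bd m p q μ r s ν := by
  rw [SD_iff] at h
  obtain ⟨C, hC, h⟩ := h
  have hβ : 0 ≤ β := by linarith
  have hγ : 0 < β - 1 := by linarith
  -- error constants
  refine ⟨(7 * (β + C + 1) * (34 * (m + 1))) / (β - 1)
    + (β * ((7 * (β + C + 1) * (34 * (m + 1))) / (β - 1)) + 11 * (β + C + 1) * (34 * (m + 1)))
      / (β - 1), by positivity, fun M G S => ?_⟩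
  have hκ := S.κ_nonneg
  have hkk : kk m S.κ = 34 * (m + 1) * (S.κ + 1) := rfl
  have fB := S.factB hβ hC (h M G)
  have fZ := S.factZ hβ hC (h M G)
  have ha := S.a_nonneg
  have hh := S.h_nonneg
  have hl := S.lam_nonneg
  have el : S.Lam = 2 * S.h - S.lam := by unfold Sys.lam; ring
  rw [el, hkk] at fB
  rw [hkk] at fZ
  set N := S.κ + 1
  set E1 := 7 * (β + C + 1) * (34 * ((m : ℝ) + 1)) with hE1
  set E2 := 11 * (β + C + 1) * (34 * ((m : ℝ) + 1)) with hE2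
  have hN : 0 ≤ N := by linarith
  have hE1p : 0 ≤ E1 := by rw [hE1]; positivity
  have hE2p : 0 ≤ E2 := by rw [hE2]; positivity
  have g1 := mul_le_mul_of_nonneg_right hp ha
  have g2 := mul_le_mul_of_nonneg_right hq hh
  have g3 := mul_le_mul_of_nonneg_right hμ hl
  have g4 := mul_le_mul_of_nonneg_right hr ha
  have g5 := mul_le_mul_of_nonneg_right hs hh
  have g6 := mul_le_mul_of_nonneg_right hν hl
  have b1 : S.om ≤ q * S.h - p * S.a - μ * S.lam + E1 / (β - 1) * N := by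
    have : (β - 1) * S.om ≤ (β - 1) * (q * S.h - p * S.a - μ * S.lam + E1 / (β - 1) * N) := by
      have e1 : (β - 1) * (E1 / (β - 1) * N) = E1 * N := by field_simp
      rw [mul_add, e1]
      have e2 : 7 * (β + C + 1) * (34 * (↑m + 1) * N) = E1 * N := by rw [hE1]; ring
      rw [e2] at fB
      linarith
    exact le_of_mul_le_mul_left this hγ
  have b2 : S.ze ≤ s * S.h - r * S.a - ν * S.lam + (β * (E1 / (β - 1)) + E2) / (β - 1) * N := by
    have : (β - 1) * S.ze ≤ (β - 1) * (s * S.h - r * S.a - ν * S.lam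
        + (β * (E1 / (β - 1)) + E2) / (β - 1) * N) := by
      have e1 : (β - 1) * ((β * (E1 / (β - 1)) + E2) / (β - 1) * N)
        = (β * (E1 / (β - 1)) + E2) * N := by
        rw [← mul_assoc, mul_div_cancel₀ _ hγ.ne']
      rw [mul_add, e1]
      have e2 : 11 * (β + C + 1) * (34 * (↑m + 1) * N) = E2 * N := by rw [hE2]; ring
      rw [e2] at fZ
      have := mul_le_mul_of_nonneg_left b1 hβ
      linarith
    exact le_of_mul_le_mul_left this hγ
  have p1 : 0 ≤ E1 / (β - 1) * N := by positivity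
  have p2 : 0 ≤ (β * (E1 / (β - 1)) + E2) / (β - 1) * N := by positivity
  constructor
  · rw [add_mul]; linarith
  · rw [add_mul]; linarith

/-- elimination for one derived system -/
theorem elimF {β a h σ e g L X ze s r ν lam E Es : ℝ} (h1 : 1 < β) (hν : 1 ≤ ν)
    (hlam : lam = 2 * g - L) (hl0 : 0 ≤ lam)
    (F : e + β * ((a - h) + σ - (2 * g - L)) ≤ β * (h + X) + E)
    (XX : 2 * e - 2 * g + L - X ≤ β * (g + ze - X) + E)
    (Z : ze ≤ s * g - r * e - ν * lam + Es) :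
    (3 * β - 1 + β ^ 2 * r) * e + β * (β - 1) * (a - 2 * h + σ)
      ≤ β ^ 2 * (1 + s) * g + ((2 * β - 1) * E + β ^ 2 * Es) := by
  have e1 : L = 2 * g - lam := by linarith
  rw [e1] at F XX
  have m1 := mul_le_mul_of_nonneg_left F (by linarith : 0 ≤ β - 1)
  have m2 := mul_le_mul_of_nonneg_left XX (by linarith : 0 ≤ β)
  have m3 := mul_le_mul_of_nonneg_left Z (by positivity : 0 ≤ β ^ 2)
  have m4 := mul_le_mul_of_nonneg_left hν (mul_nonneg (sq_nonneg β) hl0)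
  linarith

theorem errP {b D m k t : ℝ} (hb : 0 ≤ b) (hD : 0 ≤ D) (hm : 0 ≤ m) (hk : 0 ≤ k)
    (ht : t ≤ 204 * (m + 1) * k) :
    100 * b * (t + k) ≤ (100 * b * (205 * (m + 1)) + D * 6 + 20) * k ∧
      100 * b * t ≤ (100 * b * (205 * (m + 1)) + D * 6 + 20) * k := by
  have h1 : k ≤ (m + 1) * k := by nlinarith
  have h2 : t + k ≤ 205 * (m + 1) * k := by linarith
  have h3 : 100 * b * (t + k) ≤ 100 * b * (205 * (m + 1) * k) :=
    mul_le_mul_of_nonneg_left h2 (by positivity)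
  have h4 : 0 ≤ (D * 6 + 20) * k := by positivity
  have h5 : 0 ≤ 100 * b * k := by positivity
  constructor
  · linarith
  · linarith

theorem errD {b D m k κ' : ℝ} (hb : 0 ≤ b) (hD : 0 ≤ D) (hm : 0 ≤ m) (hk : 1 ≤ k)
    (h : κ' ≤ 5 * k) :
    D * (κ' + 1) ≤ (100 * b * (205 * (m + 1)) + D * 6 + 20) * k := by
  have e1 : D * (κ' + 1) ≤ D * (6 * k) := mul_le_mul_of_nonneg_left (by linarith) hD
  have e3 : 0 ≤ (100 * b * (205 * (m + 1)) + 20) * k := by
    have : 0 ≤ k := by linarith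
    positivity
  linarith

theorem errc {b D m k c : ℝ} (hb : 0 ≤ b) (hD : 0 ≤ D) (hm : 0 ≤ m) (hk : 0 ≤ k)
    (hc : c ≤ 20) :
    c * k ≤ (100 * b * (205 * (m + 1)) + D * 6 + 20) * k := by
  apply mul_le_mul_of_nonneg_right _ hk
  have : 0 ≤ 100 * b * (205 * (m + 1)) + D * 6 := by positivity
  linarith

theorem key_w {A0 D0 G0 a h om e g σ lam E1 E2 : ℝ} (hA : 0 ≤ A0) (hD : 0 ≤ D0) (hG : 0 ≤ G0)
    (ew : A0 * e + D0 * (a - 2 * h + σ) ≤ G0 * g + E1)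
    (we : 2 * a - h - om ≤ e + E2) (wσ : 2 * a - h - om ≤ σ + E2)
    (wg : g ≤ (2 * h - lam) - om + E2) :
    (G0 - A0 - D0) * om ≤ (2 * G0 + A0 + 3 * D0) * h - (2 * A0 + 3 * D0) * a - G0 * lam
      + (E1 + (A0 + D0 + G0) * E2) := by
  have m1 := mul_le_mul_of_nonneg_left we hA
  have m2 := mul_le_mul_of_nonneg_left wσ hD
  have m3 := mul_le_mul_of_nonneg_left wg hG
  linarith

theorem key_z {A0 D0 G0 a h om ze e g σ lam E1 E2 : ℝ} (hA : 0 ≤ A0) (hD : 0 ≤ D0) (hG : 0 ≤ G0)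
    (ez : A0 * e + D0 * (a - 2 * h + σ) ≤ G0 * g + E1)
    (we : 3 * a - 2 * h ≤ ze + e + E2) (wσ : a - h + (2 * h - lam) ≤ ze + σ + E2)
    (wg : g ≤ h + om - ze + E2) :
    (G0 - A0 - D0) * ze ≤ G0 * (h + om) - A0 * (3 * a - 2 * h) - D0 * (2 * a - h - lam)
      + (E1 + (A0 + D0 + G0) * E2) := by
  have m1 := mul_le_mul_of_nonneg_left we hA
  have m2 := mul_le_mul_of_nonneg_left wσ hD
  have m3 := mul_le_mul_of_nonneg_left wg hG
  linarith

/-- the recursion step -/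
theorem Bd_step {m : ℕ} {β p q μ r s ν p' q' μ' r' s' ν' : ℝ} (h1 : 1 < β) (h : SD m β)
    (hb : Bd m p q μ r s ν) (hν1 : 1 ≤ ν) (hr0 : 0 ≤ r)
    (hC0 : 0 < β ^ 2 * (1 + s) - (3 * β - 1 + β ^ 2 * r) - β * (β - 1))
    (hp : p' * (β ^ 2 * (1 + s) - (3 * β - 1 + β ^ 2 * r) - β * (β - 1))
      ≤ 2 * (3 * β - 1 + β ^ 2 * r) + 3 * (β * (β - 1)))
    (hq : 2 * (β ^ 2 * (1 + s)) + (3 * β - 1 + β ^ 2 * r) + 3 * (β * (β - 1))
      ≤ q' * (β ^ 2 * (1 + s) - (3 * β - 1 + β ^ 2 * r) - β * (β - 1)))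
    (hμ : μ' * (β ^ 2 * (1 + s) - (3 * β - 1 + β ^ 2 * r) - β * (β - 1)) ≤ β ^ 2 * (1 + s))
    (hr : r' * (β ^ 2 * (1 + s) - (3 * β - 1 + β ^ 2 * r) - β * (β - 1))
      ≤ β ^ 2 * (1 + s) * p' + 3 * (3 * β - 1 + β ^ 2 * r) + 2 * (β * (β - 1)))
    (hs : β ^ 2 * (1 + s) * (1 + q') + 2 * (3 * β - 1 + β ^ 2 * r) + β * (β - 1)
      ≤ s' * (β ^ 2 * (1 + s) - (3 * β - 1 + β ^ 2 * r) - β * (β - 1)))
    (hν : ν' * (β ^ 2 * (1 + s) - (3 * β - 1 + β ^ 2 * r) - β * (β - 1))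
      ≤ β ^ 2 * (1 + s) * μ' - β * (β - 1)) : Bd m p' q' μ' r' s' ν' := by
  rw [SD_iff] at h
  obtain ⟨C, hC, h⟩ := h
  obtain ⟨D, hD, hb⟩ := hb
  have hβ : 0 ≤ β := by linarith
  have hγ : 0 < β - 1 := by linarith
  set A0 : ℝ := 3 * β - 1 + β ^ 2 * r with hA0
  set D0 : ℝ := β * (β - 1) with hD0
  set G0 : ℝ := β ^ 2 * (1 + s) with hG0
  set C0 : ℝ := G0 - A0 - D0 with hC0'
  have hA0p : 0 ≤ A0 := by rw [hA0]; nlinarith [mul_nonneg (sq_nonneg β) hr0]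
  have hD0p : 0 ≤ D0 := by rw [hD0]; positivity
  have hG0p : 0 ≤ G0 := by linarith
  -- error constants
  set P : ℝ := 100 * (β + C + 1) * (205 * (m + 1)) + D * (6) + 20 with hP
  have hm : (0 : ℝ) ≤ m := Nat.cast_nonneg _
  have hPp : 0 ≤ P := by rw [hP]; positivity
  set Q1 : ℝ := (((2 * β - 1) + β ^ 2 + A0 + D0 + G0) * P * (34 * (m + 1))) / C0 with hQ1
  have hQ1p : 0 ≤ Q1 := by
    rw [hQ1]
    have : 0 ≤ 2 * β - 1 := by linarith
    positivity
  set Q2 : ℝ := (((2 * β - 1) + β ^ 2 + A0 + D0 + G0) * P * (34 * (m + 1)) + G0 * Q1) / C0 with hQ2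
  have hQ2p : 0 ≤ Q2 := by
    rw [hQ2]
    have : 0 ≤ 2 * β - 1 := by linarith
    positivity
  refine ⟨Q1 + Q2, by positivity, fun M G S => ?_⟩
  have hκ := S.κ_nonneg
  obtain ⟨k1, k2⟩ := kk_ge (m := m) hκ
  have ha := S.a_nonneg
  have hh := S.h_nonneg
  have hl := S.lam_nonneg
  have el : S.Lam = 2 * S.h - S.lam := by unfold Sys.lam; ring
  obtain ⟨XX, fw1, fw2⟩ := factFw S h1.le hC (h M G)
  obtain ⟨ZZ, fz1, fz2⟩ := factFz S h1.le hC (h M G)
  have kw := kk_of_le hκ (S.factW3.trans (by linarith) : S.sysB.κ ≤ 5 * kk m S.κ)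
  have kz := kk_of_le hκ S.factF
  set k := kk m S.κ with hk
  have hkp : 0 ≤ k := zero_le_one.trans k2
  have hB : 0 ≤ β + C + 1 := by linarith
  obtain ⟨ew1, ew2⟩ := errP hB hD hm hkp kw
  obtain ⟨ez1, ez2⟩ := errP hB hD hm hkp kz
  rw [← hP] at ew1 ew2 ez1 ez2
  have w1 : S.sysB.a + β * ((S.a - S.h) + S.sw - (2 * S.sysB.h - S.sysB.Lam))
      ≤ β * (S.h + XX) + P * k := fw1.trans (add_le_add_right ew1 _)
  have w2 : 2 * S.sysB.a - 2 * S.sysB.h + S.sysB.Lam - XX ≤ β * (S.sysB.h + S.sysB.ze - XX)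
      + P * k := fw2.trans (add_le_add_right ew2 _)
  have z1 : S.next.a + β * ((S.a - S.h) + S.sg - (2 * S.next.h - S.next.Lam))
      ≤ β * (S.h + ZZ) + P * k := fz1.trans (add_le_add_right ez1 _)
  have z2 : 2 * S.next.a - 2 * S.next.h + S.next.Lam - ZZ ≤ β * (S.next.h + S.next.ze - ZZ)
      + P * k := fz2.trans (add_le_add_right ez2 _)
  have bw := (hb M G S.sysB).2
  have bz := (hb M G S.next).2
  have dw := errD (b := β + C + 1) hB hD hm k2 (S.factW3.trans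
    (mul_le_mul_of_nonneg_right (by norm_num : (4 : ℝ) ≤ 5) hkp))
  have dz := errD (b := β + C + 1) hB hD hm k2 S.factF
  rw [← hP] at dw dz
  have h20 : ∀ c : ℝ, c ≤ 20 → c * k ≤ P * k := fun c hc => by
    rw [hP]; exact errc hB hD hm hkp hc
  have ew := elimF h1 hν1 (rfl : S.sysB.lam = 2 * S.sysB.h - S.sysB.Lam) S.sysB.lam_nonneg w1 w2
    (bw.trans (add_le_add_right dw _))
  have ez := elimF h1 hν1 (rfl : S.next.lam = 2 * S.next.h - S.next.Lam) S.next.lam_nonneg z1 z2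
    (bz.trans (add_le_add_right dz _))
  rw [← hA0, ← hG0, ← hD0] at ew ez
  -- bound for `om`
  have fW1 := S.factW1
  have fW2 := S.factW2
  have fW4 := S.factW4
  rw [el] at fW2
  have kw1 := key_w hA0p hD0p hG0p ew (fW1.trans (add_le_add_right (h20 7 (by norm_num)) _)) (fW4.trans (add_le_add_right (h20 8 (by norm_num)) _))
    (fW2.trans (add_le_add_right (h20 6 (by norm_num)) _))
  have key1 : C0 * S.om ≤ C0 * (q' * S.h - p' * S.a - μ' * S.lam)
      + ((2 * β - 1) + β ^ 2 + A0 + D0 + G0) * (P * k) := by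
    have g1 := mul_le_mul_of_nonneg_right hp ha
    have g2 := mul_le_mul_of_nonneg_right hq hh
    have g3 := mul_le_mul_of_nonneg_right hμ hl
    clear_value A0 D0 G0 P k
    clear hb h20 bw bz dw dz ew ez w1 w2 z1 z2 ew1 ew2 ez1 ez2 fw1 fw2 fz1 fz2 fW1 fW2 fW4 hp hq hμ hr hs hν kw kz
    rw [← hC0'] at kw1
    linarith
  have hkN : k = 34 * (m + 1) * (S.κ + 1) := rfl
  have b1 : S.om ≤ q' * S.h - p' * S.a - μ' * S.lam + Q1 * (S.κ + 1) := by
    have : C0 * S.om ≤ C0 * (q' * S.h - p' * S.a - μ' * S.lam + Q1 * (S.κ + 1)) := by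
      have e1 : C0 * (Q1 * (S.κ + 1)) = ((2 * β - 1) + β ^ 2 + A0 + D0 + G0) * (P * k) := by
        rw [hQ1, ← mul_assoc, mul_div_cancel₀ _ hC0.ne', hkN]; ring
      rw [mul_add, e1]
      exact key1
    exact le_of_mul_le_mul_left this hC0
  -- bound for `ze`
  have fD := S.factD
  have fE := S.factE
  have fC := S.factC
  rw [el] at fC
  have kz1 := key_z hA0p hD0p hG0p ez (fD.trans (add_le_add_right (h20 11 (by norm_num)) _)) (fC.trans (add_le_add_right (h20 10 (by norm_num)) _))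
    (fE.trans (add_le_add_right (h20 7 (by norm_num)) _))
  have key2 : C0 * S.ze ≤ C0 * (s' * S.h - r' * S.a - ν' * S.lam)
      + (((2 * β - 1) + β ^ 2 + A0 + D0 + G0) * (P * k) + G0 * (Q1 * (S.κ + 1))) := by
    have g4 := mul_le_mul_of_nonneg_right hr ha
    have g5 := mul_le_mul_of_nonneg_right hs hh
    have g6 := mul_le_mul_of_nonneg_right hν hl
    have c4 := mul_le_mul_of_nonneg_left b1 hG0p
    clear_value A0 D0 G0 P k Q1
    clear hb h20 bw bz dw dz ew ez w1 w2 z1 z2 ew1 ew2 ez1 ez2 fw1 fw2 fz1 fz2 fW1 fW2 fW4 fC fD fE hp hq hμ hr hs hν kw kz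
    rw [← hC0'] at kz1
    linarith
  have b2 : S.ze ≤ s' * S.h - r' * S.a - ν' * S.lam + Q2 * (S.κ + 1) := by
    have : C0 * S.ze ≤ C0 * (s' * S.h - r' * S.a - ν' * S.lam + Q2 * (S.κ + 1)) := by
      have e1 : C0 * (Q2 * (S.κ + 1)) = ((2 * β - 1) + β ^ 2 + A0 + D0 + G0) * (P * k)
          + G0 * (Q1 * (S.κ + 1)) := by
        rw [hQ2, ← mul_assoc, mul_div_cancel₀ _ hC0.ne', hkN]; ring
      rw [mul_add, e1]
      exact key2
    exact le_of_mul_le_mul_left this hC0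
  have p1 : 0 ≤ Q1 * (S.κ + 1) := by positivity
  have p2 : 0 ≤ Q2 * (S.κ + 1) := by positivity
  constructor
  · rw [add_mul]; linarith
  · rw [add_mul]; linarith

/-- conclusion -/
theorem Bd_final {m : ℕ} {p q μ r s ν α : ℝ} (hb : Bd m p q μ r s ν) (hν1 : 1 ≤ ν) (hr0 : 0 ≤ r)
    (hα : s ≤ α * (1 + r)) : SD m α := by
  rw [SD_iff]
  obtain ⟨D, hD, hb⟩ := hb
  have hm : (0 : ℝ) ≤ m := Nat.cast_nonneg _
  refine ⟨D + 10 * (34 * (m + 1)), by positivity, fun M G S => ?_⟩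
  have hκ := S.κ_nonneg
  have ha := S.a_nonneg
  have hh := S.h_nonneg
  have hl := S.lam_nonneg
  have el : S.Lam = 2 * S.h - S.lam := by unfold Sys.lam; ring
  have fC := S.factC
  have fs := S.sg_le
  rw [el] at fC
  have b := (hb M G S).2
  have hkN : kk m S.κ = 34 * (m + 1) * (S.κ + 1) := rfl
  rw [hkN] at fC
  have g1 := mul_le_mul_of_nonneg_right hα hh
  have g2 := mul_le_mul_of_nonneg_right hν1 hl
  set N := (D + 10 * (34 * ((m : ℝ) + 1))) * (S.κ + 1) with hN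
  have hNp : 0 ≤ N := by rw [hN]; positivity
  have key : (1 + r) * S.a ≤ (1 + r) * (α * S.h) + N := by
    rw [hN]; linarith
  have h1r : 0 < 1 + r := by linarith
  have : (1 + r) * S.a ≤ (1 + r) * (α * S.h + N) := by
    have := mul_nonneg hr0 hNp
    linarith
  exact le_of_mul_le_mul_left this h1r

end Pool.Agent.Helper8.Kak
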