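import Pool.Agent.Helper39.KakXO
import Pool.Agent.Helper8.Kak.L1W

/-!
# The X-step and the final step
-/

set_option autoImplicit false

namespace Pool.Agent.Helper8.Kak

variable {m M : ℕ} {G : Geo m M} (S : Sys G)

/-- the X-step with a larger constant -/
theorem factXS100 (bh : S.Ω → Fin M) (hbh : ∀ ω ω', S.K ω ω' → bh ω = bh ω') {β C : ℝ}
    (hβ : 0 ≤ β) (hC : 0 ≤ C) (ih : SDG G β C) :
    2 * S.a - 2 * S.h + S.Lam - S.X bh ≤ β * (S.h + S.ze - S.X bh)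
      + 100 * (β + C + 1) * kk m S.κ := by
  have hκ := S.κ_nonneg
  obtain ⟨k1, k2⟩ := kk_ge (m := m) hκ
  have h := factXS S bh hbh hβ hC ih
  have h0 : 0 ≤ (β + C + 1) * kk m S.κ := by positivity
  have e1 : 15 * (β + C + 1) * kk m S.κ = 15 * ((β + C + 1) * kk m S.κ) := by ring
  have e2 : 100 * (β + C + 1) * kk m S.κ = 100 * ((β + C + 1) * kk m S.κ) := by ring
  rw [e1] at h
  rw [e2]
  linarith

/-- the final step for a second system `S'` over `S` -/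
theorem factF_gen (S' : Sys G) (φ : S'.Ω → S.Ω) (hφ : MP S'.p S.p φ)
    (hl : ∀ y, 0 < S'.p y → S.l (φ y) = S'.l y)
    (hK : ∀ y y', 0 < S'.p y → 0 < S'.p y' → S'.K y y' → S.K (φ y) (φ y'))
    (hT : ∀ y y', S'.K y y' → S.T (φ y) = S.T (φ y'))
    {β C : ℝ} (hβ : 1 ≤ β) (hC : 0 ≤ C) (ih : SDG G β C) :
    S'.a + β * ((S.a - S.h) + (Ent S'.p (S'.K ⊓ Setoid.ker (fun y => G.P (S'.l y) (S.T (φ y))))
        - S'.eK) - (2 * S'.h - S'.Lam))
      ≤ β * (S.h + S'.X (fun y => S.T (φ y))) + 100 * (β + C + 1) * (kk m S'.κ + kk m S.κ) := by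
  have hκ := S'.κ_nonneg
  obtain ⟨k1, k2⟩ := kk_ge (m := m) hκ
  let L : Link S S' := ⟨φ, hφ, hl, hK, hT⟩
  exact XOut.factF (L := L) (xOut S' L.bh hT) (by linarith) (by linarith) (by linarith) hβ hC ih

end Pool.Agent.Helper8.Kak
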