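import Pool.Agent.Helper8.Kak.L1Main
import Pool.Agent.Helper39.KakX
import Pool.Agent.Helper75.KakF

/-!
# The spaces of the X-step and of the final step
-/

set_option autoImplicit false

namespace Pool.Agent.Helper8.Kak

/-- sample space of the X-step -/
abbrev ZZ (Ω : Type) : Type := Y Ω × (Ω × Ω)

section

variable {m M : ℕ} {G : Geo m M} (S : Sys G) (bh : S.Ω → Fin M)

/-- the law of the X-step: a fourth line through the point of the third line at height `b` -/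
noncomputable def Sys.pZ : ZZ S.Ω → ℝ :=
  glue S.pY (pA1 S.p S.K S.l) (fP S.K S.l S.T G.P ∘ cb) (fP S.K S.l S.T G.P ∘ Prod.fst)

/-- the parameter `c3`; `bh` is a `K`-measurable height -/
noncomputable def vc3 (z : ZZ S.Ω) : ℤ := mv (vc S z.1) (S.T z.2.2) (S.T (cb z.1)) (bh z.2.1)

/-- the form `u` -/
noncomputable def vu (z : ZZ S.Ω) : Fin m → ℤ :=
  cell G.δ (frm G.x G.v (S.l z.2.1) (bh z.2.1) (vc3 S bh z) (G.v (S.l (c1 z.1))))

/-- the random variables of the X-step -/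
noncomputable def Sys.VZ : V2 → Setoid (ZZ S.Ω)
  | .K => Setoid.comap Prod.fst (S.V .K)
  | .l0 => Setoid.comap Prod.fst (S.V .l0)
  | .l1 => Setoid.comap Prod.fst (S.V .l1)
  | .l2 => Setoid.comap Prod.fst (S.V .l2)
  | .l3 => Setoid.ker (fun z => S.l z.2.1)
  | .T0 => Setoid.comap Prod.fst (S.V .T0)
  | .T1 => Setoid.comap Prod.fst (S.V .T1)
  | .S => Setoid.comap Prod.fst (S.V .S)
  | .R => Setoid.comap Prod.fst (S.V .R)
  | .b => Setoid.comap Prod.fst (S.V .b)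
  | .b' => Setoid.comap Prod.fst (S.V .b')
  | .t3 => Setoid.ker (fun z => S.T z.2.2)
  | .P0 => Setoid.comap Prod.fst (S.V .P0)
  | .P1 => Setoid.comap Prod.fst (S.V .P1)
  | .Pb => Setoid.comap Prod.fst (S.V .Pb)
  | .P3 => Setoid.ker (fun z => G.P (S.l z.2.1) (S.T z.2.2))
  | .B => Setoid.comap Prod.fst (S.V .B)
  | .c => Setoid.comap Prod.fst (S.V .c)
  | .z => Setoid.comap Prod.fst (S.V .z)
  | .c3 => Setoid.ker (vc3 S bh)
  | .s => Setoid.ker (fun z => G.P (S.l z.2.1) (bh z.2.1))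
  | .u => Setoid.ker (vu S bh)

/-- entropy of the form `u` -/
noncomputable def Sys.X : ℝ :=
  HH S.pZ (S.VZ bh) {.K, .T0, .T1, .b, .c3, .u} - HH S.pZ (S.VZ bh) {.K, .T0, .T1, .b, .c3}

end

section

variable {m M : ℕ} {G : Geo m M} (S : Sys G)

/-- the base height `b`, a height measurable for the second system -/
noncomputable def Sys.bn : S.next.Ω → Fin M := fun y : Y S.Ω => S.T (cb y)

/-- the coordinate of the fourth line of the second system, a point of the base space -/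
def nn (z : ZZ S.next.Ω) : Y S.Ω := z.2.1

/-- the law of the final step -/
noncomputable def Sys.p5 : ZZ S.next.Ω × (S.Ω × S.Ω) → ℝ :=
  glue S.next.pZ (pA1 S.p S.K S.l) (fP S.K S.l S.T G.P ∘ cb ∘ nn S)
    (fP S.K S.l S.T G.P ∘ Prod.fst)

/-- the parameter `c4` -/
noncomputable def vc4 (w : ZZ S.next.Ω × (S.Ω × S.Ω)) : ℤ :=
  mvInf (vc3 S.next S.bn w.1) (S.T w.2.2) (S.T (cb (nn S w.1)))

/-- the form `y` -/
noncomputable def vy (w : ZZ S.next.Ω × (S.Ω × S.Ω)) : Fin m → ℤ :=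
  cell G.δ (fun i => G.v (S.l w.2.1) i + ((vc4 S w : ℤ) : ℝ) / M * G.v (S.next.l (c1 w.1.1)) i)

/-- the random variables of the final step -/
noncomputable def Sys.V5 : V3 → Setoid (ZZ S.next.Ω × (S.Ω × S.Ω))
  | .K => Setoid.comap (fun w => c0 (nn S w.1)) S.K
  | .Q => Setoid.comap Prod.fst (S.next.VZ S.bn .K)
  | .b => Setoid.ker (fun w => S.T (cb (nn S w.1)))
  | .m1 => Setoid.comap Prod.fst (S.next.VZ S.bn .l1)
  | .m3 => Setoid.comap Prod.fst (S.next.VZ S.bn .l3)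
  | .U0 => Setoid.comap Prod.fst (S.next.VZ S.bn .T0)
  | .U1 => Setoid.comap Prod.fst (S.next.VZ S.bn .T1)
  | .U2 => Setoid.comap Prod.fst (S.next.VZ S.bn .b)
  | .c3 => Setoid.comap Prod.fst (S.next.VZ S.bn .c3)
  | .u => Setoid.comap Prod.fst (S.next.VZ S.bn .u)
  | .s => Setoid.comap Prod.fst (S.next.VZ S.bn .s)
  | .l5 => Setoid.ker (fun w => S.l w.2.1)
  | .t5 => Setoid.ker (fun w => S.T w.2.2)
  | .P5 => Setoid.ker (fun w => G.P (S.l w.2.1) (S.T w.2.2))
  | .c4 => Setoid.ker (vc4 S)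
  | .y => Setoid.ker (vy S)

end

end Pool.Agent.Helper8.Kak
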